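import Pool.Agent.Work.MP_44129c_co.P1.Defs

/-!
# MP_44129c_co/P1, KnB (size S-M): small generating subfamilies, composition

`gen_small`: PROOF.  For `J ⊆ I` let `T J = {x | ∃ g ∈ cube d J, x - g ∈ A}` (a finset, `A`-periodic,
`T J ⊆ B`).  Claim by induction on `l`: either some `J ⊆ I` has `Gen d J A B` and
`(J.card + 1) * Nat.card A ≤ Nat.card B`, or there is `J ⊆ I` with `J.card = l` and
`(J.card + 1) * Nat.card A ≤ (T J).card` (for `l > I.card` the second alternative is impossible).
`l = 0`: `T ∅` is `A`.  Step: if `T J = B` (as sets) we have `Gen d J A B` and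
`(J.card + 1) * Nat.card A ≤ (T J).card = Nat.card B`.  If `T J ≠ B` then there are `i ∈ I \ J` and
`x ∈ T J` with `x + d i ∉ T J`: otherwise `T J + d i ⊆ T J` for all `i ∈ I \ J`, so
`T I ⊆ T J` (a sum over `R ⊆ I` is a sum over `R ∩ J` plus a sum over `R \ J`; induction), but
`T I ⊇ B` by `hg`.  For this `i`: `T (insert i J) ⊇ T J ∪ (x + d i + A)`, disjoint, so the card grows
by `≥ Nat.card A`.  (It ends because `(T J).card ≤ Nat.card B`, `J.card ≤ I.card`.)

`gen_trans`: PROOF.  `x ∈ C`: `g ∈ cube d J` with `x - g ∈ B`, then `g' ∈ cube d I` with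
`x - g - g' ∈ A`; `g + g' ∈ cube d (I ∪ J)` (disjoint).
-/

set_option autoImplicit false

namespace ZS44129

open Finset

theorem gen_small {ι G : Type*} [DecidableEq ι] [AddCommGroup G] [Fintype G] [DecidableEq G]
    (d : ι → G) (I : Finset ι) (A B : AddSubgroup G) (hAB : A ≤ B) (hd : ∀ i ∈ I, d i ∈ B)
    (hg : Gen d I A B) :
    ∃ J, J ⊆ I ∧ Gen d J A B ∧ (J.card + 1) * Nat.card A ≤ Nat.card B := by
  classical
  let T : Finset ι → Finset G := fun K => Finset.univ.filter (fun x => ∃ y ∈ cube d K, x - y ∈ A)
  have hTmem : ∀ K x, x ∈ T K ↔ ∃ y ∈ cube d K, x - y ∈ A := by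
    intro K x
    simp only [T, Finset.mem_filter, Finset.mem_univ, true_and]
  have hmono : ∀ K L : Finset ι, K ⊆ L → T K ⊆ T L := by
    intro K L hKL x hx
    rw [hTmem] at hx ⊢
    obtain ⟨y, hy, hxy⟩ := hx
    exact ⟨y, cube_mono d hKL hy, hxy⟩
  have hper : ∀ K x h, x ∈ T K → h ∈ A → x + h ∈ T K := by
    intro K x h hx hh
    rw [hTmem] at hx ⊢
    obtain ⟨y, hy, hxy⟩ := hx
    refine ⟨y, hy, ?_⟩
    have : x + h - y = (x - y) + h := by abel
    rw [this]; exact A.add_mem hxy hh
  have hcos : ∀ (U : Finset G) (x : G), (∀ h ∈ A, x + h ∈ U) → Nat.card A ≤ U.card := by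
    intro U x hU
    have h1 : (((fun h : G => x + h) '' (A : Set G))).ncard ≤ ((U : Finset G) : Set G).ncard := by
      apply Set.ncard_le_ncard _ (Set.toFinite _)
      rintro _ ⟨h, hh, rfl⟩
      exact hU h hh
    rw [Set.ncard_coe_finset, Set.ncard_image_of_injective _ (add_right_injective x)] at h1
    exact h1
  have hTB : ∀ K, K ⊆ I → (T K).card ≤ Nat.card B := by
    intro K hK
    have h1 : ((T K : Finset G) : Set G).ncard ≤ ((B : AddSubgroup G) : Set G).ncard := by
      apply Set.ncard_le_ncard _ (Set.toFinite _)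
      intro x hx
      have hx' : x ∈ T K := hx
      rw [hTmem] at hx'
      obtain ⟨y, hy, hxy⟩ := hx'
      obtain ⟨R, hR, rfl⟩ := mem_cube.1 hy
      have h2 : ∑ j ∈ R, d j ∈ B := AddSubgroup.sum_mem _ (fun j hj => hd j (hK (hR hj)))
      have h3 : x = (x - ∑ j ∈ R, d j) + ∑ j ∈ R, d j := by abel
      change x ∈ B
      rw [h3]
      exact B.add_mem (hAB hxy) h2
    rw [Set.ncard_coe_finset] at h1
    exact h1
  have key : ∀ l : ℕ, (∃ J, J ⊆ I ∧ Gen d J A B ∧ (J.card + 1) * Nat.card A ≤ Nat.card B) ∨
      ∃ J, J ⊆ I ∧ J.card = l ∧ (J.card + 1) * Nat.card A ≤ (T J).card := by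
    intro l
    induction l with
    | zero =>
      right
      refine ⟨∅, Finset.empty_subset _, Finset.card_empty, ?_⟩
      rw [Finset.card_empty, zero_add, one_mul]
      apply hcos _ 0
      intro h hh
      rw [hTmem]
      exact ⟨0, zero_mem_cube d ∅, by simpa using hh⟩
    | succ l ih =>
      rcases ih with h | ⟨J, hJI, hJl, hJc⟩
      · exact Or.inl h
      · by_cases hB : ∀ x ∈ B, x ∈ T J
        · left
          refine ⟨J, hJI, ?_, hJc.trans (hTB J hJI)⟩
          intro x hx
          exact (hTmem J x).1 (hB x hx)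
        · right
          have hex : ∃ i ∈ I \ J, ∃ x ∈ T J, x + d i ∉ T J := by
            by_contra hcon
            push Not at hcon
            apply hB
            intro x hx
            have hadd : ∀ R : Finset ι, R ⊆ I \ J → ∀ y ∈ T J, y + ∑ j ∈ R, d j ∈ T J := by
              intro R
              induction R using Finset.induction_on with
              | empty => intro _ y hy; simpa using hy
              | insert i R hi ihR =>
                intro hR y hy
                rw [Finset.sum_insert hi]
                have h1 := ihR (fun j hj => hR (Finset.mem_insert_of_mem hj)) y hy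
                have h2 := hcon i (hR (Finset.mem_insert_self i R)) _ h1
                have h3 : y + (d i + ∑ j ∈ R, d j) = y + ∑ j ∈ R, d j + d i := by abel
                rw [h3]; exact h2
            obtain ⟨g, hg1, hg2⟩ := hg x hx
            obtain ⟨R, hR, rfl⟩ := mem_cube.1 hg1
            have h4 : ∑ j ∈ R ∩ J, d j ∈ T J := by
              rw [hTmem]
              refine ⟨∑ j ∈ R ∩ J, d j, mem_cube.2 ⟨_, Finset.inter_subset_right, rfl⟩, ?_⟩
              rw [sub_self]; exact A.zero_mem
            have h5 := hadd (R \ J) (Finset.sdiff_subset_sdiff hR (Finset.Subset.refl _)) _ h4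
            have h7 : ∑ j ∈ R, d j = ∑ j ∈ R ∩ J, d j + ∑ j ∈ R \ J, d j := by
              rw [← Finset.sum_inter_add_sum_sdiff R J]
            rw [← h7] at h5
            have h8 := hper _ _ _ h5 hg2
            have h9 : ∑ j ∈ R, d j + (x - ∑ i ∈ R, d i) = x := by abel
            rw [h9] at h8
            exact h8
          obtain ⟨i, hi, x, hx1, hx2⟩ := hex
          have hi' := Finset.mem_sdiff.1 hi
          refine ⟨insert i J, Finset.insert_subset hi'.1 hJI, ?_, ?_⟩
          · rw [Finset.card_insert_of_notMem hi'.2, hJl]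
          · have hsub := hmono J (insert i J) (Finset.subset_insert i J)
            have hd2 : Nat.card A ≤ (T (insert i J) \ T J).card := by
              apply hcos _ (x + d i)
              intro h hh
              rw [Finset.mem_sdiff]
              refine ⟨hper _ _ _ ?_ hh, fun hcon => hx2 ?_⟩
              · rw [hTmem] at hx1 ⊢
                obtain ⟨y, hy, hxy⟩ := hx1
                refine ⟨y + d i, ?_, ?_⟩
                · rw [mem_cube_insert hi'.2]
                  right
                  simpa using hy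
                · have h10 : x + d i - (y + d i) = x - y := by abel
                  rw [h10]; exact hxy
              · have := hper _ _ _ hcon (A.neg_mem hh)
                simpa using this
            rw [Finset.card_sdiff_of_subset hsub] at hd2
            have hle := Finset.card_le_card hsub
            rw [Finset.card_insert_of_notMem hi'.2]
            have : (J.card + 1 + 1) * Nat.card A = (J.card + 1) * Nat.card A + Nat.card A := by ring
            omega
  rcases key (I.card + 1) with h | ⟨J, hJ, hJc, _⟩
  · exact h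
  · have := Finset.card_le_card hJ
    omega

theorem gen_trans {ι G : Type*} [DecidableEq ι] [AddCommGroup G] [DecidableEq G]
    (d : ι → G) (I J : Finset ι) (hdis : Disjoint I J) (A B C : AddSubgroup G)
    (h1 : Gen d I A B) (h2 : Gen d J B C) : Gen d (I ∪ J) A C := by
  intro x hx
  obtain ⟨g, hg, hxg⟩ := h2 x hx
  obtain ⟨g', hg', hxg'⟩ := h1 _ hxg
  obtain ⟨R, hR, rfl⟩ := mem_cube.1 hg
  obtain ⟨R', hR', rfl⟩ := mem_cube.1 hg'
  refine ⟨∑ i ∈ R' ∪ R, d i, mem_cube.2 ⟨_, Finset.union_subset_union hR' hR, rfl⟩, ?_⟩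
  have hd : Disjoint R' R := Finset.disjoint_of_subset_left hR' (Finset.disjoint_of_subset_right hR hdis)
  rw [Finset.sum_union hd]
  have h : x - (∑ i ∈ R', d i + ∑ i ∈ R, d i) = x - ∑ i ∈ R, d i - ∑ i ∈ R', d i := by abel
  rw [h]
  exact hxg'

end ZS44129
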