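import Pool.Agent.Work.MP_44129c_co.P1.KnA
import Pool.Agent.Work.MP_44129c_co.P1.KnB

/-!
# MP_44129c_co/P1, KnC (size S-M): many elements outside `A` generate a bigger subgroup

PROOF of `gen_sub`.  Among the subgroups `K` with `A < K ≤ B` and
`Nat.card K ≤ Nat.card A * ((inK d I K).card + 1)` (`B` is one: `inK d I B = I`) take one of minimal
cardinality; `J := inK d I K`.  We show `Gen d J A K` by `gen_of_count` (with `B := K`): let
`A ≤ K' < K`.
* `K' = A`: `outK d J A = J` (`hdA`), and the inequality is the property of `K`.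
* `A < K'`: by minimality `Nat.card A * ((inK d I K').card + 1) < Nat.card K'`.  With
  `p = [K : K'] ≥ 2`, `q = [K' : A] ≥ 2` (`Nat.card K = Nat.card K' * p`,
  `Nat.card K' = Nat.card A * q`; `AddSubgroup.relIndex`): `(inK d I K').card + 2 ≤ q`,
  `(inK d I K).card + 1 ≥ p * q`; `(outK d J K').card = (inK d I K).card - (inK d I K').card
  ≥ p q - 1 - (q - 2) = q (p - 1) + 1 ≥ p - 1`, so `p ≤ (outK d J K').card + 1`.

`out_le`: PROOF.  `cube d I` is a proper subset of `G` closed under adding elements of `H`, so its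
complement is nonempty and closed under adding elements of `H` (`H` is closed under negation), hence
has at least `Nat.card H` elements; with `kneser_out`:
`((outK d I H).card + 1) * Nat.card H + Nat.card H ≤ Nat.card G`.
-/

set_option autoImplicit false

namespace ZS44129

open Finset

theorem gen_sub {ι G : Type*} [DecidableEq ι] [AddCommGroup G] [Fintype G] [DecidableEq G]
    (d : ι → G) (I : Finset ι) (A B : AddSubgroup G) (hAB : A < B) (hd : ∀ i ∈ I, d i ∈ B)
    (hdA : ∀ i ∈ I, d i ∉ A) (hc : Nat.card B ≤ Nat.card A * (I.card + 1)) :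
    ∃ K : AddSubgroup G, A < K ∧ K ≤ B ∧ ∃ J, J ⊆ I ∧ (∀ i ∈ J, d i ∈ K) ∧ Gen d J A K := by
  have hB : (A < B ∧ B ≤ B) ∧ Nat.card B ≤ Nat.card A * ((inK d I B).card + 1) := by
    refine ⟨⟨hAB, le_rfl⟩, ?_⟩
    have h1 : inK d I B = I := Finset.Subset.antisymm (inK_sub d I B)
      fun i hi => mem_inK.2 ⟨hi, hd i hi⟩
    rw [h1]
    exact hc
  obtain ⟨K, ⟨⟨hAK, hKB⟩, hKc⟩, hmin⟩ :=
    (measure (fun K : AddSubgroup G => Nat.card K)).wf.has_min
      {K | (A < K ∧ K ≤ B) ∧ Nat.card K ≤ Nat.card A * ((inK d I K).card + 1)} ⟨B, hB⟩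
  refine ⟨K, hAK, hKB, inK d I K, inK_sub d I K, fun i hi => (mem_inK.1 hi).2, ?_⟩
  refine gen_of_count d (inK d I K) A K hAK.le (fun i hi => (mem_inK.1 hi).2) ?_
  intro K' hAK' hK'K
  rcases hAK'.eq_or_lt with he | hlt
  · rw [← he]
    have h1 : outK d (inK d I K) A = inK d I K := Finset.Subset.antisymm (outK_sub d _ A)
      fun i hi => mem_outK.2 ⟨hi, hdA i (inK_sub d I K hi)⟩
    rw [h1]
    exact hKc
  · have hcard : Nat.card K' < Nat.card K := by
      have h1 : ((K' : AddSubgroup G) : Set G).ncard < ((K : AddSubgroup G) : Set G).ncard :=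
        Set.ncard_lt_ncard (by exact_mod_cast hK'K) (Set.toFinite _)
      exact h1
    have hn : Nat.card A * ((inK d I K').card + 1) < Nat.card K' := by
      by_contra hcon
      exact hmin K' ⟨⟨hlt, hK'K.le.trans hKB⟩, not_lt.1 hcon⟩ hcard
    have h2 : inK d (inK d I K) K' = inK d I K' := by
      ext i
      rw [mem_inK, mem_inK, mem_inK]
      exact ⟨fun h => ⟨h.1.1, h.2⟩, fun h => ⟨⟨h.1, hK'K.le h.2⟩, h.2⟩⟩
    have h3 := inK_add_outK d (inK d I K) K'
    rw [h2] at h3
    obtain ⟨p, hp⟩ := AddSubgroup.card_dvd_of_le hK'K.le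
    obtain ⟨q, hq⟩ := AddSubgroup.card_dvd_of_le hAK'
    have hApos : 0 < Nat.card A := Nat.card_pos
    have hKpos : 0 < Nat.card K := Nat.card_pos
    have hp0 : 0 < p := by
      rcases Nat.eq_zero_or_pos p with h | h
      · rw [h, mul_zero] at hp
        omega
      · exact h
    obtain ⟨p', rfl⟩ : ∃ p', p = p' + 1 := ⟨p - 1, by omega⟩
    have e1 : (inK d I K').card + 1 < q := by
      rw [hq] at hn
      exact Nat.lt_of_mul_lt_mul_left hn
    have e2 : q * (p' + 1) ≤ (inK d I K).card + 1 := by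
      rw [hp, hq, mul_assoc] at hKc
      exact Nat.le_of_mul_le_mul_left hKc hApos
    rw [hp]
    apply Nat.mul_le_mul_left
    have e3 : p' ≤ q * p' := Nat.le_mul_of_pos_left p' (by omega)
    rw [mul_add, mul_one] at e2
    omega

theorem out_le {ι G : Type*} [DecidableEq ι] [AddCommGroup G] [Fintype G] [DecidableEq G]
    (d : ι → G) (I : Finset ι) (H : AddSubgroup G)
    (hH : ∀ h : G, h ∈ H ↔ ∀ x ∈ cube d I, x + h ∈ cube d I) (hne : cube d I ≠ univ) :
    ((outK d I H).card + 2) * Nat.card H ≤ Nat.card G := by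
  classical
  have h1 := kneser_out d I H hH
  obtain ⟨x, hx⟩ : ∃ x, x ∉ cube d I := by
    by_contra hcon
    push Not at hcon
    exact hne (Finset.eq_univ_iff_forall.2 hcon)
  have h2 : Nat.card H ≤ (cube d I)ᶜ.card := by
    have h3 : ((fun h : G => x + h) '' (H : Set G)).ncard ≤
        (((cube d I)ᶜ : Finset G) : Set G).ncard := by
      apply Set.ncard_le_ncard _ (Set.toFinite _)
      rintro _ ⟨h, hh, rfl⟩
      rw [Finset.mem_coe, Finset.mem_compl]
      intro h4
      have h5 := (hH (-h)).1 (H.neg_mem hh) _ h4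
      rw [add_neg_cancel_right] at h5
      exact hx h5
    rw [Set.ncard_coe_finset, Set.ncard_image_of_injective _ (add_right_injective x)] at h3
    exact h3
  have h3 := Finset.card_add_card_compl (cube d I)
  rw [Nat.card_eq_fintype_card (α := G)]
  have h4 : ((outK d I H).card + 2) * Nat.card H =
      ((outK d I H).card + 1) * Nat.card H + Nat.card H := by ring
  omega

end ZS44129
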