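import Pool.Agent.Work.MP_44129c_co.P1.Defs

/-!
# MP_44129c_co/P1, SubU (size S): subgroups of `ZMod m`

PROOFS.  `sub_unique`: with `h = Nat.card H`, `H ⊆ {g | h • g = 0}` (Lagrange), and this set has at
most `h` elements (`IsAddCyclic.card_nsmul_eq_zero_le`), so `H` is this set; same for `K`.
`sub_index_unique`: `Nat.card H * H.index = m`.  `card_Jm`: `{g | 6 • g = 0}` in the cyclic group
`ZMod m` has `gcd 6 m` elements (Mathlib: `IsAddCyclic.card_addTorsionBy`-like or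
`IsCyclic.card_pow_eq_one...`; or: `g = (x : ℕ)`, `m ∣ 6 x ↔ (m / gcd) ∣ x`).  `le_Jm`: Lagrange.
-/

set_option autoImplicit false

namespace ZS44129

open Finset

private theorem subU_eq_ker {m : ℕ} [NeZero m] (H : AddSubgroup (ZMod m)) :
    H = (nsmulAddMonoidHom (Nat.card H) : ZMod m →+ ZMod m).ker := by
  have hle : H ≤ (nsmulAddMonoidHom (Nat.card H) : ZMod m →+ ZMod m).ker := by
    intro x hx
    rw [AddMonoidHom.mem_ker, nsmulAddMonoidHom_apply]
    have h1 : Nat.card H • (⟨x, hx⟩ : H) = 0 := card_nsmul_eq_zero'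
    have h2 : ((Nat.card H • (⟨x, hx⟩ : H) : H) : ZMod m) = 0 := by rw [h1]; rfl
    rw [AddSubgroup.coe_nsmul] at h2
    exact h2
  apply AddSubgroup.eq_of_le_of_card_ge hle
  rw [IsAddCyclic.card_nsmulAddMonoidHom_ker, Nat.card_zmod]
  exact Nat.gcd_le_right _ Nat.card_pos

theorem sub_unique {m : ℕ} [NeZero m] (H K : AddSubgroup (ZMod m))
    (h : Nat.card H = Nat.card K) : H = K := by
  rw [subU_eq_ker H, subU_eq_ker K, h]

theorem sub_index_unique {m : ℕ} [NeZero m] (H K : AddSubgroup (ZMod m))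
    (h : H.index = K.index) : H = K := by
  apply sub_unique
  have h1 := AddSubgroup.card_mul_index H
  have h2 := AddSubgroup.card_mul_index K
  rw [← h2, h] at h1
  have h3 : K.index ≠ 0 := AddSubgroup.index_ne_zero_of_finite
  exact Nat.eq_of_mul_eq_mul_right (Nat.pos_of_ne_zero h3) h1

theorem card_mul_index' {m : ℕ} [NeZero m] (H : AddSubgroup (ZMod m)) :
    Nat.card H * H.index = m := by
  rw [AddSubgroup.card_mul_index H, Nat.card_zmod]

theorem card_Jm {m : ℕ} [NeZero m] : Nat.card (Jm m) = Nat.gcd 6 m := by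
  have h1 : Jm m = (nsmulAddMonoidHom 6 : ZMod m →+ ZMod m).ker := by
    ext x
    rw [mem_Jm, AddMonoidHom.mem_ker, nsmulAddMonoidHom_apply]
  rw [h1, IsAddCyclic.card_nsmulAddMonoidHom_ker, Nat.card_zmod, Nat.gcd_comm]

theorem le_Jm {m : ℕ} [NeZero m] (H : AddSubgroup (ZMod m)) (h : Nat.card H ∣ 6) : H ≤ Jm m := by
  intro x hx
  rw [mem_Jm]
  have h1 : Nat.card H • (⟨x, hx⟩ : H) = 0 := card_nsmul_eq_zero'
  obtain ⟨k, hk⟩ := h
  have h2 : (6 : ℕ) • (⟨x, hx⟩ : H) = 0 := by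
    rw [hk, mul_comm, mul_nsmul', h1, nsmul_zero]
  have h3 : (((6 : ℕ) • (⟨x, hx⟩ : H) : H) : ZMod m) = 0 := by rw [h2]; rfl
  rw [AddSubgroup.coe_nsmul] at h3
  exact h3

end ZS44129
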