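import Pool.Agent.Work.MP_44129c_co.P1.Defs

/-!
# MP_44129c_co/P1, KnA (size S-M): generation from the Kneser counts

PROOF. Quotient `Γ = G ⧸ A`, `π = QuotientAddGroup.mk`, family `π ∘ d`; `cube (π ∘ d) I` is the image
of `cube d I`.  Let `Hb` be the stabiliser of `cube (π ∘ d) I` (an AddSubgroup of the finite group
`Γ`: the set of `h` with `x + h ∈ cube` for all `x ∈ cube`; closed under negation because the map
`x ↦ x + h` is an injection of a finite set into itself, hence a bijection) and
`K = Hb.comap π ≥ A`.  As `0 ∈ cube` we have `Hb ⊆ cube (π ∘ d) I ⊆ π(B)`, so `K ≤ B` (`A ≤ B`).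
If `K = B`: `π(B) = Hb ⊆ cube (π ∘ d) I`: this is `Gen`.  Otherwise `K < B`, and
`Nat.card K = Nat.card A * Nat.card Hb`, `(outK d I K).card = (outK (π ∘ d) I Hb).card =: e`;
`kneser_out` gives `(e + 1) * Nat.card Hb ≤ (cube (π ∘ d) I).card`, and the hypothesis `hK K` gives
`Nat.card B ≤ Nat.card K * (e + 1) = Nat.card A * ((e + 1) * Nat.card Hb)
  ≤ Nat.card A * (cube (π ∘ d) I).card`.
Since `cube (π ∘ d) I ⊆ π(B)` and `Nat.card B = Nat.card A * Nat.card (π(B))`, the cube is all of
`π(B)`: `Gen`.
(Alternative without quotients: thick sets `{x | ∃ g ∈ cube d K, x - g ∈ A}` as in the proof of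
`cube_periodic`, F/CubeMain.)
-/

set_option autoImplicit false

namespace ZS44129

open Finset

private theorem kna_card {G : Type*} [AddCommGroup G] [Finite G] (A L : AddSubgroup G)
    (h : A ≤ L) :
    Nat.card L = Nat.card A * Nat.card (L.map (QuotientAddGroup.mk' A)) := by
  let f : L →+ G ⧸ A := (QuotientAddGroup.mk' A).comp L.subtype
  have h1 : f.ker = A.addSubgroupOf L := by
    ext x
    rw [AddMonoidHom.mem_ker, AddSubgroup.mem_addSubgroupOf]
    exact QuotientAddGroup.eq_zero_iff (x : G)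
  have h2 : f.range = L.map (QuotientAddGroup.mk' A) := by
    rw [AddMonoidHom.range_comp, AddSubgroup.range_subtype]
  have h3 := AddSubgroup.card_mul_index f.ker
  have h4 : f.ker.index = Nat.card f.range := AddSubgroup.index_ker f
  have h5 : Nat.card f.ker = Nat.card A := by
    rw [h1]
    exact Nat.card_congr (AddSubgroup.addSubgroupOfEquivOfLe h).toEquiv
  rw [← h3, h4, h5, h2]

private def knaStab {Γ : Type*} [AddCommGroup Γ] (S : Finset Γ) : AddSubgroup Γ where
  carrier := {h | ∀ x ∈ S, x + h ∈ S}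
  add_mem' {a b} ha hb := by
    intro x hx
    rw [← add_assoc]
    exact hb _ (ha x hx)
  zero_mem' := by
    intro x hx
    rwa [add_zero]
  neg_mem' {a} ha := by
    classical
    intro x hx
    have h1 : S.image (fun y => y + a) ⊆ S := by
      intro z hz
      obtain ⟨y, hy, rfl⟩ := Finset.mem_image.1 hz
      exact ha y hy
    have h2 : S.image (fun y => y + a) = S := by
      apply Finset.eq_of_subset_of_card_le h1
      rw [Finset.card_image_of_injective _ (add_left_injective a)]
    rw [← h2] at hx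
    obtain ⟨y, hy, hyx⟩ := Finset.mem_image.1 hx
    have h3 : x + -a = y := by
      rw [← hyx]
      abel
    rw [h3]
    exact hy

theorem gen_of_count {ι G : Type*} [DecidableEq ι] [AddCommGroup G] [Fintype G] [DecidableEq G]
    (d : ι → G) (I : Finset ι) (A B : AddSubgroup G) (hAB : A ≤ B) (hd : ∀ i ∈ I, d i ∈ B)
    (hK : ∀ K : AddSubgroup G, A ≤ K → K < B →
      Nat.card B ≤ Nat.card K * ((outK d I K).card + 1)) :
    Gen d I A B := by
  classical
  let π : G →+ G ⧸ A := QuotientAddGroup.mk' A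
  have : Fintype (G ⧸ A) := Fintype.ofFinite _
  set d' : ι → G ⧸ A := fun i => π (d i) with hd'
  have hc1 : ∀ x : G, π x ∈ cube d' I → ∃ g ∈ cube d I, x - g ∈ A := by
    intro x hx
    obtain ⟨T, hT, h⟩ := mem_cube.1 hx
    refine ⟨∑ i ∈ T, d i, mem_cube.2 ⟨T, hT, rfl⟩, ?_⟩
    rw [hd', ← map_sum] at h
    have h2 : π (x - ∑ i ∈ T, d i) = 0 := by
      rw [map_sub, h, sub_self]
    exact (QuotientAddGroup.eq_zero_iff _).1 h2
  have hcB : ∀ g ∈ cube d I, g ∈ B := by
    intro g hg
    obtain ⟨T, hT, rfl⟩ := mem_cube.1 hg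
    exact AddSubgroup.sum_mem _ fun i hi => hd i (hT hi)
  set Hb : AddSubgroup (G ⧸ A) := knaStab (cube d' I) with hHb
  have hHm : ∀ h : G ⧸ A, h ∈ Hb ↔ ∀ x ∈ cube d' I, x + h ∈ cube d' I := fun h => Iff.rfl
  have hHc : ∀ h ∈ Hb, h ∈ cube d' I := by
    intro h hh
    have := hh 0 (zero_mem_cube d' I)
    rwa [zero_add] at this
  set K : AddSubgroup G := Hb.comap π with hKd
  have hAK : A ≤ K := by
    intro a ha
    rw [hKd, AddSubgroup.mem_comap]
    have : π a = 0 := (QuotientAddGroup.eq_zero_iff a).2 ha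
    rw [this]
    exact Hb.zero_mem
  have hKB : K ≤ B := by
    intro g hg
    obtain ⟨g', hg', h⟩ := hc1 g (hHc _ hg)
    have : g = (g - g') + g' := by abel
    rw [this]
    exact B.add_mem (hAB h) (hcB g' hg')
  rcases hKB.eq_or_lt with he | hlt
  · intro x hx
    rw [← he] at hx
    exact hc1 x (hHc _ hx)
  · have h1 := hK K hAK hlt
    have hsurj : Function.Surjective π := QuotientAddGroup.mk'_surjective A
    have h2 : K.map π = Hb := AddSubgroup.map_comap_eq_self_of_surjective hsurj Hb
    have h3 : Nat.card K = Nat.card A * Nat.card Hb := by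
      rw [kna_card A K hAK]
      rw [show (QuotientAddGroup.mk' A) = π from rfl, h2]
    have h4 : (outK d I K).card = (outK d' I Hb).card := by
      congr 1
    have h5 := kneser_out d' I Hb hHm
    rw [← h4] at h5
    have h6 : Nat.card B = Nat.card A * Nat.card (B.map π) := kna_card A B hAB
    have hApos : 0 < Nat.card A := Nat.card_pos
    have h7 : Nat.card (B.map π) ≤ (cube d' I).card := by
      have h8 : Nat.card A * Nat.card (B.map π) ≤ Nat.card A * (cube d' I).card := by
        calc Nat.card A * Nat.card (B.map π) = Nat.card B := h6.symm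
          _ ≤ Nat.card K * ((outK d I K).card + 1) := h1
          _ = Nat.card A * (((outK d I K).card + 1) * Nat.card Hb) := by
              rw [h3]
              ring
          _ ≤ Nat.card A * (cube d' I).card := Nat.mul_le_mul_left _ h5
      exact Nat.le_of_mul_le_mul_left h8 hApos
    have h9 : ((cube d' I : Finset (G ⧸ A)) : Set (G ⧸ A)) ⊆ ((B.map π : AddSubgroup (G ⧸ A)) :
        Set (G ⧸ A)) := by
      intro x hx
      obtain ⟨T, hT, h⟩ := mem_cube.1 (Finset.mem_coe.1 hx)
      refine ⟨∑ i ∈ T, d i, hcB _ (mem_cube.2 ⟨T, hT, rfl⟩), ?_⟩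
      rw [map_sum]
      exact h
    have h10 : ((cube d' I : Finset (G ⧸ A)) : Set (G ⧸ A)) = ((B.map π : AddSubgroup (G ⧸ A)) :
        Set (G ⧸ A)) := by
      apply Set.eq_of_subset_of_ncard_le h9 _ (Set.toFinite _)
      rw [Set.ncard_coe_finset]
      exact h7
    intro x hx
    apply hc1
    have h11 : π x ∈ ((B.map π : AddSubgroup (G ⧸ A)) : Set (G ⧸ A)) := ⟨x, hx, rfl⟩
    rw [← h10] at h11
    exact Finset.mem_coe.1 h11

end ZS44129
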