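import Pool.Agent.Work.MP_44129c_co.P1.SubU

/-!
# MP_44129c_co/P1, BadC (size S-M): the number of bad vertices

PROOF.  `n = (univ.erase w).card = Fintype.card V - 1 ≥ 5`.  (a) If `BadH 2 0 c w y` then `2 ∣ m`
(`index ∣ m`), and two such `y ≠ y'` are impossible: the subgroups of index 2 agree
(`sub_index_unique`), `H`; `β`, `β'`; take `x ≠ w, y, y'`: `c w x - β ∈ H`, `c w x - β' ∈ H`, so
`β - β' ∈ H`; `c w y - β' ∈ H` (as `y ≠ y'`, `y` is a position of the pair `w, y'`), so
`c w y - β ∈ H`: contradiction.  (b) If `BadH 3 1 c w y` then `3 ∣ m`.  Fix one such `y₀` with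
`H, β₀`.  For every `y` with `BadH 3 1 c w y` (`H` the same) the coset `β + H` contains all `c w x`,
`x ≠ w`, but at most 2, and so does `β₀ + H`; as `n ≥ 5` some `x` is in both, so the cosets agree, and
`y ∈ outK (fun x => c w x - β₀) (univ.erase w) H`, which has at most 2 elements (`y₀` and the one
exception).  Together: at most `[2 ∣ m] + 2 [3 ∣ m] = q0 m - 1` bad `y`.
-/

set_option autoImplicit false

namespace ZS44129

open Finset

private theorem badC_ne {V : Type} [Fintype V] [DecidableEq V] {m : ℕ} {i e : ℕ}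
    {c : V → V → ZMod m} {w y : V} (hy : y ≠ w) (H : AddSubgroup (ZMod m)) (β : ZMod m)
    (hc : (outK (fun x => c w x - β) (XX w y) H).card ≤ e) :
    (outK (fun x => c w x - β) (univ.erase w) H).card ≤ e + 1 := by
  have h1 : outK (fun x => c w x - β) (univ.erase w) H ⊆
      insert y (outK (fun x => c w x - β) (XX w y) H) := by
    intro x hx
    rw [mem_outK] at hx
    rw [mem_insert, mem_outK, mem_XX]
    by_cases hxy : x = y
    · exact Or.inl hxy
    · exact Or.inr ⟨⟨(mem_erase.1 hx.1).1, hxy⟩, hx.2⟩
  have h2 := card_le_card h1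
  have h3 := card_insert_le y (outK (fun x => c w x - β) (XX w y) H)
  omega

open Classical in
theorem bad_card {V : Type} [Fintype V] [DecidableEq V] {m : ℕ} [NeZero m]
    (hV : 6 ≤ Fintype.card V) (c : V → V → ZMod m) (w : V) (Y : Finset V) (hwY : w ∉ Y)
    (hY : ∀ y ∈ Y, BadH 2 0 c w y ∨ BadH 3 1 c w y) : Y.card + 1 ≤ q0 m := by
  have hU : (univ.erase w).card + 1 = Fintype.card V := by
    rw [card_erase_add_one (mem_univ w), card_univ]
  have hyw : ∀ y ∈ Y, y ≠ w := fun y hy h => hwY (h ▸ hy)
  -- index two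
  have hA : (Y.filter (fun y => BadH 2 0 c w y)).card ≤ (if 2 ∣ m then 1 else 0) := by
    by_cases hm : 2 ∣ m
    · rw [if_pos hm, card_le_one]
      intro y hy y' hy'
      by_contra hne
      rw [mem_filter] at hy hy'
      obtain ⟨hyY, H, β, hi, hc, hn⟩ := hy
      obtain ⟨hyY', H', β', hi', hc', hn'⟩ := hy'
      have hHH : H = H' := sub_index_unique H H' (hi.trans hi'.symm)
      subst hHH
      have hcard : 0 < (((univ.erase w).erase y).erase y').card := by
        have h1 : y ∈ univ.erase w := mem_erase.2 ⟨hyw y hyY, mem_univ y⟩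
        have h2 : y' ∈ (univ.erase w).erase y :=
          mem_erase.2 ⟨fun h => hne h.symm, mem_erase.2 ⟨hyw y' hyY', mem_univ y'⟩⟩
        have h3 := card_erase_add_one h1
        have h4 := card_erase_add_one h2
        omega
      obtain ⟨x, hx⟩ := card_pos.1 hcard
      rw [mem_erase, mem_erase, mem_erase] at hx
      have hz : ∀ z, z ≠ w → z ≠ y → c w z - β ∈ H := by
        intro z h1 h2
        by_contra h3
        have h4 : z ∈ outK (fun x => c w x - β) (XX w y) H := mem_outK.2 ⟨mem_XX.2 ⟨h1, h2⟩, h3⟩
        have := card_pos.2 ⟨z, h4⟩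
        omega
      have hz' : ∀ z, z ≠ w → z ≠ y' → c w z - β' ∈ H := by
        intro z h1 h2
        by_contra h3
        have h4 : z ∈ outK (fun x => c w x - β') (XX w y') H :=
          mem_outK.2 ⟨mem_XX.2 ⟨h1, h2⟩, h3⟩
        have := card_pos.2 ⟨z, h4⟩
        omega
      have e1 := hz x hx.2.2.1 hx.2.1
      have e2 := hz' x hx.2.2.1 hx.1
      have e3 := hz' y (hyw y hyY) hne
      apply hn
      have e4 : c w y - β = (c w y - β') - (c w x - β') + (c w x - β) := by abel
      rw [e4]
      exact H.add_mem (H.sub_mem e3 e2) e1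
    · rw [if_neg hm, Nat.le_zero, card_eq_zero, filter_eq_empty_iff]
      intro y _ hb
      obtain ⟨H, β, hi, -, -⟩ := hb
      apply hm
      rw [← hi]
      exact Dvd.intro_left _ (card_mul_index' H)
  have hB : (Y.filter (fun y => BadH 3 1 c w y)).card ≤ (if 3 ∣ m then 2 else 0) := by
    by_cases hm : 3 ∣ m
    · rw [if_pos hm]
      rcases (Y.filter (fun y => BadH 3 1 c w y)).eq_empty_or_nonempty with h0 | ⟨y0, hy0⟩
      · rw [h0, card_empty]; exact Nat.zero_le _
      · rw [mem_filter] at hy0
        obtain ⟨hyY0, H, β0, hi0, hc0, hn0⟩ := hy0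
        have hb0 := badC_ne (i := 3) (hyw y0 hyY0) H β0 hc0
        refine (card_le_card ?_).trans hb0
        intro y hy
        rw [mem_filter] at hy
        obtain ⟨hyY, H', β, hi, hc, hn⟩ := hy
        have hHH : H = H' := sub_index_unique H H' (hi0.trans hi.symm)
        subst hHH
        have hb := badC_ne (i := 3) (hyw y hyY) H β hc
        rw [mem_outK]
        refine ⟨mem_erase.2 ⟨hyw y hyY, mem_univ y⟩, fun hmem => hn ?_⟩
        -- a common good position
        have hcard : 0 < ((univ.erase w) \ (outK (fun x => c w x - β0) (univ.erase w) H ∪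
            outK (fun x => c w x - β) (univ.erase w) H)).card := by
          have h1 := card_union_le (outK (fun x => c w x - β0) (univ.erase w) H)
            (outK (fun x => c w x - β) (univ.erase w) H)
          have h2 := le_card_sdiff (outK (fun x => c w x - β0) (univ.erase w) H ∪
            outK (fun x => c w x - β) (univ.erase w) H) (univ.erase w)
          omega
        obtain ⟨x, hx⟩ := card_pos.1 hcard
        rw [mem_sdiff, mem_union, not_or, mem_outK, mem_outK] at hx
        have e1 : c w x - β0 ∈ H := by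
          by_contra h; exact hx.2.1 ⟨hx.1, h⟩
        have e2 : c w x - β ∈ H := by
          by_contra h; exact hx.2.2 ⟨hx.1, h⟩
        have e4 : c w y - β = (c w y - β0) - (c w x - β0) + (c w x - β) := by abel
        rw [e4]
        exact H.add_mem (H.sub_mem hmem e1) e2
    · rw [if_neg hm, Nat.le_zero, card_eq_zero, filter_eq_empty_iff]
      intro y _ hb
      obtain ⟨H, β, hi, -, -⟩ := hb
      apply hm
      rw [← hi]
      exact Dvd.intro_left _ (card_mul_index' H)
  have hC : Y ⊆ Y.filter (fun y => BadH 2 0 c w y) ∪ Y.filter (fun y => BadH 3 1 c w y) := by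
    intro y hy
    rw [mem_union, mem_filter, mem_filter]
    rcases hY y hy with h | h
    · exact Or.inl ⟨hy, h⟩
    · exact Or.inr ⟨hy, h⟩
  have h1 := card_le_card hC
  have h2 := card_union_le (Y.filter (fun y => BadH 2 0 c w y)) (Y.filter (fun y => BadH 3 1 c w y))
  unfold q0
  omega

end ZS44129
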