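import Pool.Agent.Work.MP_44129c_co.P1.KnC
import Pool.Agent.Work.MP_44129c_co.P1.SubU

/-!
# MP_44129c_co/P1, ChooseR (size M): the subgroup `R` and its robustness

`exists_R`: PROOF.  Let `H` be the stabiliser `{h | ∀ x ∈ cube d F, x + h ∈ cube d F}` (a subgroup:
closed under negation because the cube is finite), `H ≠ ⊥` by `hper` (unfold `Aper`), and by `out_le`
`((outK d F H).card + 2) * Nat.card H ≤ m`.  Among the subgroups `R ≠ ⊥` with
`((outK d F R).card + 2) * Nat.card R ≤ m` take one of minimal cardinality; this gives the last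
property.  `r = Nat.card R ≥ 2`, `r * k = m`, `(outK d F R).card ≤ k - 2`, `k ≤ m / 2`, so
`inK d F R` has at least `F.card - k + 2 > 0` elements: some `x ∈ F` has `d x ∈ R`, `d x ∉ Jm m`.  If
`r ∣ 6` then `R ≤ Jm m` (`le_Jm`), contradiction.  So `r ∤ 6`: `r ≥ 4`, `r ≠ 6`.

`robust`: PROOF.  `gen_of_count` with `A = ⊥`, `B = R`, `I = inK d F R \ B`, then `gen_small`
(`Nat.card ⊥ = 1`).  Count for `K < R`: if `K = ⊥` then `outK d I ⊥ = I` (`d x ≠ 0` on `F`) and
`hc` is the inequality.  If `K ≠ ⊥`: `κ = [R : K] ≥ 2`, `k = R.index ≥ 1`,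
`Nat.card K * κ = Nat.card R`, `m = k * κ * Nat.card K`.  `hmin K`: `(outK d F K).card + 2 > k κ`;
`hR`: `(outK d F R).card + 2 ≤ k`; `outK d F K` is the disjoint union of `outK d F R` and of
`outK d (inK d F R) K`.  So `(outK d (inK d F R) K).card ≥ k κ - 1 - (k - 2) = k (κ - 1) + 1`, and after
removing the `B.card ≤ k` elements of `B` at least `k (κ - 2) + 1 ≥ κ - 1` are left.
-/

set_option autoImplicit false

namespace ZS44129

open Finset

private def croStab {Γ : Type*} [AddCommGroup Γ] (S : Finset Γ) : AddSubgroup Γ where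
  carrier := {h | ∀ x ∈ S, x + h ∈ S}
  add_mem' {a b} ha hb := by
    intro x hx
    rw [← add_assoc]
    exact hb _ (ha x hx)
  zero_mem' := by
    intro x hx
    rwa [add_zero]
  neg_mem' {a} ha := by
    classical
    intro x hx
    have h1 : S.image (fun y => y + a) ⊆ S := by
      intro z hz
      obtain ⟨y, hy, rfl⟩ := Finset.mem_image.1 hz
      exact ha y hy
    have h2 : S.image (fun y => y + a) = S := by
      apply Finset.eq_of_subset_of_card_le h1
      rw [Finset.card_image_of_injective _ (add_left_injective a)]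
    rw [← h2] at hx
    obtain ⟨y, hy, hyx⟩ := Finset.mem_image.1 hx
    have h3 : x + -a = y := by
      rw [← hyx]
      abel
    rw [h3]
    exact hy

private theorem cro_card_lt {G : Type*} [AddCommGroup G] [Finite G] {K' K : AddSubgroup G}
    (h : K' < K) : Nat.card K' < Nat.card K := by
  have h1 : ((K' : AddSubgroup G) : Set G).ncard < ((K : AddSubgroup G) : Set G).ncard :=
    Set.ncard_lt_ncard (by exact_mod_cast h) (Set.toFinite _)
  exact h1

theorem exists_R {V : Type} [DecidableEq V] {m : ℕ} [NeZero m] (d : V → ZMod m) (F : Finset V)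
    (hF : m + 1 ≤ 2 * F.card) (hJ : ∀ x ∈ F, d x ∉ Jm m) (hne : cube d F ≠ univ)
    (hper : ¬ Aper (cube d F)) :
    ∃ R : AddSubgroup (ZMod m), 4 ≤ Nat.card R ∧ Nat.card R ≠ 6 ∧
      ((outK d F R).card + 2) * Nat.card R ≤ m ∧
      ∀ K : AddSubgroup (ZMod m), K ≠ ⊥ → K < R → m < ((outK d F K).card + 2) * Nat.card K := by
  classical
  set H := croStab (cube d F) with hH
  have hHm : ∀ h : ZMod m, h ∈ H ↔ ∀ x ∈ cube d F, x + h ∈ cube d F := fun h => Iff.rfl
  have hHb : H ≠ ⊥ := by
    intro hb
    apply hper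
    intro h hh
    have h1 : h ∈ H := hh
    rw [hb] at h1
    exact AddSubgroup.mem_bot.1 h1
  have hHc : ((outK d F H).card + 2) * Nat.card H ≤ m := by
    have h1 := out_le d F H hHm hne
    rwa [Nat.card_zmod] at h1
  obtain ⟨R, ⟨hR1, hR2⟩, hmin⟩ :=
    (measure (fun K : AddSubgroup (ZMod m) => Nat.card K)).wf.has_min
      {K | K ≠ ⊥ ∧ ((outK d F K).card + 2) * Nat.card K ≤ m} ⟨H, hHb, hHc⟩
  have hr2 : 1 < Nat.card R := AddSubgroup.one_lt_card_iff_ne_bot R |>.2 hR1
  have hnd : ¬ Nat.card R ∣ 6 := by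
    intro hdv
    have hle := le_Jm R hdv
    have h0 : inK d F R = ∅ := by
      apply Finset.eq_empty_of_forall_notMem
      intro x hx
      exact hJ x (mem_inK.1 hx).1 (hle (mem_inK.1 hx).2)
    have h1 := inK_add_outK d F R
    rw [h0, card_empty, zero_add] at h1
    rw [h1] at hR2
    have h2 : (F.card + 2) * 2 ≤ (F.card + 2) * Nat.card R := Nat.mul_le_mul_left _ hr2
    omega
  refine ⟨R, ?_, ?_, hR2, ?_⟩
  · by_contra hcon
    have h3 : Nat.card R = 2 ∨ Nat.card R = 3 := by omega
    rcases h3 with h3 | h3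
    · exact hnd (by rw [h3]; norm_num)
    · exact hnd (by rw [h3]; norm_num)
  · intro h3
    exact hnd (by rw [h3])
  · intro K hK hKR
    by_contra hcon
    exact hmin K ⟨hK, not_lt.1 hcon⟩ (cro_card_lt hKR)

theorem robust {V : Type} [DecidableEq V] {m : ℕ} [NeZero m] (d : V → ZMod m) (F : Finset V)
    (hd : ∀ x ∈ F, d x ≠ 0) (R : AddSubgroup (ZMod m))
    (hR : ((outK d F R).card + 2) * Nat.card R ≤ m)
    (hmin : ∀ K : AddSubgroup (ZMod m), K ≠ ⊥ → K < R →
      m < ((outK d F K).card + 2) * Nat.card K)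
    (B : Finset V) (hB : B.card ≤ R.index) (hc : Nat.card R ≤ (inK d F R \ B).card + 1) :
    ∃ Q, Q ⊆ inK d F R \ B ∧ Gen d Q ⊥ R ∧ Q.card + 1 ≤ Nat.card R := by
  classical
  have hIR : ∀ i ∈ inK d F R \ B, d i ∈ R := fun i hi => (mem_inK.1 (mem_sdiff.1 hi).1).2
  have hgen : Gen d (inK d F R \ B) ⊥ R := by
    refine gen_of_count d _ ⊥ R bot_le hIR ?_
    intro K _ hKR
    by_cases hK : K = ⊥
    · subst hK
      have h1 : outK d (inK d F R \ B) ⊥ = inK d F R \ B :=
        Subset.antisymm (outK_sub _ _ _) fun i hi => mem_outK.2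
          ⟨hi, fun h => hd i (inK_sub d F R (mem_sdiff.1 hi).1) (AddSubgroup.mem_bot.1 h)⟩
      rw [h1, AddSubgroup.card_bot, one_mul]
      exact hc
    · obtain ⟨κ, hκ⟩ := AddSubgroup.card_dvd_of_le hKR.le
      have hlt := cro_card_lt hKR
      have hKpos : 0 < Nat.card K := Nat.card_pos
      have hRpos : 0 < Nat.card R := Nat.card_pos
      have hidx : R.index ≠ 0 := AddSubgroup.index_ne_zero_of_finite
      have hmR := card_mul_index' R
      have hm1 := hmin K hK hKR
      obtain ⟨κ', rfl⟩ : ∃ κ', κ = κ' + 2 := by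
        refine ⟨κ - 2, ?_⟩
        rcases κ with _ | _ | κ
        · rw [mul_zero] at hκ
          omega
        · rw [zero_add, mul_one] at hκ
          omega
        · omega
      have e1 : (κ' + 2) * R.index < (outK d F K).card + 2 := by
        have h2 : Nat.card K * ((κ' + 2) * R.index) < Nat.card K * ((outK d F K).card + 2) := by
          calc Nat.card K * ((κ' + 2) * R.index) = Nat.card K * (κ' + 2) * R.index := by ring
            _ = m := by rw [← hκ, hmR]
            _ < ((outK d F K).card + 2) * Nat.card K := hm1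
            _ = Nat.card K * ((outK d F K).card + 2) := by ring
        exact Nat.lt_of_mul_lt_mul_left h2
      have e2 : (outK d F R).card + 2 ≤ R.index := by
        have h2 : Nat.card R * ((outK d F R).card + 2) ≤ Nat.card R * R.index := by
          calc Nat.card R * ((outK d F R).card + 2) = ((outK d F R).card + 2) * Nat.card R := by
                ring
            _ ≤ m := hR
            _ = Nat.card R * R.index := hmR.symm
        exact Nat.le_of_mul_le_mul_left h2 hRpos
      have e3 : (outK d F K).card ≤ (outK d F R).card +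
          ((outK d (inK d F R \ B) K).card + B.card) := by
        have h2 : outK d F K ⊆ outK d F R ∪ (outK d (inK d F R \ B) K ∪ B) := by
          intro i hi
          have hi' := mem_outK.1 hi
          by_cases h3 : d i ∈ R
          · by_cases h4 : i ∈ B
            · exact mem_union_right _ (mem_union_right _ h4)
            · exact mem_union_right _ (mem_union_left _ (mem_outK.2
                ⟨mem_sdiff.2 ⟨mem_inK.2 ⟨hi'.1, h3⟩, h4⟩, hi'.2⟩))
          · exact mem_union_left _ (mem_outK.2 ⟨hi'.1, h3⟩)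
        exact (card_le_card h2).trans ((card_union_le _ _).trans
          (Nat.add_le_add_left (card_union_le _ _) _))
      rw [hκ]
      apply Nat.mul_le_mul_left
      have e4 : κ' ≤ κ' * R.index := Nat.le_mul_of_pos_right κ' (Nat.pos_of_ne_zero hidx)
      rw [add_mul] at e1
      omega
  obtain ⟨J, hJ, hJg, hJc⟩ := gen_small d (inK d F R \ B) ⊥ R bot_le hIR hgen
  refine ⟨J, hJ, hJg, ?_⟩
  rwa [AddSubgroup.card_bot, mul_one] at hJc

end ZS44129
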