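import Pool.Agent.Work.MP_44129c_co.P1.KnC

/-!
# MP_44129c_co/P1, CjA (size M): subset sums inside a small subgroup `J`

`J` a subgroup of `ZMod m` of order `j` (`j * (j - 2) < m + j - 2`, i.e. `j * j < m + 3 * j - 2`),
`S` a set of at least `m + j - 2` places with values `v z` in one coset `β + J`, `τ ∈ β + J`, and no
`(m - 1)`-subset `Y` of `S` has `τ + ∑ z ∈ Y, v z = 0`.

PROOF.  Let `v₀` be a value of `v` on `S` of largest multiplicity `μ`; `v` takes at most `j` values on
`S`, so `j * μ ≥ m + j - 2 > j (j - 2)`, hence `μ ≥ j - 1`.  `δ z = v z - v₀ ∈ J`, `e = τ - v₀ ∈ J`.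
For `Y ⊆ S` with `Y.card = m - 1`: `τ + ∑_Y v = τ + (m - 1) • v₀ + ∑_Y δ = e + ∑_Y δ` (`m • v₀ = 0`).
So `∑_Y δ ≠ -e` for all these `Y`.
(1) `-e ∉ cube δ S`.  Suppose `-e = ∑_T δ`, `T ⊆ S` of minimal cardinality.  No nonempty `T' ⊆ T` has
`∑_{T'} δ = 0` (otherwise remove it), in particular `δ ≠ 0` on `T`, and `T.card ≤ j - 1`: (any `j`
elements of the group `J` of order `j` have a nonempty subset with sum zero: the `j + 1` initial sums
are not distinct).  Let `Z₀ = {z ∈ S | δ z = 0}` (`μ` elements, disjoint from `T`).  From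
`S \ T \ Z₀` remove one after the other nonempty subsets of size `≤ j` with sum zero, as long as there
are `≥ j` elements left: blocks `B₁, …, B_l` and at most `j - 1` remaining elements.  So the number of
elements in `Z₀` and the blocks is at least `m + j - 2 - T.card - (j - 1) = m - 1 - T.card`.  Take the
largest `p` with `B₁, …, B_p` of total size `L ≤ m - 1 - T.card`; then the number
`m - 1 - T.card - L` of missing elements is at most `μ` (if `p = l` by the count; if `p < l` it is
`< B_{p+1}.card ≤ j`, so `≤ j - 1 ≤ μ`).  `Y = T ∪ B₁ ∪ … ∪ B_p ∪ (that many elements of Z₀)` has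
`m - 1` elements and `∑_Y δ = -e`: contradiction.  (In Lean: prove by strong induction on the size of
`R`: for `R ⊆ S \ T \ Z₀` and every `M ≤ R.card + μ - (j - 1)` there is `Y ⊆ R ∪ Z₀` with `Y.card = M`,
`∑_Y δ = 0`; if `R.card ≤ j - 1`, or `M ≤ μ`, take `Y ⊆ Z₀`; otherwise take a block `B ⊆ R`,
`1 ≤ B.card ≤ j`, and apply induction to `R \ B` and `M - B.card` (`M > μ ≥ j - 1`, so
`B.card ≤ M`).)
(2) Let `H` be the stabiliser of `cube δ S` (a subset of `J` because `0 ∈ cube δ S ⊆ J`).  Work in the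
group `J` (or apply `out_le` for the family `δ` considered as a family with values in `J`, type
`↥J`): `cube ≠ J` by (1), so `((outK δ S H).card + 2) * Nat.card H ≤ Nat.card J`; `H ≤ J` and
`H ≠ J` because `(… + 2) * Nat.card H ≤ Nat.card J`; `e ∉ H`: otherwise `-e ∈ H ⊆ cube δ S`
(`0 + (-e)`).
-/

set_option autoImplicit false

namespace ZS44129

open Finset

private theorem cj_cardJ {m : ℕ} [NeZero m] (J : AddSubgroup (ZMod m)) (β : ZMod m) :
    ∃ t : Finset (ZMod m), (∀ x, x ∈ t ↔ x - β ∈ J) ∧ t.card = Nat.card J := by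
  classical
  refine ⟨Finset.univ.filter (fun x => x - β ∈ J), fun x => by simp, ?_⟩
  have h1 : (Finset.univ.filter (fun x : ZMod m => x - β ∈ J))
      = (Finset.univ.filter (fun x : ZMod m => x ∈ J)).image (fun x => x + β) := by
    ext x
    simp only [Finset.mem_filter, Finset.mem_univ, true_and, Finset.mem_image]
    constructor
    · intro h
      exact ⟨x - β, h, by abel⟩
    · rintro ⟨y, hy, rfl⟩
      simpa using hy
  rw [h1, Finset.card_image_of_injective _ (add_left_injective β), Nat.card_eq_fintype_card,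
    Fintype.card_subtype]

private theorem cj_block {V : Type} [DecidableEq V] {m : ℕ} [NeZero m] (J : AddSubgroup (ZMod m))
    (f : V → ZMod m) (R : Finset V) (hR : ∀ z ∈ R, f z ∈ J) (hc : Nat.card J ≤ R.card) :
    ∃ B, B ⊆ R ∧ B.Nonempty ∧ B.card ≤ Nat.card J ∧ ∑ z ∈ B, f z = 0 := by
  classical
  obtain ⟨R', hR', hRc⟩ := Finset.exists_subset_card_eq hc
  obtain ⟨e⟩ : Nonempty (Fin (Nat.card J) ≃ R') :=
    ⟨(Fintype.equivFinOfCardEq (by rw [Fintype.card_coe, hRc])).symm⟩
  let p : ℕ → Finset V := fun k =>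
    (Finset.univ.filter (fun i : Fin (Nat.card J) => (i : ℕ) < k)).image (fun i => (e i : V))
  have hp : ∀ k, p k ⊆ R' := by
    intro k x hx
    obtain ⟨i, _, rfl⟩ := Finset.mem_image.1 hx
    exact (e i).2
  have hmono : ∀ k l, k ≤ l → p k ⊆ p l := by
    intro k l hkl
    apply Finset.image_subset_image
    intro i hi
    rw [Finset.mem_filter] at hi ⊢
    exact ⟨hi.1, lt_of_lt_of_le hi.2 hkl⟩
  obtain ⟨t, ht, htc⟩ := cj_cardJ J 0
  have hmaps : ∀ k ∈ Finset.range (Nat.card J + 1), ∑ z ∈ p k, f z ∈ t := by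
    intro k _
    rw [ht, sub_zero]
    exact AddSubgroup.sum_mem _ (fun z hz => hR z (hR' (hp k hz)))
  obtain ⟨k, hk, l, hl, hkl, heq⟩ := Finset.exists_ne_map_eq_of_card_lt_of_maps_to
    (by rw [htc, Finset.card_range]; omega) hmaps
  have key : ∀ k l, k < l → l < Nat.card J + 1 → ∑ z ∈ p k, f z = ∑ z ∈ p l, f z →
      ∃ B, B ⊆ R ∧ B.Nonempty ∧ B.card ≤ Nat.card J ∧ ∑ z ∈ B, f z = 0 := by
    intro k l hkl hl heq
    refine ⟨p l \ p k, fun x hx => hR' (hp l (Finset.mem_sdiff.1 hx).1), ?_, ?_, ?_⟩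
    · refine ⟨(e ⟨k, by omega⟩ : V), Finset.mem_sdiff.2 ⟨?_, ?_⟩⟩
      · exact Finset.mem_image.2 ⟨⟨k, by omega⟩, by simpa using hkl, rfl⟩
      · intro hcon
        obtain ⟨i, hi, hie⟩ := Finset.mem_image.1 hcon
        have h1 : i = ⟨k, by omega⟩ := e.injective (Subtype.ext hie)
        rw [Finset.mem_filter, h1] at hi
        exact lt_irrefl _ hi.2
    · rw [← hRc]
      exact Finset.card_le_card (fun x hx => hp l (Finset.mem_sdiff.1 hx).1)
    · have h1 := Finset.sum_sdiff (f := f) (hmono k l hkl.le)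
      rw [heq] at h1
      exact add_eq_right.1 h1
  rcases lt_or_gt_of_ne hkl with h | h
  · exact key k l h (Finset.mem_range.1 hl) heq
  · exact key l k h (Finset.mem_range.1 hk) heq.symm

private theorem cj_fill {V : Type} [DecidableEq V] {m : ℕ} [NeZero m] (J : AddSubgroup (ZMod m))
    (f : V → ZMod m) (Z : Finset V) (hZ : ∀ z ∈ Z, f z = 0) (hμ : Nat.card J ≤ Z.card + 1) :
    ∀ (n : ℕ) (R : Finset V), R.card = n → (∀ z ∈ R, f z ∈ J) → Disjoint R Z →
      ∀ M : ℕ, M + Nat.card J ≤ R.card + Z.card + 1 →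
      ∃ Y, Y ⊆ R ∪ Z ∧ Y.card = M ∧ ∑ z ∈ Y, f z = 0 := by
  intro n
  induction n using Nat.strong_induction_on with
  | _ n ih =>
    intro R hn hR hdis M hM
    by_cases h1 : M ≤ Z.card
    · obtain ⟨Y, hY, hYc⟩ := Finset.exists_subset_card_eq h1
      exact ⟨Y, fun x hx => Finset.mem_union_right _ (hY hx), hYc,
        Finset.sum_eq_zero (fun z hz => hZ z (hY hz))⟩
    · obtain ⟨B, hB, hBn, hBc, hBs⟩ := cj_block J f R hR (by omega)
      have hBp := hBn.card_pos
      have hBR := Finset.card_le_card hB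
      have hc := Finset.card_sdiff_of_subset hB
      obtain ⟨Y, hY, hYc, hYs⟩ := ih (R \ B).card (by omega) (R \ B) rfl
        (fun z hz => hR z (Finset.mem_sdiff.1 hz).1)
        (Finset.disjoint_of_subset_left Finset.sdiff_subset hdis) (M - B.card) (by omega)
      have hd : Disjoint Y B := by
        rw [Finset.disjoint_left]
        intro x hx hxB
        rcases Finset.mem_union.1 (hY hx) with h | h
        · exact (Finset.mem_sdiff.1 h).2 hxB
        · exact Finset.disjoint_left.1 hdis (hB hxB) h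
      refine ⟨Y ∪ B, ?_, ?_, ?_⟩
      · intro x hx
        rcases Finset.mem_union.1 hx with h | h
        · rcases Finset.mem_union.1 (hY h) with h | h
          · exact Finset.mem_union_left _ (Finset.mem_sdiff.1 h).1
          · exact Finset.mem_union_right _ h
        · exact Finset.mem_union_left _ (hB h)
      · rw [Finset.card_union_of_disjoint hd, hYc]
        omega
      · rw [Finset.sum_union hd, hYs, hBs, add_zero]

/-- the stabiliser of a finite set. -/
private theorem cj_stab {G : Type*} [AddCommGroup G] [DecidableEq G] (C : Finset G) :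
    ∃ H : AddSubgroup G, ∀ h : G, h ∈ H ↔ ∀ x ∈ C, x + h ∈ C := by
  have hneg : ∀ h : G, (∀ x ∈ C, x + h ∈ C) → ∀ x ∈ C, x + -h ∈ C := by
    intro h hh x hx
    have himg : C.image (fun y => y + h) = C := by
      apply Finset.eq_of_subset_of_card_le
      · intro y hy
        obtain ⟨z, hz, rfl⟩ := Finset.mem_image.1 hy
        exact hh z hz
      · rw [Finset.card_image_of_injective _ (add_left_injective h)]
    rw [← himg] at hx
    obtain ⟨z, hz, hzx⟩ := Finset.mem_image.1 hx
    rw [← hzx]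
    simpa using hz
  exact ⟨{ carrier := {h | ∀ x ∈ C, x + h ∈ C}
           add_mem' := fun {a b} ha hb x hx => by
            rw [← add_assoc]; exact hb _ (ha x hx)
           zero_mem' := fun x hx => by simpa using hx
           neg_mem' := fun {a} ha => hneg a ha }, fun h => Iff.rfl⟩

theorem cj_pure {V : Type} [DecidableEq V] {m : ℕ} [NeZero m] (J : AddSubgroup (ZMod m))
    (hj : Nat.card J * Nat.card J + 2 < m + 3 * Nat.card J) (β : ZMod m) (S : Finset V)
    (hS : m + Nat.card J ≤ S.card + 2) (v : V → ZMod m) (hv : ∀ z ∈ S, v z - β ∈ J)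
    (τ : ZMod m) (hτ : τ - β ∈ J)
    (hno : ∀ Y, Y ⊆ S → Y.card + 1 = m → τ + ∑ z ∈ Y, v z ≠ 0) :
    ∃ (H : AddSubgroup (ZMod m)) (v₀ : ZMod m), H < J ∧ v₀ - β ∈ J ∧ τ - v₀ ∉ H ∧
      ((outK (fun z => v z - v₀) S H).card + 2) * Nat.card H ≤ Nat.card J := by
  classical
  have hm : 1 ≤ m := Nat.one_le_iff_ne_zero.2 (NeZero.ne m)
  have hj1 : 1 ≤ Nat.card J := Nat.card_pos
  have hjm : Nat.card J ≤ m := by
    have h1 := AddSubgroup.card_addSubgroup_dvd_card J
    rw [Nat.card_zmod] at h1
    exact Nat.le_of_dvd hm h1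
  have hSne : 0 < S.card := by
    by_contra hcon
    have h0 : S.card = 0 := by omega
    have hm1 : m = 1 := by omega
    subst hm1
    exact hno ∅ (Finset.empty_subset _) (by simp) (Subsingleton.elim _ _)
  obtain ⟨t, ht, htc⟩ := cj_cardJ J β
  obtain ⟨v₀, hv₀t, hμ'⟩ := Finset.exists_lt_card_fiber_of_mul_lt_card_of_maps_to
    (s := S) (t := t) (f := v) (n := Nat.card J - 2) (fun z hz => (ht _).2 (hv z hz)) (by
      rw [htc]
      rcases Nat.lt_or_ge (Nat.card J) 2 with h | h
      · have : Nat.card J - 2 = 0 := by omega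
        rw [this, mul_zero]; exact hSne
      · obtain ⟨k, hk⟩ := Nat.exists_eq_add_of_le h
        rw [hk] at hj hS ⊢
        have e1 : 2 + k - 2 = k := by omega
        rw [e1]
        nlinarith)
  have hv₀ := (ht _).1 hv₀t
  set Z : Finset V := S.filter (fun z => v z = v₀) with hZdef
  have hμ : Nat.card J ≤ Z.card + 1 := by
    have : Nat.card J - 2 < Z.card := hμ'
    omega
  set δ : V → ZMod m := fun z => v z - v₀ with hδ
  have hδJ : ∀ z ∈ S, δ z ∈ J := by
    intro z hz
    have : δ z = (v z - β) - (v₀ - β) := by simp only [hδ]; abel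
    rw [this]
    exact J.sub_mem (hv z hz) hv₀
  set e := τ - v₀ with he
  have heJ : e ∈ J := by
    have : e = (τ - β) - (v₀ - β) := by rw [he]; abel
    rw [this]
    exact J.sub_mem hτ hv₀
  have hZ0 : ∀ z ∈ Z, δ z = 0 := by
    intro z hz
    simp only [hδ, (Finset.mem_filter.1 hz).2, sub_self]
  have hnot : -e ∉ cube δ S := by
    intro hmem
    obtain ⟨T0, hT0, hT0s⟩ := mem_cube.1 hmem
    obtain ⟨T, hT, hTmin⟩ := Finset.exists_min_image
      (S.powerset.filter (fun T => ∑ i ∈ T, δ i = -e)) (fun T => T.card)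
      ⟨T0, Finset.mem_filter.2 ⟨Finset.mem_powerset.2 hT0, hT0s⟩⟩
    rw [Finset.mem_filter, Finset.mem_powerset] at hT
    obtain ⟨hTS, hTs⟩ := hT
    have hTno : ∀ T', T' ⊆ T → T'.Nonempty → ∑ i ∈ T', δ i ≠ 0 := by
      intro T' hT' hne h0
      have h1 := Finset.sum_sdiff (f := δ) hT'
      rw [h0, add_zero] at h1
      have h2 := hTmin (T \ T') (Finset.mem_filter.2 ⟨Finset.mem_powerset.2
        (Finset.sdiff_subset.trans hTS), by rw [h1, hTs]⟩)
      rw [Finset.card_sdiff_of_subset hT'] at h2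
      have h3 := hne.card_pos
      have h4 := Finset.card_le_card hT'
      omega
    have hTc : T.card < Nat.card J := by
      by_contra hcon
      obtain ⟨B, hB, hBn, _, hBs⟩ := cj_block J δ T (fun z hz => hδJ z (hTS hz)) (by omega)
      exact hTno B hB hBn hBs
    have hTZ : Disjoint T Z := by
      rw [Finset.disjoint_left]
      intro x hx hxZ
      exact hTno {x} (Finset.singleton_subset_iff.2 hx) (Finset.singleton_nonempty x)
        (by rw [Finset.sum_singleton]; exact hZ0 x hxZ)
    have hTZs : T ∪ Z ⊆ S := Finset.union_subset hTS (Finset.filter_subset _ _)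
    have hRc := Finset.card_sdiff_of_subset hTZs
    have hTZc := Finset.card_le_card hTZs
    rw [Finset.card_union_of_disjoint hTZ] at hRc hTZc
    obtain ⟨Y, hY, hYc, hYs⟩ := cj_fill J δ Z hZ0 hμ (S \ (T ∪ Z)).card (S \ (T ∪ Z)) rfl
      (fun z hz => hδJ z (Finset.mem_sdiff.1 hz).1)
      (by
        rw [Finset.disjoint_left]
        intro x hx hxZ
        exact (Finset.mem_sdiff.1 hx).2 (Finset.mem_union_right _ hxZ))
      (m - 1 - T.card) (by omega)
    have hYT : Disjoint Y T := by
      rw [Finset.disjoint_left]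
      intro x hx hxT
      rcases Finset.mem_union.1 (hY hx) with h | h
      · exact (Finset.mem_sdiff.1 h).2 (Finset.mem_union_left _ hxT)
      · exact Finset.disjoint_left.1 hTZ hxT h
    have hYTc : (Y ∪ T).card + 1 = m := by
      rw [Finset.card_union_of_disjoint hYT, hYc]
      omega
    apply hno (Y ∪ T) _ hYTc
    · have h1 : ∑ z ∈ Y ∪ T, v z = ∑ z ∈ Y ∪ T, δ z + ((Y ∪ T).card : ZMod m) * v₀ := by
        rw [← nsmul_eq_mul, ← Finset.sum_const, ← Finset.sum_add_distrib]
        apply Finset.sum_congr rfl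
        intro z _
        simp only [hδ]
        abel
      have h2 : ((Y ∪ T).card : ZMod m) + 1 = 0 := by
        have := congrArg (fun n : ℕ => (n : ZMod m)) hYTc
        push_cast at this
        rw [this]
        exact ZMod.natCast_self m
      rw [h1, Finset.sum_union hYT, hYs, hTs, eq_neg_of_add_eq_zero_left h2, he]
      ring
    · intro x hx
      rcases Finset.mem_union.1 hx with h | h
      · rcases Finset.mem_union.1 (hY h) with h | h
        · exact (Finset.mem_sdiff.1 h).1
        · exact Finset.filter_subset _ _ h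
      · exact hTS h
  -- the group `J`
  let δ' : V → J := fun z => if h : δ z ∈ J then ⟨δ z, h⟩ else 0
  have hδ' : ∀ z ∈ S, ((δ' z : J) : ZMod m) = δ z := by
    intro z hz
    simp only [δ', dif_pos (hδJ z hz)]
  have hcube : ∀ x : J, x ∈ cube δ' S → (x : ZMod m) ∈ cube δ S := by
    intro x hx
    obtain ⟨T, hT, rfl⟩ := mem_cube.1 hx
    refine mem_cube.2 ⟨T, hT, ?_⟩
    rw [AddSubgroup.val_finsetSum]
    exact Finset.sum_congr rfl (fun z hz => (hδ' z (hT hz)).symm)
  obtain ⟨H', hH'⟩ := cj_stab (cube δ' S)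
  have hne : cube δ' S ≠ Finset.univ := by
    intro hcon
    apply hnot
    have := hcube ⟨-e, J.neg_mem heJ⟩ (by rw [hcon]; exact Finset.mem_univ _)
    exact this
  have hout := out_le δ' S H' hH' hne
  have hinj : Function.Injective J.subtype := J.subtype_injective
  have hcard : Nat.card (H'.map J.subtype) = Nat.card H' :=
    (Nat.card_congr (H'.equivMapOfInjective J.subtype hinj).toEquiv).symm
  have hmemH : ∀ x : J, (x : ZMod m) ∈ H'.map J.subtype ↔ x ∈ H' := by
    intro x
    constructor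
    · rintro ⟨y, hy, hyx⟩
      have : y = x := hinj hyx
      rwa [← this]
    · intro hx
      exact ⟨x, hx, rfl⟩
  have hHpos : 1 ≤ Nat.card H' := Nat.card_pos
  refine ⟨H'.map J.subtype, v₀, ?_, hv₀, ?_, ?_⟩
  · refine lt_of_le_of_ne ?_ ?_
    · rintro x ⟨y, _, rfl⟩
      exact y.2
    · intro hcon
      rw [hcon] at hcard
      rw [← hcard] at hout hHpos
      nlinarith
  · intro hcon
    have h1 : (⟨e, heJ⟩ : J) ∈ H' := (hmemH ⟨e, heJ⟩).1 hcon
    have h2 := (hH' _).1 (H'.neg_mem h1) 0 (zero_mem_cube δ' S)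
    apply hnot
    have h3 := hcube _ h2
    simpa using h3
  · rw [hcard]
    have h1 : outK (fun z => v z - v₀) S (H'.map J.subtype) = outK δ' S H' := by
      ext z
      rw [mem_outK, mem_outK]
      constructor
      · rintro ⟨hz, h⟩
        refine ⟨hz, fun hc => h ?_⟩
        have := (hmemH _).2 hc
        rw [hδ' z hz] at this
        exact this
      · rintro ⟨hz, h⟩
        refine ⟨hz, fun hc => h ?_⟩
        rw [← hmemH, hδ' z hz]
        exact hc
    rw [h1]
    exact hout

end ZS44129
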