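import Pool.Agent.Work.MP_44129c_co.P1.CjA
import Pool.Agent.Work.MP_44129c_co.P1.SubU

/-!
# MP_44129c_co/P1, CjB (size M): Lemma 3

`J = Jm m`, `j = Nat.card J = gcd 6 m ∈ {1, 2, 3, 6}`, `A = inK (fun x => c w x - β) (univ.erase w) J`
(the `J`-class `β + J` of `w`), `B` = the other vertices `≠ w`.

PROOF.  Call `x ∈ A` weak if `s + 1 > j + #{z ≠ w | c w z - β ∉ J, c x z - β ∉ J}` i.e.
`j + #{…} ≤ s` (`#{…}` are the `z ∈ B` with `c x z ∉ β + J`; `z ≠ x` as `x ∈ A`).  We show that the set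
`S` of the weak `x` has at most `j - 1` elements.
(1) Let `x` be weak.  `S' = {z ≠ w, x | z ∈ A or c x z - β ∈ J}` has at least
`(m + s - 2) - (s - j) = m + j - 2` elements; `v z = c w z` for `z ∈ A`, `v z = c x z` otherwise; all
`v z ∈ β + J`; `τ = c w x ∈ β + J`.  For `Y ⊆ S'` with `m - 1` elements the double star with centre
edge `w x`, leaves `Y ∩ A` at `w` and `Y \ A` at `x` shows `τ + ∑_Y v ≠ 0` (`hz`).  `cj_pure`
(`j * j + 2 < m + 3 * j`: `j = 1`: `3 < m + 3`; `j = 2`: `6 < m + 6`; `j = 3`: `11 < m + 9` as `3 ∣ m`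
and `m ≥ 3`; `j = 6`: `38 < m + 18` from `24 ≤ m`) gives `H < J`, `v₀` with `c w x - v₀ ∉ H` and
`((outK (fun z => v z - v₀) S' H).card + 2) * Nat.card H ≤ j`.  All `z ∈ A`, `z ≠ x` are in `S'` with
`v z = c w z`.  So with `i = j / Nat.card H` (`≥ 2`) and `C = v₀ + H`:
(P) `#{z ∈ A | c w z ∉ C} ≤ i - 1`, and `x` is one of these `z`.
(2) `H < J` has order `1` (`H = ⊥`), or (if `j = 6`) order 2 or 3.  Two pairs `(H, C)`, `(H, C')` with
(P) and the same `H` have `C = C'`: otherwise `C ∩ C' = ∅` and `A.card ≤ 2 (i - 1) ≤ 2 (j - 1)`.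
* `j = 1`: `H < J = ⊥` impossible: no weak `x`.
* `j = 2, 3` (prime): `H = ⊥`, all weak `x` are in the same set `{z ∈ A | c w z ∉ C}`, with at most
  `j - 1` elements.
* `j = 6`.  If some weak `x` has `H = ⊥`, `C₀ = {v₀}`: every other pair `(H, C)` with (P) satisfies
  `C₀ ⊆ C` (otherwise `v₀ ∉ C` and all `z ∈ A` with `c w z = v₀`, at least `A.card - 5` of them, are
  among the at most `i - 1 ≤ 5` elements of `A` outside `C`: `A.card ≤ 10`, contradiction), so all weak
  `x` are in `{z ∈ A | c w z ≠ v₀}`, at most 5 elements.  If no weak `x` has `H = ⊥`: `Nat.card H = 2`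
  (`i = 3`, at most 2 weak `x`) or `Nat.card H = 3` (`i = 2`, at most one): at most `3 ≤ j - 1`
  (`sub_unique`: one `H` for each order).
-/

set_option autoImplicit false

namespace ZS44129

open Finset

/-- the pairs `(H, v₀)` with few exceptions -/
private def cjPr {V : Type} {m : ℕ} (f : V → ZMod m) (A : Finset V) (j : ℕ)
    (H : AddSubgroup (ZMod m)) (v₀ : ZMod m) : Prop :=
  ((outK (fun z => f z - v₀) A H).card + 1) * Nat.card H ≤ j

private theorem cj_card {V : Type} {m : ℕ} [NeZero m] {f : V → ZMod m} {A : Finset V} {j : ℕ}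
    {H : AddSubgroup (ZMod m)} {v₀ : ZMod m} (h : cjPr f A j H v₀) :
    (outK (fun z => f z - v₀) A H).card + 1 ≤ j :=
  le_trans (Nat.le_mul_of_pos_right _ Nat.card_pos) h

private theorem cj_sub {V : Type} [DecidableEq V] {m : ℕ} [NeZero m] {f : V → ZMod m}
    {A : Finset V} {j : ℕ} (hA : 2 * j < A.card + 2) {H H' : AddSubgroup (ZMod m)}
    {v₀ v₁ : ZMod m} (h : cjPr f A j H v₀) (h' : cjPr f A j H' v₁) (hle : H ≤ H') :
    outK (fun z => f z - v₁) A H' ⊆ outK (fun z => f z - v₀) A H := by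
  have c1 := cj_card h
  have c2 := cj_card h'
  -- a common element of the two cosets
  obtain ⟨z, hzA, hz1, hz2⟩ : ∃ z ∈ A, z ∉ outK (fun z => f z - v₀) A H ∧
      z ∉ outK (fun z => f z - v₁) A H' := by
    by_contra hcon
    push Not at hcon
    have hsub : A ⊆ outK (fun z => f z - v₀) A H ∪ outK (fun z => f z - v₁) A H' := by
      intro z hz
      by_cases h1 : z ∈ outK (fun z => f z - v₀) A H
      · exact mem_union_left _ h1
      · exact mem_union_right _ (hcon z hz h1)
    have h3 := card_le_card hsub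
    have h4 := card_union_le (outK (fun z => f z - v₀) A H) (outK (fun z => f z - v₁) A H')
    omega
  have e1 : f z - v₀ ∈ H := by
    by_contra hn
    exact hz1 (mem_outK.2 ⟨hzA, hn⟩)
  have e2 : f z - v₁ ∈ H' := by
    by_contra hn
    exact hz2 (mem_outK.2 ⟨hzA, hn⟩)
  have e3 : v₀ - v₁ ∈ H' := by
    have := H'.sub_mem e2 (hle e1)
    have e : f z - v₁ - (f z - v₀) = v₀ - v₁ := by ring
    rwa [e] at this
  intro y hy
  obtain ⟨hyA, hy1⟩ := mem_outK.1 hy
  refine mem_outK.2 ⟨hyA, fun hn => hy1 ?_⟩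
  have := H'.add_mem (hle hn) e3
  have e : f y - v₀ + (v₀ - v₁) = f y - v₁ := by ring
  rwa [e] at this

private theorem cj_comb {V : Type} [DecidableEq V] {m : ℕ} [NeZero m] {f : V → ZMod m}
    {A S : Finset V} (hA : 2 * Nat.card (Jm m) < A.card + 2)
    (hS : ∀ x ∈ S, ∃ (H : AddSubgroup (ZMod m)) (v₀ : ZMod m), H < Jm m ∧
      x ∈ outK (fun z => f z - v₀) A H ∧ cjPr f A (Nat.card (Jm m)) H v₀) :
    S.card + 1 ≤ Nat.card (Jm m) := by
  have hjpos : 0 < Nat.card (Jm m) := Nat.card_pos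
  by_cases h1 : ∃ (H : AddSubgroup (ZMod m)) (v₀ : ZMod m), Nat.card H = 1 ∧
      cjPr f A (Nat.card (Jm m)) H v₀
  · obtain ⟨H, v₀, hH, hP⟩ := h1
    have hbot : H = ⊥ := AddSubgroup.eq_bot_of_card_eq H hH
    have hsub : S ⊆ outK (fun z => f z - v₀) A H := by
      intro x hx
      obtain ⟨H', v₁, -, hx1, hP'⟩ := hS x hx
      exact cj_sub hA hP hP' (by rw [hbot]; exact bot_le) hx1
    have h3 := card_le_card hsub
    have h4 := cj_card hP
    omega
  · push Not at h1
    rcases S.eq_empty_or_nonempty with hS0 | ⟨x0, hx0⟩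
    · rw [hS0, card_empty]
      omega
    -- orders of the subgroups
    have hord : ∀ H : AddSubgroup (ZMod m), H < Jm m → Nat.card H ≠ 1 →
        Nat.card (Jm m) = 6 ∧ (Nat.card H = 2 ∨ Nat.card H = 3) := by
      intro H hH h2
      have hdvd : Nat.card H ∣ Nat.card (Jm m) := AddSubgroup.card_dvd_of_le hH.le
      have hne : Nat.card H ≠ Nat.card (Jm m) := by
        intro he
        exact hH.ne (AddSubgroup.eq_of_le_of_card_ge hH.le he.ge)
      have hpos : 0 < Nat.card H := Nat.card_pos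
      have h6 : Nat.card (Jm m) ∣ 6 := by
        rw [card_Jm]
        exact Nat.gcd_dvd_left 6 m
      have h7 : Nat.card (Jm m) ≤ 6 := Nat.le_of_dvd (by norm_num) h6
      have h8 : Nat.card H ≤ Nat.card (Jm m) := Nat.le_of_dvd hjpos hdvd
      generalize Nat.card (Jm m) = j at *
      generalize Nat.card H = k at *
      interval_cases j <;> interval_cases k <;> simp_all
    have h6 : Nat.card (Jm m) = 6 := by
      obtain ⟨H, v₀, hH, -, hP⟩ := hS x0 hx0
      exact (hord H hH fun hc => h1 H v₀ hc hP).1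
    have hU : ∀ k : ℕ, k ≤ 6 → ∃ U : Finset V, (U.card + 1) * k ≤ 6 ∧ ∀ x ∈ S,
        ∀ (H : AddSubgroup (ZMod m)) (v₀ : ZMod m), Nat.card H = k →
          x ∈ outK (fun z => f z - v₀) A H → cjPr f A (Nat.card (Jm m)) H v₀ → x ∈ U := by
      intro k hk
      by_cases h2 : ∃ (H : AddSubgroup (ZMod m)) (v₀ : ZMod m), Nat.card H = k ∧
          cjPr f A (Nat.card (Jm m)) H v₀
      · obtain ⟨H, v₀, hH, hP⟩ := h2
        refine ⟨outK (fun z => f z - v₀) A H, ?_, ?_⟩
        · have h3 : ((outK (fun z => f z - v₀) A H).card + 1) * Nat.card H ≤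
              Nat.card (Jm m) := hP
          rw [hH, h6] at h3
          exact h3
        · intro x _ H' v₁ hH' hx hP'
          have he : H = H' := sub_unique H H' (hH.trans hH'.symm)
          exact cj_sub hA hP hP' (by rw [he]) hx
      · refine ⟨∅, by rw [card_empty]; omega, ?_⟩
        intro x _ H v₀ hH _ hP
        exact absurd ⟨H, v₀, hH, hP⟩ h2
    obtain ⟨U2, hU2, hU2'⟩ := hU 2 (by norm_num)
    obtain ⟨U3, hU3, hU3'⟩ := hU 3 (by norm_num)
    have hsub : S ⊆ U2 ∪ U3 := by
      intro x hx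
      obtain ⟨H, v₀, hH, hx1, hP⟩ := hS x hx
      rcases (hord H hH fun hc => h1 H v₀ hc hP).2 with h2 | h2
      · exact mem_union_left _ (hU2' x hx H v₀ h2 hx1 hP)
      · exact mem_union_right _ (hU3' x hx H v₀ h2 hx1 hP)
    have h3 := card_le_card hsub
    have h4 := card_union_le U2 U3
    omega

theorem cj {V : Type} [Fintype V] [DecidableEq V] {m s : ℕ} [NeZero m]
    (hV : Fintype.card V = m + s) (c : V → V → ZMod m)
    (hz : ZSF m c) (h6 : 6 ∣ m → 24 ≤ m) (w : V) (β : ZMod m)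
    (hA : 2 * Nat.card (Jm m) < (inK (fun x => c w x - β) (univ.erase w) (Jm m)).card + 2) :
    ∃ S : Finset V, S.card + 1 ≤ Nat.card (Jm m) ∧
      ∀ x ∈ inK (fun x => c w x - β) (univ.erase w) (Jm m), x ∉ S →
        s + 1 ≤ Nat.card (Jm m) +
          (outK (fun z => c x z - β) (outK (fun z => c w z - β) (univ.erase w) (Jm m))
            (Jm m)).card := by
  classical
  set A := inK (fun x => c w x - β) (univ.erase w) (Jm m) with hAdef
  set B := outK (fun z => c w z - β) (univ.erase w) (Jm m) with hBdef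
  have hjj : Nat.card (Jm m) * Nat.card (Jm m) + 2 < m + 3 * Nat.card (Jm m) := by
    have hm : 0 < m := Nat.pos_of_ne_zero (NeZero.ne m)
    have h6' : Nat.card (Jm m) ∣ 6 := by
      rw [card_Jm]
      exact Nat.gcd_dvd_left 6 m
    have hm' : Nat.card (Jm m) ∣ m := by
      rw [card_Jm]
      exact Nat.gcd_dvd_right 6 m
    have h7 : Nat.card (Jm m) ≤ 6 := Nat.le_of_dvd (by norm_num) h6'
    generalize Nat.card (Jm m) = j at *
    interval_cases j
    · omega
    · omega
    · omega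
    · have := Nat.le_of_dvd hm hm'
      omega
    · omega
    · omega
    · have := h6 hm'
      omega
  refine ⟨A.filter (fun x => Nat.card (Jm m) + (outK (fun z => c x z - β) B (Jm m)).card ≤ s),
    ?_, ?_⟩
  · refine cj_comb (f := fun x => c w x) hA fun x hx => ?_
    obtain ⟨hxA, hxw⟩ := mem_filter.1 hx
    obtain ⟨hxe, hxJ⟩ := mem_inK.1 hxA
    have hxne : x ≠ w := (mem_erase.1 hxe).1
    set Bx := outK (fun z => c x z - β) B (Jm m) with hBx
    -- the places
    have hxX : x ∈ univ.erase w := hxe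
    have hBxsub : Bx ⊆ (univ.erase w).erase x := by
      intro z hz
      obtain ⟨hzB, -⟩ := mem_outK.1 hz
      obtain ⟨hze, hzJ⟩ := mem_outK.1 hzB
      refine mem_erase.2 ⟨?_, hze⟩
      rintro rfl
      exact hzJ hxJ
    have hScard : (((univ.erase w).erase x) \ Bx).card + Bx.card + 2 = m + s := by
      have h1 := card_sdiff_add_card_eq_card hBxsub
      have h2 := card_erase_add_one hxX
      have h3 := card_erase_add_one (mem_univ w)
      rw [card_univ, hV] at h3
      omega
    obtain ⟨H, v₀, hH, -, hτ, hout⟩ := cj_pure (Jm m) hjj β (((univ.erase w).erase x) \ Bx)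
      (by omega) (fun z => if z ∈ A then c w z else c x z) (by
        intro z hz
        obtain ⟨hz1, hz2⟩ := mem_sdiff.1 hz
        obtain ⟨-, hze⟩ := mem_erase.1 hz1
        by_cases hzA : z ∈ A
        · rw [if_pos hzA]
          exact (mem_inK.1 hzA).2
        · rw [if_neg hzA]
          by_contra hn
          apply hz2
          refine mem_outK.2 ⟨mem_outK.2 ⟨hze, fun hJ => hzA (mem_inK.2 ⟨hze, hJ⟩)⟩, hn⟩)
      (c w x) hxJ (by
        intro Y hY hYc
        have hYw : ∀ z ∈ Y, z ≠ x ∧ z ≠ w := by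
          intro z hz
          obtain ⟨hz1, -⟩ := mem_sdiff.1 (hY hz)
          obtain ⟨h1, h2⟩ := mem_erase.1 hz1
          exact ⟨h1, (mem_erase.1 h2).1⟩
        have hcc := Finset.card_filter_add_card_filter_not (s := Y) (fun z => z ∈ A)
        have h1 := hz w x hxne.symm (Y.filter (fun z => z ∈ A)) (Y.filter (fun z => ¬ z ∈ A))
          (disjoint_filter_filter_not _ _ _)
          (fun h => (hYw w (mem_filter.1 h).1).2 rfl) (fun h => (hYw x (mem_filter.1 h).1).1 rfl)
          (fun h => (hYw w (mem_filter.1 h).1).2 rfl) (fun h => (hYw x (mem_filter.1 h).1).1 rfl)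
          (by omega)
        rw [sum_ite, ← add_assoc]
        exact h1)
    refine ⟨H, v₀, hH, mem_outK.2 ⟨hxA, hτ⟩, ?_⟩
    have hsub : (outK (fun z => c w z - v₀) A H).erase x ⊆
        outK (fun z => (if z ∈ A then c w z else c x z) - v₀) (((univ.erase w).erase x) \ Bx) H := by
      intro z hz
      obtain ⟨hzx, hz1⟩ := mem_erase.1 hz
      obtain ⟨hzA, hz2⟩ := mem_outK.1 hz1
      obtain ⟨hze, hzJ⟩ := mem_inK.1 hzA
      refine mem_outK.2 ⟨mem_sdiff.2 ⟨mem_erase.2 ⟨hzx, hze⟩, fun hB => ?_⟩, ?_⟩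
      · obtain ⟨hB1, -⟩ := mem_outK.1 hB
        exact (mem_outK.1 hB1).2 hzJ
      · rw [if_pos hzA]
        exact hz2
    have h3 := card_le_card hsub
    have h4 := pred_card_le_card_erase (s := outK (fun z => c w z - v₀) A H) (a := x)
    have hout' : ((outK (fun z => (if z ∈ A then c w z else c x z) - v₀)
        (((univ.erase w).erase x) \ Bx) H).card + 2) * Nat.card H ≤ Nat.card (Jm m) := hout
    show ((outK (fun z => c w z - v₀) A H).card + 1) * Nat.card H ≤ Nat.card (Jm m)
    refine le_trans (Nat.mul_le_mul_right _ ?_) hout'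
    omega
  · intro x hxA hxS
    have h1 : ¬ (Nat.card (Jm m) + (outK (fun z => c x z - β) B (Jm m)).card ≤ s) :=
      fun h => hxS (mem_filter.2 ⟨hxA, h⟩)
    omega

end ZS44129
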