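import Pool.Agent.Work.MP_44129c_co.P1.Defs
import Pool.Agent.Work.MP_44129c_co.StarSys

/-!
# MP_44129c_co/P1, Coset (size S-M): EGZ in a coset

PROOF.  `p = Nat.card P`, `p ∣ m`.  Suppose `D = inK (fun x => c w x - β) (univ.erase w) P` has
`≥ m + p - 1` elements.  Claim: for every `l` with `l * p ≤ m` every `D' ⊆ D` with
`l * p + p - 1 ≤ D'.card` contains `R` with `R.card = l * p` and `∑ x ∈ R, (c w x - β) = 0`.
Induction on `l`: `l + 1`: `D'` has `≥ 2 p - 1` elements; `P` is cyclic of order `p`, namely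
`P = {g | p • g = 0}` = multiples of `m / p` (`ZMod m` is cyclic), so for `x ∈ D` choose an integer
`k x` with `c w x - β = ((m / p) * k x : ZMod m)`; `Int.erdos_ginzburg_ziv` (n = p) gives `S ⊆ D'`,
`S.card = p`, `p ∣ ∑ k`, so `∑ x ∈ S, (c w x - β) = 0`; apply the claim for `l` to `D' \ S`.
With `l = m / p`: `R` with `R.card = m`, `∑ x ∈ R, c w x = ∑ (c w x - β) + m • β = 0`, which
contradicts `zsf_star` (StarSys).
-/

set_option autoImplicit false

namespace ZS44129

open Finset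

private theorem mem_mul {m : ℕ} [NeZero m] (P : AddSubgroup (ZMod m)) (q : ℕ)
    (hq : m = Nat.card P * q) (g : ZMod m) (hg : g ∈ P) :
    ∃ k : ℤ, g = (((q : ℤ) * k : ℤ) : ZMod m) := by
  have hp : 0 < Nat.card P := Nat.card_pos
  have h1 : Nat.card P • g = 0 := by
    have h2 : Nat.card P • (⟨g, hg⟩ : P) = 0 := card_nsmul_eq_zero'
    exact congrArg (Subtype.val) h2
  have h2 : ((Nat.card P * g.val : ℕ) : ZMod m) = 0 := by
    rw [nsmul_eq_mul] at h1
    rw [Nat.cast_mul, ZMod.natCast_val, ZMod.cast_id]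
    exact h1
  have h3 : m ∣ Nat.card P * g.val := (ZMod.natCast_eq_zero_iff _ _).1 h2
  have h4 : q ∣ g.val := by
    have h5 : Nat.card P * q ∣ Nat.card P * g.val := hq ▸ h3
    exact Nat.dvd_of_mul_dvd_mul_left hp h5
  obtain ⟨k, hk⟩ := h4
  refine ⟨k, ?_⟩
  have h5 : g = ((g.val : ℕ) : ZMod m) := by rw [ZMod.natCast_val, ZMod.cast_id]
  rw [h5, hk]
  push_cast
  rfl

private theorem egz_coset {V : Type} [DecidableEq V] {m : ℕ} [NeZero m]
    (P : AddSubgroup (ZMod m)) (q : ℕ) (hq : m = Nat.card P * q) (f : V → ZMod m) :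
    ∀ (l : ℕ) (D : Finset V), (∀ x ∈ D, f x ∈ P) → l * Nat.card P + Nat.card P - 1 ≤ D.card →
      ∃ R ⊆ D, R.card = l * Nat.card P ∧ ∑ x ∈ R, f x = 0 := by
  have hp : 0 < Nat.card P := Nat.card_pos
  intro l
  induction l with
  | zero =>
    intro D _ _
    exact ⟨∅, Finset.empty_subset _, by simp, by simp⟩
  | succ l ih =>
    intro D hD hc
    have hk : ∀ x : V, ∃ k : ℤ, x ∈ D → f x = (((q : ℤ) * k : ℤ) : ZMod m) := by
      intro x
      by_cases hx : x ∈ D
      · obtain ⟨k, hk⟩ := mem_mul P q hq (f x) (hD x hx)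
        exact ⟨k, fun _ => hk⟩
      · exact ⟨0, fun h => absurd h hx⟩
    choose k hk using hk
    have h1 : 2 * Nat.card P - 1 ≤ D.card := by
      rw [Nat.succ_mul] at hc
      omega
    obtain ⟨S, hS, hSc, hSd⟩ := Int.erdos_ginzburg_ziv k h1
    have h2 : l * Nat.card P + Nat.card P - 1 ≤ (D \ S).card := by
      have h3 := Finset.card_sdiff_add_card_eq_card hS
      rw [Nat.succ_mul] at hc
      omega
    obtain ⟨R, hR, hRc, hRs⟩ := ih (D \ S) (fun x hx => hD x (mem_sdiff.1 hx).1) h2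
    have hdis : Disjoint R S := by
      rw [Finset.disjoint_left]
      intro x hx hxS
      exact (mem_sdiff.1 (hR hx)).2 hxS
    refine ⟨R ∪ S, Finset.union_subset (fun x hx => (mem_sdiff.1 (hR hx)).1) hS, ?_, ?_⟩
    · rw [Finset.card_union_of_disjoint hdis, hRc, hSc, Nat.succ_mul]
    · rw [Finset.sum_union hdis, hRs, zero_add]
      obtain ⟨z, hz⟩ := hSd
      have h4 : ∑ x ∈ S, f x = (((q : ℤ) * ∑ x ∈ S, k x : ℤ) : ZMod m) := by
        rw [Finset.mul_sum, Int.cast_sum]
        exact Finset.sum_congr rfl fun x hx => hk x (hS hx)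
      rw [h4, hz]
      have h5 : (q : ℤ) * ((Nat.card P : ℤ) * z) = (m : ℤ) * z := by
        conv_rhs => rw [hq]
        push_cast
        ring
      rw [h5]
      push_cast
      rw [ZMod.natCast_self, zero_mul]

theorem coset_card {V : Type} [Fintype V] [DecidableEq V] {m : ℕ} [NeZero m]
    (c : V → V → ZMod m) (hz : ZSF m c) (w : V) (P : AddSubgroup (ZMod m)) (β : ZMod m) :
    (inK (fun x => c w x - β) (univ.erase w) P).card + 2 ≤ m + Nat.card P := by
  by_contra hcon
  have hp : 0 < Nat.card P := Nat.card_pos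
  have hdvd : Nat.card P ∣ m := by
    have h1 := AddSubgroup.card_addSubgroup_dvd_card P
    rwa [Nat.card_zmod] at h1
  obtain ⟨q, hq⟩ := hdvd
  have hqP : q * Nat.card P = m := by rw [mul_comm]; exact hq.symm
  obtain ⟨R, hR, hRc, hRs⟩ := egz_coset P q hq (fun x => c w x - β) q
    (inK (fun x => c w x - β) (univ.erase w) P) (fun x hx => (mem_inK.1 hx).2)
    (by rw [hqP]; omega)
  rw [hqP] at hRc
  have hw : w ∉ R := fun h => Finset.notMem_erase w univ (inK_sub _ _ _ (hR h))
  refine zsf_star (Nat.pos_of_ne_zero (NeZero.ne m)) c hz w R hw hRc ?_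
  rw [Finset.sum_sub_distrib, Finset.sum_const, hRc, nsmul_eq_mul, ZMod.natCast_self, zero_mul,
    sub_zero] at hRs
  exact hRs

end ZS44129
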