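import Mathlib
import Pool.Agent.Work.MP_44129c_co.Defs
import Pool.Agent.Work.MP_44129c_co.F.CubeMain

/-!
# MP_44129c_co/P1, Defs (FIXED, do not change)

Part (1) of the full answer: the first lifted pair (paper: helper43, `/team-store/44129c_helper43_5.md`).
`V` is the vertex set, `Fintype.card V = m + s`, `c : V → V → ZMod m` the colouring, `w ≠ y` two
vertices; the positions are the `x ≠ w, y`.
-/

set_option autoImplicit false

namespace ZS44129

open Finset

/-- the indices `i ∈ I` with `d i ∈ K`. -/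
noncomputable def inK {ι G : Type*} [AddCommGroup G] (d : ι → G) (I : Finset ι)
    (K : AddSubgroup G) : Finset ι := by
  classical exact I.filter (fun i => d i ∈ K)

/-- the indices `i ∈ I` with `d i ∉ K`. -/
noncomputable def outK {ι G : Type*} [AddCommGroup G] (d : ι → G) (I : Finset ι)
    (K : AddSubgroup G) : Finset ι := by
  classical exact I.filter (fun i => d i ∉ K)

theorem mem_inK {ι G : Type*} [AddCommGroup G] {d : ι → G} {I : Finset ι}
    {K : AddSubgroup G} {i : ι} : i ∈ inK d I K ↔ i ∈ I ∧ d i ∈ K := by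
  classical
  unfold inK
  simp

theorem mem_outK {ι G : Type*} [AddCommGroup G] {d : ι → G} {I : Finset ι}
    {K : AddSubgroup G} {i : ι} : i ∈ outK d I K ↔ i ∈ I ∧ d i ∉ K := by
  classical
  unfold outK
  simp

theorem inK_add_outK {ι G : Type*} [AddCommGroup G] (d : ι → G) (I : Finset ι)
    (K : AddSubgroup G) : (inK d I K).card + (outK d I K).card = I.card := by
  classical
  unfold inK outK
  exact Finset.card_filter_add_card_filter_not _

theorem inK_sub {ι G : Type*} [AddCommGroup G] (d : ι → G) (I : Finset ι)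
    (K : AddSubgroup G) : inK d I K ⊆ I := fun _ hi => (mem_inK.1 hi).1

theorem outK_sub {ι G : Type*} [AddCommGroup G] (d : ι → G) (I : Finset ι)
    (K : AddSubgroup G) : outK d I K ⊆ I := fun _ hi => (mem_outK.1 hi).1

/-- Kneser for subset sums (`cube_periodic`) with `outK`. -/
theorem kneser_out {ι G : Type*} [DecidableEq ι] [AddCommGroup G] [Fintype G] [DecidableEq G]
    (d : ι → G) (I : Finset ι) (H : AddSubgroup G)
    (hH : ∀ h : G, h ∈ H ↔ ∀ x ∈ cube d I, x + h ∈ cube d I) :
    ((outK d I H).card + 1) * Nat.card H ≤ (cube d I).card := by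
  have h := cube_periodic d I H hH
  have h2 : outK d I H = by classical exact I.filter (fun i => d i ∉ H) := rfl
  rw [h2]
  convert h

/-- `Gen d I A B`: the subset sums of `(d i)_{i ∈ I}` meet every `A`-coset in `B`. -/
def Gen {ι G : Type*} [AddCommGroup G] [DecidableEq G] (d : ι → G) (I : Finset ι)
    (A B : AddSubgroup G) : Prop := ∀ x ∈ B, ∃ g ∈ cube d I, x - g ∈ A

/-- the difference of the two options at the position `x` of the pair `w, y`. -/
def dd {V : Type} {m : ℕ} (c : V → V → ZMod m) (w y x : V) : ZMod m := c y x - c w x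

/-- pairwise disjoint pairs of positions. -/
structure Prs {V : Type} (E : Finset (V × V)) : Prop where
  ne : ∀ e ∈ E, e.1 ≠ e.2
  dis : ∀ e ∈ E, ∀ f ∈ E, e ≠ f → e.1 ≠ f.1 ∧ e.1 ≠ f.2 ∧ e.2 ≠ f.1 ∧ e.2 ≠ f.2

/-- the positions used by the pairs. -/
def pos {V : Type} [DecidableEq V] (E : Finset (V × V)) : Finset V :=
  E.image Prod.fst ∪ E.image Prod.snd

/-- the differences of the pairs for the function `a`. -/
def de {V : Type} {m : ℕ} (a : V → ZMod m) (e : V × V) : ZMod m := a e.2 - a e.1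

/-- the positions of the pair `w, y`. -/
def XX {V : Type} [Fintype V] [DecidableEq V] (w y : V) : Finset V := (univ.erase w).erase y

theorem mem_XX {V : Type} [Fintype V] [DecidableEq V] {w y x : V} :
    x ∈ XX w y ↔ x ≠ w ∧ x ≠ y := by
  unfold XX
  simp only [mem_erase, mem_univ, and_true]
  exact and_comm

theorem card_XX {V : Type} [Fintype V] [DecidableEq V] {w y : V} (h : w ≠ y) :
    (XX w y).card + 2 = Fintype.card V := by
  unfold XX
  have h1 : y ∈ univ.erase w := mem_erase.2 ⟨h.symm, mem_univ y⟩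
  have h2 := card_erase_add_one h1
  have h3 := card_erase_add_one (mem_univ w)
  rw [card_univ] at h3
  omega

/-- the elements killed by `6`. -/
def Jm (m : ℕ) : AddSubgroup (ZMod m) where
  carrier := {g | (6 : ℕ) • g = 0}
  add_mem' {a b} ha hb := by
    change (6 : ℕ) • (a + b) = 0
    change (6 : ℕ) • a = 0 at ha
    change (6 : ℕ) • b = 0 at hb
    rw [nsmul_add, ha, hb, add_zero]
  zero_mem' := by
    change (6 : ℕ) • (0 : ZMod m) = 0
    exact nsmul_zero _
  neg_mem' {a} ha := by
    change (6 : ℕ) • (-a) = 0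
    change (6 : ℕ) • a = 0 at ha
    rw [nsmul_eq_mul] at ha ⊢
    rw [mul_neg, ha, neg_zero]

theorem mem_Jm {m : ℕ} {g : ZMod m} : g ∈ Jm m ↔ (6 : ℕ) • g = 0 := Iff.rfl

/-- `1, 2, 3, 4` for `gcd 6 m = 1, 2, 3, 6`. -/
def q0 (m : ℕ) : ℕ := 1 + (if 2 ∣ m then 1 else 0) + (if 3 ∣ m then 2 else 0)

/-- `y` is bad for `w` with index `i` and `e` exceptions. -/
def BadH {V : Type} [Fintype V] [DecidableEq V] {m : ℕ} (i e : ℕ) (c : V → V → ZMod m)
    (w y : V) : Prop :=
  ∃ (H : AddSubgroup (ZMod m)) (β : ZMod m), H.index = i ∧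
    (outK (fun x => c w x - β) (XX w y) H).card ≤ e ∧ c w y - β ∉ H

/-- the number of positions with difference outside `Jm m`. -/
noncomputable def DJ {V : Type} [Fintype V] [DecidableEq V] {m : ℕ} (c : V → V → ZMod m)
    (w y : V) : ℕ := (outK (dd c w y) (XX w y) (Jm m)).card

/-- the exceptional pairs `(s, m)` (treated separately). -/
def exc : Finset (ℕ × ℕ) :=
  {(3, 8), (3, 9), (3, 10), (4, 10), (4, 12), (4, 14), (5, 15), (5, 16), (6, 16), (6, 18), (6, 20),
   (7, 20), (7, 21), (8, 24), (8, 25), (9, 28), (10, 30), (10, 32), (12, 36), (14, 42), (16, 48),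
   (18, 54)}

/-- the range of the theorem (`t = m - 3 s - 1` is the excess, `-3 ≤ t ≤ 1`, or `t ≤ s / 10` if
`38 ≤ s`). -/
def Rg (m s : ℕ) : Prop :=
  3 ≤ s ∧ 3 * s ≤ m + 2 ∧ (m ≤ 3 * s + 2 ∨ (38 ≤ s ∧ 10 * m ≤ 31 * s + 10)) ∧ (s, m) ∉ exc

end ZS44129
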