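import Pool.Agent.Work.MP_44129c_co.P1.Defs

/-!
# MP_44129c_co/P1, Pairs (size S-M): disjoint pairs from different classes

PROOF.  Induction on `n`.  `n = 0`: `E = ∅`.  `n + 1`: let `κ₀` be a value of `f` on `Y` with the
largest class (`Y` is nonempty) and `κ₁` a value `≠ κ₀` with the largest class among the values
`≠ κ₀` (it exists, because `1 ≤ #{x ∈ Y | f x ≠ κ₀}`), `x ∈ Y` of class `κ₀`, `y ∈ Y` of class `κ₁`,
`Y' = Y \ {x, y}`.  `Y'.card = Y.card - 2 ≥ 2 n`.  For `κ` the set `{z ∈ Y' | f z ≠ κ}` has at least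
`n` elements: if `κ = κ₀` or `κ = κ₁` only one of the `≥ n + 1` elements was removed.  Otherwise, with
`k = #{z ∈ Y | f z = κ}`, `3 k ≤ Y.card` (the classes of `κ, κ₀, κ₁` are disjoint and the two last
ones are at least as large), so `#{z ∈ Y' | f z ≠ κ} = Y.card - k - 2 ≥ n`: if `k ≤ n` use
`Y.card ≥ 2 (n + 1)`; if `k ≥ n + 1` then `Y.card - k - 2 ≥ 2 k - 2 ≥ 2 n`.
Induction for `Y'` gives `E'`; `E = insert (x, y) E'`.
-/

set_option autoImplicit false

namespace ZS44129

open Finset

theorem exists_pairs {V α : Type*} [DecidableEq V] [DecidableEq α] (f : V → α) (n : ℕ) :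
    ∀ Y : Finset V, 2 * n ≤ Y.card → (∀ κ : α, n ≤ (Y.filter (fun x => f x ≠ κ)).card) →
      ∃ E : Finset (V × V), (∀ e ∈ E, e.1 ≠ e.2) ∧
        (∀ e ∈ E, ∀ e' ∈ E, e ≠ e' → e.1 ≠ e'.1 ∧ e.1 ≠ e'.2 ∧ e.2 ≠ e'.1 ∧ e.2 ≠ e'.2) ∧
        E.card = n ∧ ∀ e ∈ E, e.1 ∈ Y ∧ e.2 ∈ Y ∧ f e.1 ≠ f e.2 := by
  induction n with
  | zero =>
    intro Y _ _
    exact ⟨∅, by simp, by simp, by simp, by simp⟩
  | succ n ih =>
    intro Y hY hκ
    have hne : Y.Nonempty := by
      rw [← Finset.card_pos]; omega
    -- class sizes
    set cl : α → ℕ := fun κ => (Y.filter (fun x => f x = κ)).card with hcl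
    have hsplit : ∀ κ, cl κ + (Y.filter (fun x => f x ≠ κ)).card = Y.card := by
      intro κ
      exact Finset.card_filter_add_card_filter_not (s := Y) (fun x => f x = κ)
    obtain ⟨x, hxY, hx⟩ := Finset.exists_max_image Y (fun x => cl (f x)) hne
    have hne1 : (Y.filter (fun z => f z ≠ f x)).Nonempty := by
      rw [← Finset.card_pos]; have := hκ (f x); omega
    obtain ⟨y, hy1, hy⟩ := Finset.exists_max_image (Y.filter (fun z => f z ≠ f x))
      (fun x => cl (f x)) hne1
    obtain ⟨hyY, hyx⟩ := Finset.mem_filter.1 hy1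
    have hxy : x ≠ y := fun h => hyx (by rw [h])
    set Y' := (Y.erase x).erase y with hY'
    have hc1 : (Y.erase x).card = Y.card - 1 := Finset.card_erase_of_mem hxY
    have hyE : y ∈ Y.erase x := Finset.mem_erase.2 ⟨hxy.symm, hyY⟩
    have hc2 : Y'.card = Y.card - 2 := by
      rw [hY', Finset.card_erase_of_mem hyE, hc1]; omega
    have hfil : ∀ κ, Y'.filter (fun z => f z ≠ κ) =
        ((Y.filter (fun z => f z ≠ κ)).erase x).erase y := by
      intro κ
      ext z
      simp only [hY', Finset.mem_filter, Finset.mem_erase]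
      tauto
    have key : ∀ κ : α, n ≤ (Y'.filter (fun x => f x ≠ κ)).card := by
      intro κ
      rw [hfil]
      by_cases h0 : κ = f x
      · have h1 : x ∉ Y.filter (fun z => f z ≠ κ) := by simp [h0]
        rw [Finset.erase_eq_of_notMem h1]
        have := hκ κ
        have := Finset.pred_card_le_card_erase (s := Y.filter (fun z => f z ≠ κ)) (a := y)
        omega
      by_cases h1 : κ = f y
      · have h2 : y ∉ (Y.filter (fun z => f z ≠ κ)).erase x := by simp [h1]
        rw [Finset.erase_eq_of_notMem h2]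
        have := hκ κ
        have := Finset.pred_card_le_card_erase (s := Y.filter (fun z => f z ≠ κ)) (a := x)
        omega
      · -- general
        have e1 := Finset.pred_card_le_card_erase (s := Y.filter (fun z => f z ≠ κ)) (a := x)
        have e2 := Finset.pred_card_le_card_erase (s := (Y.filter (fun z => f z ≠ κ)).erase x) (a := y)
        have e3 := hsplit κ
        by_cases hk : cl κ ≤ n
        · omega
        · have hpos : 0 < cl κ := by omega
          obtain ⟨z, hz⟩ := Finset.card_pos.1 hpos
          obtain ⟨hzY, hzκ⟩ := Finset.mem_filter.1 hz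
          have a1 : cl κ ≤ cl (f x) := by rw [← hzκ]; exact hx z hzY
          have a2 : cl κ ≤ cl (f y) := by
            rw [← hzκ]
            exact hy z (Finset.mem_filter.2 ⟨hzY, by rw [hzκ]; exact h0⟩)
          have a3 : cl κ + cl (f x) + cl (f y) ≤ Y.card := by
            have hd1 : Disjoint (Y.filter (fun z => f z = κ)) (Y.filter (fun z => f z = f x)) := by
              rw [Finset.disjoint_filter]; intro w _ h h'; exact h0 (h.symm.trans h')
            have hd2 : Disjoint (Y.filter (fun z => f z = κ) ∪ Y.filter (fun z => f z = f x))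
                (Y.filter (fun z => f z = f y)) := by
              rw [Finset.disjoint_union_left]
              constructor
              · rw [Finset.disjoint_filter]; intro w _ h h'; exact h1 (h.symm.trans h')
              · rw [Finset.disjoint_filter]; intro w _ h h'; exact hyx (h'.symm.trans h)
            have : ((Y.filter (fun z => f z = κ) ∪ Y.filter (fun z => f z = f x)) ∪
                (Y.filter (fun z => f z = f y))).card ≤ Y.card := by
              apply Finset.card_le_card
              intro w hw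
              simp only [Finset.mem_union, Finset.mem_filter] at hw
              tauto
            rw [Finset.card_union_of_disjoint hd2, Finset.card_union_of_disjoint hd1] at this
            exact this
          omega
    obtain ⟨E, hE1, hE2, hE3, hE4⟩ := ih Y' (by omega) key
    have hsub : ∀ e ∈ E, e.1 ≠ x ∧ e.1 ≠ y ∧ e.2 ≠ x ∧ e.2 ≠ y := by
      intro e he
      obtain ⟨h1, h2, -⟩ := hE4 e he
      rw [hY', Finset.mem_erase, Finset.mem_erase] at h1 h2
      exact ⟨h1.2.1, h1.1, h2.2.1, h2.1⟩
    have hnot : (x, y) ∉ E := fun h => (hsub _ h).1 rfl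
    refine ⟨insert (x, y) E, ?_, ?_, ?_, ?_⟩
    · intro e he
      rcases Finset.mem_insert.1 he with rfl | he
      · exact hxy
      · exact hE1 e he
    · intro e he e' he' hne
      rcases Finset.mem_insert.1 he with rfl | he <;> rcases Finset.mem_insert.1 he' with rfl | he'
      · exact absurd rfl hne
      · obtain ⟨h1, h2, h3, h4⟩ := hsub e' he'
        exact ⟨h1.symm, h3.symm, h2.symm, h4.symm⟩
      · obtain ⟨h1, h2, h3, h4⟩ := hsub e he
        exact ⟨h1, h2, h3, h4⟩
      · exact hE2 e he e' he' hne
    · rw [Finset.card_insert_of_notMem hnot, hE3]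
    · intro e he
      rcases Finset.mem_insert.1 he with rfl | he
      · exact ⟨hxY, hyY, fun h => hyx h.symm⟩
      · obtain ⟨h1, h2, h3⟩ := hE4 e he
        exact ⟨Finset.mem_of_mem_erase (Finset.mem_of_mem_erase h1),
          Finset.mem_of_mem_erase (Finset.mem_of_mem_erase h2), h3⟩

end ZS44129
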