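import Pool.Agent.Work.MP_44129c_co.P1.KnC
import Pool.Agent.Work.MP_44129c_co.P1.Pairs

/-!
# MP_44129c_co/P1, Desc (size M): the descent

Here `r = Nat.card R`, `k = R.index`, `r * k = m`; for subgroups `R ≤ K` write `[K : R]` for
`Nat.card K / r` (`AddSubgroup.relIndex`).

PROOF.  Say `D(K)` if `R ≤ K` and some `β` satisfies
`(outK (fun x => a x - β) X K).card * r + 2 * Nat.card K ≤ 2 * m`, equivalently
`#{x ∈ X | a x - β ∉ K} ≤ 2 (k - [K : R])`.  `D(⊤)` holds (`β = 0`, nothing is outside).  Take `K`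
with `D(K)` of minimal cardinality and its `β`; `XK = {x ∈ X | a x - β ∈ K}`.
Consider the pairs `(K₁, E)` with `R ≤ K₁ ≤ K`, `Prs E`, `e.1, e.2 ∈ XK` and `de a e ∈ K₁` for
`e ∈ E`, `Gen (de a) E R K₁` (`K₁ = R`, `E = ∅` is one); take one with `Nat.card K₁` maximal.  By
`gen_small` we may replace `E` by a subset with `(E.card + 1) * r ≤ Nat.card K₁`, i.e.
`E.card ≤ q - 1`, `q = [K₁ : R]`.
If `K₁ = K` we are done (the last conclusion is `D(K)`).
Otherwise `K₁ < K`; put `i = [K : K₁] ≥ 2`, `Y = XK \ pos E`.  Claim: some coset of `K₁` contains all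
but at most `i - 2` of the `a x`, `x ∈ Y`.  Suppose not; then for every coset at least `i - 1` elements
of `Y` are outside.  `Y.card ≥ X.card - 2 (k - i q) - 2 (q - 1) ≥ 2 k - 2 k + 2 i q - 2 q + 2
≥ 2 (i - 1)`, (since `i q - q + 1 - (i - 1) = (i - 1)(q - 1) + 1 > 0`), so `exists_pairs` (class of `x`
:= the image of `a x` in `ZMod m ⧸ K₁`, `n = i - 1`) gives `i - 1` disjoint pairs `E'` inside `Y` with
`de a e ∉ K₁`, and `de a e ∈ K` (both ends are in `β + K`).  `gen_sub` (`A = K₁`, `B = K`,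
`Nat.card K = i * Nat.card K₁`) gives `K₁ < K₂ ≤ K`, `J ⊆ E'`, `de a e ∈ K₂` on `J`,
`Gen (de a) J K₁ K₂`; with `gen_trans` `Gen (de a) (E ∪ J) R K₂`, and `E ∪ J` is again a set of
disjoint pairs inside `XK`: contradiction to the maximality of `K₁`.
So there is a coset `β' + K₁` with `#{x ∈ Y | a x - β' ∉ K₁} ≤ i - 2` (`β'` any representative), and
since `{x ∈ X | a x - β' ∉ K₁} ⊆ {x ∈ X | a x - β ∉ K} ∪ pos E ∪ {x ∈ Y | a x - β' ∉ K₁}`
`#{x ∈ X | a x - β' ∉ K₁} ≤ #{x ∈ X | a x - β ∉ K} + (pos E).card + (i - 2)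
  ≤ 2 (k - i q) + 2 (q - 1) + (i - 2) ≤ 2 (k - q)`, because
`2 i q - 4 q + 4 - i = 2 q (i - 2) - (i - 4) ≥ 0` (`i = 2`: it is `2`; `i ≥ 3`: `≥ 2 (i - 2) - i + 4
= i`).  So `D(K₁)` holds, contradiction to the minimality of `K`.
-/

set_option autoImplicit false

namespace ZS44129

open Finset

private theorem desc_card_pos {V : Type} [DecidableEq V] (E : Finset (V × V)) :
    (pos E).card ≤ 2 * E.card := by
  unfold pos
  have h1 := Finset.card_union_le (E.image Prod.fst) (E.image Prod.snd)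
  have h2 : (E.image Prod.fst).card ≤ E.card := Finset.card_image_le
  have h3 : (E.image Prod.snd).card ≤ E.card := Finset.card_image_le
  omega

private theorem desc_mem_pos {V : Type} [DecidableEq V] {E : Finset (V × V)} {e : V × V}
    (he : e ∈ E) : e.1 ∈ pos E ∧ e.2 ∈ pos E := by
  unfold pos
  exact ⟨Finset.mem_union_left _ (Finset.mem_image_of_mem _ he),
    Finset.mem_union_right _ (Finset.mem_image_of_mem _ he)⟩

private theorem desc_card_rel {m : ℕ} [NeZero m] {A B : AddSubgroup (ZMod m)} (h : A ≤ B) :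
    Nat.card B = A.relIndex B * Nat.card A := by
  have h1 := AddSubgroup.card_mul_index A
  have h2 := AddSubgroup.card_mul_index B
  have h3 := AddSubgroup.relIndex_mul_index h
  have h4 : B.index ≠ 0 := AddSubgroup.index_ne_zero_of_finite
  apply Nat.eq_of_mul_eq_mul_right (Nat.pos_of_ne_zero h4)
  rw [h2, ← h1, ← h3]
  ring

/-- the pairs of subgroup and pairs used in the maximality argument. -/
private def DescOk {V : Type} [DecidableEq V] {m : ℕ} (a : V → ZMod m) (X : Finset V)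
    (R K : AddSubgroup (ZMod m)) (β : ZMod m) (K₁ : AddSubgroup (ZMod m))
    (E : Finset (V × V)) : Prop :=
  R ≤ K₁ ∧ K₁ ≤ K ∧ Prs E ∧
    (∀ e ∈ E, e.1 ∈ X ∧ e.2 ∈ X ∧ a e.1 - β ∈ K ∧ a e.2 - β ∈ K ∧ de a e ∈ K₁) ∧
    Gen (de a) E R K₁

private theorem desc_step {V : Type} [DecidableEq V] {m : ℕ} [NeZero m] (a : V → ZMod m)
    (X : Finset V) (R : AddSubgroup (ZMod m)) (hX : 2 * R.index ≤ X.card) :
    ∀ (K : AddSubgroup (ZMod m)) (β : ZMod m), R ≤ K →
      (outK (fun x => a x - β) X K).card * Nat.card R + 2 * Nat.card K ≤ 2 * m →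
    ∃ (K : AddSubgroup (ZMod m)) (β : ZMod m) (E : Finset (V × V)), R ≤ K ∧ Prs E ∧
      (∀ e ∈ E, e.1 ∈ X ∧ e.2 ∈ X ∧ a e.1 - β ∈ K ∧ a e.2 - β ∈ K) ∧
      Gen (de a) E R K ∧ (E.card + 1) * Nat.card R ≤ Nat.card K ∧
      (outK (fun x => a x - β) X K).card * Nat.card R + 2 * Nat.card K ≤ 2 * m := by
  classical
  have hr : 0 < Nat.card R := Nat.card_pos
  have hm : Nat.card R * R.index = m := by
    rw [AddSubgroup.card_mul_index R, Nat.card_zmod]
  intro K
  induction K using WellFoundedLT.induction with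
  | ind K ih =>
  intro β hRK hD
  -- the family
  have hfin : Set.Finite {K₁ : AddSubgroup (ZMod m) | ∃ E, DescOk a X R K β K₁ E} :=
    Set.toFinite _
  have hne : Set.Nonempty {K₁ : AddSubgroup (ZMod m) | ∃ E, DescOk a X R K β K₁ E} := by
    refine ⟨R, ∅, le_refl _, hRK, ⟨by simp, by simp⟩, by simp, ?_⟩
    intro x hx
    exact ⟨0, zero_mem_cube _ _, by simpa using hx⟩
  obtain ⟨K₁, hK₁⟩ := hfin.exists_maximal hne
  obtain ⟨E₀, hE₀⟩ := hK₁.prop
  obtain ⟨hRK₁, hK₁K, hPrs₀, hEmem₀, hGen₀⟩ := hE₀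
  obtain ⟨E, hEsub, hGen, hEcard⟩ := gen_small (de a) E₀ R K₁ hRK₁
    (fun e he => (hEmem₀ e he).2.2.2.2) hGen₀
  have hPrs : Prs E := ⟨fun e he => hPrs₀.ne e (hEsub he),
    fun e he f hf => hPrs₀.dis e (hEsub he) f (hEsub hf)⟩
  have hEmem : ∀ e ∈ E, e.1 ∈ X ∧ e.2 ∈ X ∧ a e.1 - β ∈ K ∧ a e.2 - β ∈ K ∧ de a e ∈ K₁ :=
    fun e he => hEmem₀ e (hEsub he)
  by_cases hKK : K₁ = K
  · subst hKK
    exact ⟨K₁, β, E, hRK₁, hPrs, fun e he => ⟨(hEmem e he).1, (hEmem e he).2.1,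
      (hEmem e he).2.2.1, (hEmem e he).2.2.2.1⟩, hGen, hEcard, hD⟩
  have hlt : K₁ < K := lt_of_le_of_ne hK₁K hKK
  -- indices
  have hcK := desc_card_rel hK₁K
  have hcK₁ := desc_card_rel hRK₁
  have hK₁pos : 0 < Nat.card K₁ := Nat.card_pos
  obtain ⟨i, hi⟩ : ∃ i, K₁.relIndex K = i := ⟨_, rfl⟩
  obtain ⟨q, hq⟩ : ∃ q, R.relIndex K₁ = q := ⟨_, rfl⟩
  obtain ⟨k, hk⟩ : ∃ k, R.index = k := ⟨_, rfl⟩
  obtain ⟨r, hrr⟩ : ∃ r, Nat.card R = r := ⟨_, rfl⟩
  rw [hi] at hcK
  rw [hq, hrr] at hcK₁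
  rw [hk, hrr] at hm
  rw [hrr] at hD hEcard hr
  rw [hk] at hX
  have hi2 : 2 ≤ i := by
    by_contra hcon
    have hle : Nat.card K ≤ Nat.card K₁ := by
      rw [hcK]
      calc i * Nat.card K₁ ≤ 1 * Nat.card K₁ := Nat.mul_le_mul_right _ (by omega)
        _ = Nat.card K₁ := one_mul _
    exact hKK (AddSubgroup.eq_of_le_of_card_ge hK₁K hle)
  have hq1 : 1 ≤ q := by
    by_contra hcon
    have : q = 0 := by omega
    rw [this, zero_mul] at hcK₁
    omega
  have hEq : E.card + 1 ≤ q := by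
    rw [hcK₁] at hEcard
    exact Nat.le_of_mul_le_mul_right hEcard hr
  obtain ⟨o, ho⟩ : ∃ o, (outK (fun x => a x - β) X K).card = o := ⟨_, rfl⟩
  have hD' : o + 2 * (i * q) ≤ 2 * k := by
    rw [ho, hcK, hcK₁, ← hm] at hD
    apply Nat.le_of_mul_le_mul_right _ hr
    calc (o + 2 * (i * q)) * r = o * r + 2 * (i * (q * r)) := by ring
      _ ≤ 2 * (r * k) := hD
      _ = 2 * k * r := by ring
  have hio := inK_add_outK (fun x => a x - β) X K
  rw [ho] at hio
  obtain ⟨Y, hY⟩ : ∃ Y, Y = inK (fun x => a x - β) X K \ pos E := ⟨_, rfl⟩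
  have hpos := desc_card_pos E
  have hYc : (inK (fun x => a x - β) X K).card ≤ Y.card + (pos E).card := by
    rw [hY]
    have := Finset.le_card_sdiff (pos E) (inK (fun x => a x - β) X K)
    omega
  have hYmem : ∀ x ∈ Y, x ∈ X ∧ a x - β ∈ K ∧ x ∉ pos E := by
    intro x hx
    rw [hY, Finset.mem_sdiff, mem_inK] at hx
    exact ⟨hx.1.1, hx.1.2, hx.2⟩
  have harith : 2 * (i - 1) + 2 * (q - 1) ≤ 2 * (i * q) := by
    obtain ⟨i', rfl⟩ : ∃ i', i = i' + 2 := ⟨i - 2, by omega⟩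
    obtain ⟨q', rfl⟩ : ∃ q', q = q' + 1 := ⟨q - 1, by omega⟩
    have e1 : i' + 2 - 1 = i' + 1 := by omega
    have e2 : q' + 1 - 1 = q' := by omega
    rw [e1, e2]
    nlinarith [Nat.zero_le (i' * q')]
  have harith2 : 4 * q + i ≤ 2 * (i * q) + 4 := by
    obtain ⟨i', rfl⟩ : ∃ i', i = i' + 2 := ⟨i - 2, by omega⟩
    obtain ⟨q', rfl⟩ : ∃ q', q = q' + 1 := ⟨q - 1, by omega⟩
    nlinarith [Nat.zero_le (i' * q')]
  have hYbig : 2 * (i - 1) ≤ Y.card := by omega
  by_cases hcase : ∀ κ : ZMod m ⧸ K₁,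
      i - 1 ≤ (Y.filter (fun x => (QuotientAddGroup.mk (a x) : ZMod m ⧸ K₁) ≠ κ)).card
  · -- more pairs: contradiction with the maximality
    exfalso
    obtain ⟨E', hE'ne, hE'dis, hE'card, hE'mem⟩ :=
      exists_pairs (fun x => (QuotientAddGroup.mk (a x) : ZMod m ⧸ K₁)) (i - 1) Y hYbig hcase
    have hdeK : ∀ e ∈ E', de a e ∈ K := by
      intro e he
      obtain ⟨h1, h2, _⟩ := hE'mem e he
      have h3 := (hYmem _ h1).2.1
      have h4 := (hYmem _ h2).2.1
      have h5 : de a e = (a e.2 - β) - (a e.1 - β) := by unfold de; ring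
      rw [h5]
      exact K.sub_mem h4 h3
    have hdeK₁ : ∀ e ∈ E', de a e ∉ K₁ := by
      intro e he hcon
      obtain ⟨_, _, h3⟩ := hE'mem e he
      apply h3
      rw [QuotientAddGroup.eq]
      have h5 : -a e.1 + a e.2 = de a e := by unfold de; ring
      rw [h5]
      exact hcon
    have hc : Nat.card K ≤ Nat.card K₁ * (E'.card + 1) := by
      rw [hE'card, hcK]
      have : i - 1 + 1 = i := by omega
      rw [this, mul_comm]
    obtain ⟨K₂, h12, h2K, J, hJ, hJmem, hJgen⟩ := gen_sub (de a) E' K₁ K hlt hdeK hdeK₁ hc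
    have hdis : Disjoint E J := by
      rw [Finset.disjoint_left]
      intro e he heJ
      exact (hYmem _ (hE'mem e (hJ heJ)).1).2.2 (desc_mem_pos he).1
    have hgen2 := gen_trans (de a) E J hdis R K₁ K₂ hGen hJgen
    have hmem2 : ∃ E, DescOk a X R K β K₂ E := by
      refine ⟨E ∪ J, hRK₁.trans h12.le, h2K, ⟨?_, ?_⟩, ?_, hgen2⟩
      · intro e he
        rcases Finset.mem_union.1 he with he | he
        · exact hPrs.ne e he
        · exact hE'ne e (hJ he)
      · intro e he f hf hef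
        rcases Finset.mem_union.1 he with he | he <;> rcases Finset.mem_union.1 hf with hf | hf
        · exact hPrs.dis e he f hf hef
        · have h1 := (hYmem _ (hE'mem f (hJ hf)).1).2.2
          have h2 := (hYmem _ (hE'mem f (hJ hf)).2.1).2.2
          have h3 := (desc_mem_pos he).1
          have h4 := (desc_mem_pos he).2
          exact ⟨fun h => h1 (h ▸ h3), fun h => h2 (h ▸ h3), fun h => h1 (h ▸ h4),
            fun h => h2 (h ▸ h4)⟩
        · have h1 := (hYmem _ (hE'mem e (hJ he)).1).2.2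
          have h2 := (hYmem _ (hE'mem e (hJ he)).2.1).2.2
          have h3 := (desc_mem_pos hf).1
          have h4 := (desc_mem_pos hf).2
          exact ⟨fun h => h1 (h ▸ h3), fun h => h1 (h ▸ h4), fun h => h2 (h ▸ h3),
            fun h => h2 (h ▸ h4)⟩
        · exact hE'dis e (hJ he) f (hJ hf) hef
      · intro e he
        rcases Finset.mem_union.1 he with he | he
        · obtain ⟨h1, h2, h3, h4, h5⟩ := hEmem e he
          exact ⟨h1, h2, h3, h4, h12.le h5⟩
        · obtain ⟨h1, h2, _⟩ := hE'mem e (hJ he)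
          exact ⟨(hYmem _ h1).1, (hYmem _ h2).1, (hYmem _ h1).2.1, (hYmem _ h2).2.1,
            hJmem e he⟩
    exact absurd (hK₁.le_of_ge hmem2 h12.le) (not_le_of_gt h12)
  · -- descent
    push Not at hcase
    obtain ⟨κ, hκ⟩ := hcase
    obtain ⟨β', hβ'⟩ := QuotientAddGroup.mk_surjective κ
    apply ih K₁ hlt β' hRK₁
    have hsub : outK (fun x => a x - β') X K₁ ⊆
        (outK (fun x => a x - β) X K ∪ pos E) ∪
          Y.filter (fun x => (QuotientAddGroup.mk (a x) : ZMod m ⧸ K₁) ≠ κ) := by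
      intro x hx
      rw [mem_outK] at hx
      obtain ⟨hx1, hx2⟩ := hx
      by_cases h1 : a x - β ∈ K
      · by_cases h2 : x ∈ pos E
        · exact Finset.mem_union_left _ (Finset.mem_union_right _ h2)
        · apply Finset.mem_union_right
          rw [Finset.mem_filter]
          refine ⟨?_, ?_⟩
          · rw [hY, Finset.mem_sdiff, mem_inK]
            exact ⟨⟨hx1, h1⟩, h2⟩
          · intro hcon
            apply hx2
            rw [← hβ', eq_comm, QuotientAddGroup.eq] at hcon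
            have h5 : a x - β' = -β' + a x := by ring
            rw [h5]
            exact hcon
      · exact Finset.mem_union_left _ (Finset.mem_union_left _ (mem_outK.2 ⟨hx1, h1⟩))
    have hcard := Finset.card_le_card hsub
    have hu1 := Finset.card_union_le (outK (fun x => a x - β) X K ∪ pos E)
      (Y.filter (fun x => (QuotientAddGroup.mk (a x) : ZMod m ⧸ K₁) ≠ κ))
    have hu2 := Finset.card_union_le (outK (fun x => a x - β) X K) (pos E)
    obtain ⟨c, hc⟩ : ∃ c, (outK (fun x => a x - β') X K₁).card = c := ⟨_, rfl⟩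
    rw [ho] at hu2
    rw [hc] at hcard
    have hfin2 : c + 2 * q ≤ 2 * k := by omega
    rw [hc, hrr, hcK₁, ← hm]
    calc c * r + 2 * (q * r) = (c + 2 * q) * r := by ring
      _ ≤ (2 * k) * r := Nat.mul_le_mul_right _ hfin2
      _ = 2 * (r * k) := by ring

theorem descent {V : Type} [DecidableEq V] {m : ℕ} [NeZero m] (a : V → ZMod m) (X : Finset V)
    (R : AddSubgroup (ZMod m)) (hX : 2 * R.index ≤ X.card) :
    ∃ (K : AddSubgroup (ZMod m)) (β : ZMod m) (E : Finset (V × V)), R ≤ K ∧ Prs E ∧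
      (∀ e ∈ E, e.1 ∈ X ∧ e.2 ∈ X ∧ a e.1 - β ∈ K ∧ a e.2 - β ∈ K) ∧
      Gen (de a) E R K ∧ (E.card + 1) * Nat.card R ≤ Nat.card K ∧
      (outK (fun x => a x - β) X K).card * Nat.card R + 2 * Nat.card K ≤ 2 * m := by
  apply desc_step a X R hX ⊤ 0 le_top
  have h1 : outK (fun x => a x - 0) X (⊤ : AddSubgroup (ZMod m)) = ∅ := by
    apply Finset.eq_empty_of_forall_notMem
    intro x hx
    exact (mem_outK.1 hx).2 (AddSubgroup.mem_top _)
  rw [h1, Finset.card_empty, zero_mul, zero_add, AddSubgroup.card_top, Nat.card_zmod]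

end ZS44129
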