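import Pool.Agent.Work.MP_44129c_co.P1.CjB

/-!
# MP_44129c_co/P1, ExA (size M): Lemma 4, case I (a vertex with a large `J`-class)

`n + 1 = m + s` (`n = (univ.erase w).card`), `J = Jm m`, `j = Nat.card J`,
`A = inK (fun x => c w x - β) (univ.erase w) J`, `B = outK (…) (univ.erase w) J` (`|A| + |B| = n`).

PROOF.  For `y ∈ B` put `f y = #{x ∈ A | c y x - β ∉ J}`.  For `x ∈ A` and `y ∈ B` with
`c y x - β ∉ J` we have `dd c w y x = (c y x - β) - (c w x - β) ∉ J` and `x ∈ XX w y`, so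
`f y ≤ DJ c w y`; also `f y ≤ |A|`.
Double counting (`c x y = c y x`): `∑_{y ∈ B} f y = ∑_{x ∈ A} #{y ∈ B | c x y - β ∉ J}
≥ (|A| - (j - 1)) * (s + 1 - j)` by `cj` (over `ℤ`; if `s + 1 < j` the right side is `≤ 0`; note
`|A| ≥ j - 1`).
`cj` applies: `2 j < |A| + 2` because `2 |A| ≥ 2 (n - e0) ≥ n + 2` and `4 j ≤ n + 5`.
Suppose that fewer than `q` vertices `y ≠ w` have `T ≤ DJ c w y`; let `p` be the number of `y ∈ B` with
`T ≤ DJ c w y`, `p ≤ q - 1`.  Then `∑_{y ∈ B} f y ≤ p |A| + (|B| - p)(T - 1)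
≤ (q - 1) |A| + (|B| - q + 1)(T - 1)` over `ℤ`, because `|A| ≥ T - 1` (`2 |A| ≥ n + 2 ≥ m + 2 ≥ 2 T`).
With `e = |B| = n - |A| ≤ e0`:
`(n - e - j + 1)(s - j + 1) ≤ (q - 1)(n - e) + (e - q + 1)(T - 1)`.  The difference
`D(e) = (n - e - j + 1)(s - j + 1) - (q - 1)(n - e) - (e - q + 1)(T - 1)` is affine in `e` with slope
`-(s - j + 1) + (q - 1) - (T - 1) ≤ 0` (`hsl`), so `D(e) ≥ D(e0) > 0` (`hE1`): contradiction.
-/

set_option autoImplicit false

namespace ZS44129

open Finset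

open Classical in
theorem exA {V : Type} [Fintype V] [DecidableEq V] {m s n e0 T q : ℕ} [NeZero m]
    (hV : Fintype.card V = m + s) (hn : n + 1 = m + s) (hs : 1 ≤ s) (c : V → V → ZMod m)
    (hsym : ∀ u v, c u v = c v u) (hz : ZSF m c) (h6 : 6 ∣ m → 24 ≤ m)
    (h4 : 4 * Nat.card (Jm m) ≤ n + 5) (he : 2 * (e0 + 1) ≤ n) (hT : 2 * T ≤ m + 2) (hT1 : 1 ≤ T)
    (hq : 1 ≤ q)
    (hsl : (Nat.card (Jm m) : ℤ) + q ≤ s + 1 + T)
    (hE1 : ((q : ℤ) - 1) * ((n : ℤ) - e0) + ((e0 : ℤ) - q + 1) * ((T : ℤ) - 1) <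
      ((n : ℤ) - e0 - Nat.card (Jm m) + 1) * ((s : ℤ) - Nat.card (Jm m) + 1))
    (w : V) (β : ZMod m)
    (hA : n ≤ (inK (fun x => c w x - β) (univ.erase w) (Jm m)).card + e0) :
    q ≤ ((univ.erase w).filter (fun y => T ≤ DJ c w y)).card := by
  set A := inK (fun x => c w x - β) (univ.erase w) (Jm m) with hAdef
  set B := outK (fun z => c w z - β) (univ.erase w) (Jm m) with hBdef
  have hAB : A.card + B.card = n := by
    have h1 := inK_add_outK (fun x => c w x - β) (univ.erase w) (Jm m)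
    have h2 := card_erase_add_one (mem_univ w)
    rw [card_univ, hV] at h2
    rw [← hAdef, ← hBdef] at h1
    omega
  have hjpos : 0 < Nat.card (Jm m) := Nat.card_pos
  obtain ⟨S, hScard, hS⟩ := cj hV c hz h6 w β (by rw [← hAdef]; omega)
  rw [← hAdef, ← hBdef] at hS
  -- the function `f`
  set f : V → ℕ := fun y => (A.filter (fun x => c y x - β ∉ Jm m)).card with hf
  have hfA : ∀ y, f y ≤ A.card := fun y => card_filter_le _ _
  have hfD : ∀ y ∈ B, f y ≤ DJ c w y := by
    intro y hy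
    unfold DJ
    apply card_le_card
    intro x hx
    obtain ⟨hxA, hxJ⟩ := mem_filter.1 hx
    obtain ⟨hxe, hxJ'⟩ := mem_inK.1 hxA
    obtain ⟨hye, hyJ⟩ := mem_outK.1 hy
    refine mem_outK.2 ⟨mem_XX.2 ⟨(mem_erase.1 hxe).1, ?_⟩, fun h => hxJ ?_⟩
    · rintro rfl
      exact hyJ hxJ'
    · have h1 := (Jm m).add_mem h hxJ'
      have e : dd c w y x + (c w x - β) = c y x - β := by
        unfold dd
        ring
      rwa [e] at h1
  -- double counting
  have hdc : ∑ y ∈ B, f y = ∑ x ∈ A, (outK (fun z => c x z - β) B (Jm m)).card := by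
    have h1 : ∀ y, f y = ∑ x ∈ A, if c y x - β ∉ Jm m then 1 else 0 := by
      intro y
      rw [hf]
      simp only [card_filter]
    have h2 : ∀ x, (outK (fun z => c x z - β) B (Jm m)).card =
        ∑ y ∈ B, if c y x - β ∉ Jm m then 1 else 0 := by
      intro x
      have : outK (fun z => c x z - β) B (Jm m) = B.filter (fun y => c y x - β ∉ Jm m) := by
        ext y
        rw [mem_outK, mem_filter, hsym y x]
      rw [this, card_filter]
    rw [sum_congr rfl (fun y _ => h1 y), sum_congr rfl (fun x _ => h2 x), sum_comm]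
  have hlow : ((A.card : ℤ) - Nat.card (Jm m) + 1) * ((s : ℤ) - Nat.card (Jm m) + 1) ≤
      ∑ y ∈ B, (f y : ℤ) := by
    have h1 : (∑ y ∈ B, (f y : ℤ)) =
        ∑ x ∈ A, ((outK (fun z => c x z - β) B (Jm m)).card : ℤ) := by
      exact_mod_cast hdc
    rw [h1]
    rcases le_or_gt 0 ((s : ℤ) - Nat.card (Jm m) + 1) with hpos | hneg
    · have h2 : ∑ x ∈ A \ S, ((s : ℤ) - Nat.card (Jm m) + 1) ≤
          ∑ x ∈ A \ S, ((outK (fun z => c x z - β) B (Jm m)).card : ℤ) := by
        apply sum_le_sum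
        intro x hx
        obtain ⟨hxA, hxS⟩ := mem_sdiff.1 hx
        have h3 := hS x hxA hxS
        have h4 : ((s + 1 : ℕ) : ℤ) ≤ ((Nat.card (Jm m) +
          (outK (fun z => c x z - β) B (Jm m)).card : ℕ) : ℤ) := by exact_mod_cast h3
        push_cast at h4
        linarith
      have h3 : ∑ x ∈ A \ S, ((outK (fun z => c x z - β) B (Jm m)).card : ℤ) ≤
          ∑ x ∈ A, ((outK (fun z => c x z - β) B (Jm m)).card : ℤ) :=
        sum_le_sum_of_subset_of_nonneg sdiff_subset (fun x _ _ => by positivity)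
      rw [sum_const, nsmul_eq_mul] at h2
      have h5 : A.card ≤ (A \ S).card + S.card := by
        have := card_le_card_sdiff_add_card (s := A) (t := S)
        exact this
      have h6 : (A.card : ℤ) - Nat.card (Jm m) + 1 ≤ ((A \ S).card : ℤ) := by
        have h7 : A.card + 1 ≤ (A \ S).card + Nat.card (Jm m) := by omega
        have h8 : ((A.card + 1 : ℕ) : ℤ) ≤ (((A \ S).card + Nat.card (Jm m) : ℕ) : ℤ) := by
          exact_mod_cast h7
        push_cast at h8
        linarith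
      have h9 := mul_le_mul_of_nonneg_right h6 hpos
      linarith
    · have h2 : (0 : ℤ) ≤ (A.card : ℤ) - Nat.card (Jm m) + 1 := by
        have h3 : Nat.card (Jm m) ≤ A.card + 1 := by omega
        have h4 : ((Nat.card (Jm m) : ℕ) : ℤ) ≤ ((A.card + 1 : ℕ) : ℤ) := by exact_mod_cast h3
        push_cast at h4
        linarith
      have h3 : ((A.card : ℤ) - Nat.card (Jm m) + 1) * ((s : ℤ) - Nat.card (Jm m) + 1) ≤ 0 :=
        mul_nonpos_of_nonneg_of_nonpos h2 hneg.le
      have h4 : (0 : ℤ) ≤ ∑ x ∈ A, ((outK (fun z => c x z - β) B (Jm m)).card : ℤ) :=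
        sum_nonneg (fun x _ => by positivity)
      linarith
  by_contra hcon
  push Not at hcon
  have hup : (∑ y ∈ B, (f y : ℤ)) ≤
      ((q : ℤ) - 1) * A.card + ((B.card : ℤ) - q + 1) * ((T : ℤ) - 1) := by
    set P := B.filter (fun y => T ≤ DJ c w y) with hP
    have hPc : P.card + 1 ≤ q := by
      have h1 : P.card ≤ ((univ.erase w).filter (fun y => T ≤ DJ c w y)).card := by
        apply card_le_card
        intro y hy
        obtain ⟨h1, h2⟩ := mem_filter.1 hy
        exact mem_filter.2 ⟨(mem_outK.1 h1).1, h2⟩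
      omega
    have hspl : (∑ y ∈ B, (f y : ℤ)) = (∑ y ∈ P, (f y : ℤ)) +
        ∑ y ∈ B.filter (fun y => ¬ T ≤ DJ c w y), (f y : ℤ) :=
      (sum_filter_add_sum_filter_not B (fun y => T ≤ DJ c w y) _).symm
    have hcc := Finset.card_filter_add_card_filter_not (s := B) (fun y => T ≤ DJ c w y)
    rw [← hP] at hcc
    have h1 : (∑ y ∈ P, (f y : ℤ)) ≤ (P.card : ℤ) * A.card := by
      have := sum_le_card_nsmul P (fun y => (f y : ℤ)) (A.card : ℤ)
        (fun y _ => by exact_mod_cast hfA y)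
      rwa [nsmul_eq_mul] at this
    have h2 : (∑ y ∈ B.filter (fun y => ¬ T ≤ DJ c w y), (f y : ℤ)) ≤
        ((B.filter (fun y => ¬ T ≤ DJ c w y)).card : ℤ) * ((T : ℤ) - 1) := by
      have := sum_le_card_nsmul (B.filter (fun y => ¬ T ≤ DJ c w y)) (fun y => (f y : ℤ))
        ((T : ℤ) - 1) (fun y hy => by
          obtain ⟨hyB, hyT⟩ := mem_filter.1 hy
          have h3 := hfD y hyB
          have h4 : f y + 1 ≤ T := by omega
          have h5 : ((f y + 1 : ℕ) : ℤ) ≤ (T : ℤ) := by exact_mod_cast h4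
          push_cast at h5
          linarith)
      rwa [nsmul_eq_mul] at this
    have h3 : ((B.filter (fun y => ¬ T ≤ DJ c w y)).card : ℤ) = (B.card : ℤ) - P.card := by
      have : ((P.card + (B.filter (fun y => ¬ T ≤ DJ c w y)).card : ℕ) : ℤ) = (B.card : ℤ) := by
        exact_mod_cast hcc
      push_cast at this
      linarith
    rw [h3] at h2
    have h4 : (0 : ℤ) ≤ (q : ℤ) - 1 - P.card := by
      have : ((P.card + 1 : ℕ) : ℤ) ≤ (q : ℤ) := by exact_mod_cast hPc
      push_cast at this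
      linarith
    have h5 : (0 : ℤ) ≤ (A.card : ℤ) - ((T : ℤ) - 1) := by
      have h6 : T ≤ A.card + 1 := by omega
      have : (T : ℤ) ≤ ((A.card + 1 : ℕ) : ℤ) := by exact_mod_cast h6
      push_cast at this
      linarith
    have h6 := mul_nonneg h4 h5
    rw [hspl]
    nlinarith [h1, h2, h6]
  have hB : (B.card : ℤ) = n - A.card := by
    have : ((A.card + B.card : ℕ) : ℤ) = (n : ℤ) := by exact_mod_cast hAB
    push_cast at this
    linarith
  have hAe : (0 : ℤ) ≤ (A.card : ℤ) + e0 - n := by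
    have : (n : ℤ) ≤ ((A.card + e0 : ℕ) : ℤ) := by exact_mod_cast hA
    push_cast at this
    linarith
  have hsl' : (0 : ℤ) ≤ (s : ℤ) + 1 + T - Nat.card (Jm m) - q := by linarith
  have hprod := mul_nonneg hAe hsl'
  rw [hB] at hup
  have hfin := le_trans hlow hup
  nlinarith [hfin, hprod, hE1]

end ZS44129
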