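import Mathlib

/-!
# MP_44129c_co/P1, SqPairs (size S-M): pairs in different classes

PROOF.  `n = S.card`; `d κ` = size of the class `κ`.  The number of pairs is
`∑_{x ∈ S} (n - d (f x)) = n² - ∑_κ (d κ)²`.  Let `D = d κ₀` be the largest class size (`S` nonempty;
`S = ∅` is trivial).
* `2 D ≤ n`: every `x ∈ S` has `n - d (f x) ≥ n / 2`, so `2 * (number) ≥ n²`, and
  `4 e (n - e) ≤ n²`.
* `2 D ≥ n`: the pairs `(x, y)` and `(y, x)` with `x` in the class `κ₀` and `y` outside are
  `2 D (n - D)` pairs in different classes; `D ≤ n - e` and `D ≥ n / 2`, `e ≤ n / 2`: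
  `D (n - D) - e (n - e) = (n - D - e) (D - e) ≥ 0` (`D ≥ n - D ≥ e`).
-/

set_option autoImplicit false

namespace ZS44129

open Finset

theorem sq_pairs {V α : Type*} [DecidableEq V] [DecidableEq α] (S : Finset V) (f : V → α) (e : ℕ)
    (he : 2 * e ≤ S.card) (h : ∀ κ : α, (S.filter (fun x => f x = κ)).card + e ≤ S.card) :
    2 * e * (S.card - e) ≤ ((S ×ˢ S).filter (fun p => f p.1 ≠ f p.2)).card := by
  have heS : e ≤ S.card := by omega
  by_cases hA : ∀ x ∈ S, 2 * (S.filter (fun y => f y = f x)).card ≤ S.card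
  · have hN : ((S ×ˢ S).filter (fun p => f p.1 ≠ f p.2)).card =
        ∑ x ∈ S, (S.card - (S.filter (fun y => f y = f x)).card) := by
      rw [card_filter, sum_product]
      refine sum_congr rfl fun x _ => ?_
      rw [← card_filter]
      have h1 := card_filter_add_card_filter_not (s := S) (fun y => f y = f x)
      have h2 : S.filter (fun y => f x ≠ f y) = S.filter (fun y => ¬ f y = f x) := by
        refine filter_congr fun y _ => ?_
        exact ⟨fun h h' => h h'.symm, fun h h' => h h'.symm⟩
      rw [h2]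
      omega
    have h2N : S.card * S.card ≤ 2 * ((S ×ˢ S).filter (fun p => f p.1 ≠ f p.2)).card := by
      rw [hN, mul_sum]
      calc S.card * S.card = ∑ _x ∈ S, S.card := by rw [sum_const, smul_eq_mul]
        _ ≤ _ := sum_le_sum fun x hx => by
          have h1 := hA x hx
          omega
    obtain ⟨r, hr⟩ := Nat.exists_eq_add_of_le heS
    have hr2 : S.card - e = r := by omega
    rw [hr2]
    rw [hr] at h2N
    have h3 : 4 * (e * r) ≤ (e + r) * (e + r) := by nlinarith [sq_nonneg ((e : ℤ) - r)]
    nlinarith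
  · push Not at hA
    obtain ⟨x0, hx0, hD⟩ := hA
    set A := S.filter (fun y => f y = f x0) with hAd
    set B := S.filter (fun y => ¬ f y = f x0) with hBd
    have hAB : A.card + B.card = S.card := card_filter_add_card_filter_not _
    have hdis : Disjoint (A ×ˢ B) (B ×ˢ A) := by
      rw [disjoint_left]
      intro p h1 h2
      rw [mem_product] at h1 h2
      exact (mem_filter.1 h2.1).2 (mem_filter.1 h1.1).2
    have hsub : (A ×ˢ B) ∪ (B ×ˢ A) ⊆ (S ×ˢ S).filter (fun p => f p.1 ≠ f p.2) := by
      intro p hp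
      rw [mem_filter, mem_product]
      rcases mem_union.1 hp with h1 | h1
      · rw [mem_product] at h1
        have h2 := mem_filter.1 h1.1
        have h3 := mem_filter.1 h1.2
        exact ⟨⟨h2.1, h3.1⟩, fun h => h3.2 (h.symm.trans h2.2)⟩
      · rw [mem_product] at h1
        have h2 := mem_filter.1 h1.1
        have h3 := mem_filter.1 h1.2
        exact ⟨⟨h2.1, h3.1⟩, fun h => h2.2 (h.trans h3.2)⟩
    have hc := card_le_card hsub
    rw [card_union_of_disjoint hdis, card_product, card_product] at hc
    have hk := h (f x0)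
    have hk2 : A.card + e ≤ S.card := hk
    obtain ⟨b, hb⟩ : ∃ b, B.card = e + b := Nat.exists_eq_add_of_le (by omega)
    obtain ⟨a, ha⟩ : ∃ a, A.card = B.card + a := Nat.exists_eq_add_of_le (by omega)
    have hSe : S.card - e = A.card + b := by omega
    rw [hSe]
    rw [ha, hb] at hc ⊢
    nlinarith [Nat.zero_le (a * b), Nat.zero_le (b * b), Nat.zero_le (e * b)]

end ZS44129
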