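import Pool.Agent.Work.MP_44129c_co.P1.Defs
import Pool.Agent.Work.MP_44129c_co.P1.SqPairs

/-!
# MP_44129c_co/P1, ExB (size M): Lemma 4, case II (all `J`-classes are small)

PROOF.  `n + 1 = Fintype.card V`.  For each `x` the number of ordered pairs `(w, y)` of vertices `≠ x`
with `c x w - c x y ∉ J` is at least `2 (e0 + 1) (n - (e0 + 1))`: `sq_pairs` with `S = univ.erase x`,
`f w` = the image of `c x w` in `ZMod m ⧸ J`, `e = e0 + 1`; a class is `∅` or, with `β = c x w` for some
`w` in it, `inK (fun z => c x z - β) (univ.erase x) J` (`hA`).  Sum over `x`: the number of triples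
`(x, w, y)` of distinct vertices with `c x w - c x y ∉ J` is at least
`(n + 1) * 2 (e0 + 1) (n - e0 - 1)`; it is also `∑_w ∑_{y ≠ w} DJ c w y` (`c x w = c w x`;
`dd c w y x = c y x - c w x ∉ J`, `J = -J`; `w = y` never gives a pair).  So some `w` has
`∑_{y ≠ w} DJ c w y ≥ 2 (e0 + 1) (n - e0 - 1)`.  If fewer than `q` of the `n` vertices `y ≠ w` have
`T ≤ DJ c w y`, let `p ≤ q - 1` be their number: `DJ c w y ≤ n - 1` always (`card_XX`), so
`∑_{y ≠ w} DJ c w y ≤ p (n - 1) + (n - p)(T - 1) ≤ (q - 1)(n - 1) + (n - q + 1)(T - 1)` over `ℤ`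
(`T ≤ n`): contradiction to `hE2`.
-/

set_option autoImplicit false

namespace ZS44129

open Finset

private theorem exB_mk_ne {m : ℕ} (a b : ZMod m) :
    ((a : ZMod m ⧸ Jm m) ≠ (b : ZMod m ⧸ Jm m)) ↔ b - a ∉ Jm m := by
  rw [Ne, QuotientAddGroup.eq, neg_add_eq_sub]

open Classical in
private theorem exB_DJ {V : Type} [Fintype V] [DecidableEq V] {m : ℕ} (c : V → V → ZMod m)
    (w y : V) :
    DJ c w y = (univ.filter (fun x : V => x ≠ w ∧ x ≠ y ∧ c y x - c w x ∉ Jm m)).card := by
  unfold DJ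
  congr 1
  ext x
  rw [mem_outK, mem_XX, mem_filter]
  simp only [mem_univ, true_and, and_assoc, dd]

open Classical in
private theorem exB_sum {V : Type} [Fintype V] [DecidableEq V] {m : ℕ} (c : V → V → ZMod m)
    (hsym : ∀ u v, c u v = c v u) :
    ∑ x : V, (((univ.erase x) ×ˢ (univ.erase x)).filter
      (fun p : V × V => (c x p.1 : ZMod m ⧸ Jm m) ≠ (c x p.2 : ZMod m ⧸ Jm m))).card =
    ∑ w : V, ∑ y ∈ univ.erase w, DJ c w y := by
  have h1 : ∀ x : V, (((univ.erase x) ×ˢ (univ.erase x)).filter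
      (fun p : V × V => (c x p.1 : ZMod m ⧸ Jm m) ≠ (c x p.2 : ZMod m ⧸ Jm m))).card =
      ∑ w : V, ∑ y : V, (if x ≠ w ∧ x ≠ y ∧ c y x - c w x ∉ Jm m then 1 else 0) := by
    intro x
    rw [card_eq_sum_ones, sum_filter, sum_product, ← Finset.sum_subset (subset_univ (univ.erase x))]
    · refine sum_congr rfl fun w hw => ?_
      rw [← Finset.sum_subset (subset_univ (univ.erase x))]
      · refine sum_congr rfl fun y hy => ?_
        have e1 : x ≠ w := (mem_erase.1 hw).1.symm
        have e2 : x ≠ y := (mem_erase.1 hy).1.symm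
        have e3 : ((c x w : ZMod m ⧸ Jm m) ≠ (c x y : ZMod m ⧸ Jm m)) ↔
            (x ≠ w ∧ x ≠ y ∧ c y x - c w x ∉ Jm m) := by
          rw [exB_mk_ne, hsym x y, hsym x w]
          exact ⟨fun h => ⟨e1, e2, h⟩, fun h => h.2.2⟩
        simp only [e3]
      · intro y _ hy
        have e2 : y = x := by
          by_contra h
          exact hy (mem_erase.2 ⟨h, mem_univ y⟩)
        rw [if_neg]
        exact fun h => h.2.1 e2.symm
    · intro w _ hw
      have e2 : w = x := by
        by_contra h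
        exact hw (mem_erase.2 ⟨h, mem_univ w⟩)
      refine sum_eq_zero fun y _ => ?_
      rw [if_neg]
      exact fun h => h.1 e2.symm
  rw [sum_congr rfl fun x _ => h1 x, sum_comm]
  refine sum_congr rfl fun w _ => ?_
  rw [sum_comm, ← Finset.sum_subset (subset_univ (univ.erase w))]
  · refine sum_congr rfl fun y _ => ?_
    rw [exB_DJ, card_eq_sum_ones, sum_filter]
  · intro y _ hy
    have e2 : y = w := by
      by_contra h
      exact hy (mem_erase.2 ⟨h, mem_univ y⟩)
    refine sum_eq_zero fun x _ => ?_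
    rw [if_neg]
    intro h
    apply h.2.2
    rw [e2, sub_self]
    exact (Jm m).zero_mem

open Classical in
theorem exB {V : Type} [Fintype V] [DecidableEq V] {m n e0 T q : ℕ} [NeZero m]
    (hn : Fintype.card V = n + 1) (c : V → V → ZMod m)
    (hsym : ∀ u v, c u v = c v u) (he : 2 * (e0 + 1) ≤ n) (hT : T ≤ n) (hT1 : 1 ≤ T) (hq : 1 ≤ q)
    (hE2 : ((q : ℤ) - 1) * ((n : ℤ) - 1) + ((n : ℤ) - q + 1) * ((T : ℤ) - 1) <
      2 * ((e0 : ℤ) + 1) * ((n : ℤ) - e0 - 1))
    (hA : ∀ (w : V) (β : ZMod m),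
      (inK (fun x => c w x - β) (univ.erase w) (Jm m)).card + e0 + 1 ≤ n) :
    ∃ w : V, q ≤ ((univ.erase w).filter (fun y => T ≤ DJ c w y)).card := by
  have hcS : ∀ x : V, (univ.erase x).card = n := by
    intro x
    have h := card_erase_add_one (mem_univ x)
    rw [card_univ] at h
    omega
  have hsq : ∀ x : V, 2 * (e0 + 1) * (n - (e0 + 1)) ≤
      (((univ.erase x) ×ˢ (univ.erase x)).filter
      (fun p : V × V => (c x p.1 : ZMod m ⧸ Jm m) ≠ (c x p.2 : ZMod m ⧸ Jm m))).card := by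
    intro x
    have h := sq_pairs (univ.erase x) (fun w => (c x w : ZMod m ⧸ Jm m)) (e0 + 1)
      (by rw [hcS x]; exact he) (by
        intro κ
        rw [hcS x]
        rcases Finset.eq_empty_or_nonempty
          ((univ.erase x).filter (fun w => (c x w : ZMod m ⧸ Jm m) = κ)) with h0 | ⟨w0, hw0⟩
        · rw [h0, card_empty]
          omega
        · have hA1 := hA x (c x w0)
          have hsub : ((univ.erase x).filter (fun w => (c x w : ZMod m ⧸ Jm m) = κ)) ⊆
              inK (fun z => c x z - c x w0) (univ.erase x) (Jm m) := by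
            intro w hw
            rw [mem_filter] at hw hw0
            rw [mem_inK]
            refine ⟨hw.1, ?_⟩
            have e1 : (c x w0 : ZMod m ⧸ Jm m) = (c x w : ZMod m ⧸ Jm m) := hw0.2.trans hw.2.symm
            rw [QuotientAddGroup.eq, neg_add_eq_sub] at e1
            exact e1
          have h3 := card_le_card hsub
          omega)
    rw [hcS x] at h
    convert h using 2
  have htot := exB_sum c hsym
  have hge : (n + 1) * (2 * (e0 + 1) * (n - (e0 + 1))) ≤ ∑ w : V, ∑ y ∈ univ.erase w, DJ c w y := by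
    rw [← htot]
    calc (n + 1) * (2 * (e0 + 1) * (n - (e0 + 1)))
        = ∑ _x : V, 2 * (e0 + 1) * (n - (e0 + 1)) := by
          rw [sum_const, card_univ, hn, smul_eq_mul]
      _ ≤ _ := sum_le_sum fun x _ => hsq x
  have hw : ∃ w : V, 2 * (e0 + 1) * (n - (e0 + 1)) ≤ ∑ y ∈ univ.erase w, DJ c w y := by
    by_contra hcon
    push Not at hcon
    have hne : (univ : Finset V).Nonempty := by
      rw [← card_pos, card_univ]
      omega
    have h1 : ∑ w : V, ∑ y ∈ univ.erase w, DJ c w y <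
        ∑ _w : V, 2 * (e0 + 1) * (n - (e0 + 1)) := sum_lt_sum_of_nonempty hne fun w _ => hcon w
    rw [sum_const, card_univ, hn, smul_eq_mul] at h1
    omega
  obtain ⟨w, hw⟩ := hw
  refine ⟨w, ?_⟩
  by_contra hlt
  push Not at hlt
  set F := (univ.erase w).filter (fun y => T ≤ DJ c w y) with hF
  have hsplit := sum_filter_add_sum_filter_not (univ.erase w) (fun y => T ≤ DJ c w y)
    (fun y => DJ c w y)
  have hcard := card_filter_add_card_filter_not (s := univ.erase w) (fun y => T ≤ DJ c w y)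
  rw [hcS w] at hcard
  have hb1 : ∑ y ∈ F, DJ c w y ≤ F.card * (n - 1) := by
    rw [← smul_eq_mul]
    refine sum_le_card_nsmul F _ _ fun y hy => ?_
    have hyw : w ≠ y := (mem_erase.1 (mem_filter.1 hy).1).1.symm
    have h1 := card_XX hyw
    have h2 := card_le_card (outK_sub (dd c w y) (XX w y) (Jm m))
    unfold DJ
    omega
  have hb2 : ∑ y ∈ (univ.erase w).filter (fun y => ¬ T ≤ DJ c w y), DJ c w y ≤
      ((univ.erase w).filter (fun y => ¬ T ≤ DJ c w y)).card * (T - 1) := by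
    rw [← smul_eq_mul]
    refine sum_le_card_nsmul _ _ _ fun y hy => ?_
    have h1 := (mem_filter.1 hy).2
    omega
  set p := F.card with hp
  set r := ((univ.erase w).filter (fun y => ¬ T ≤ DJ c w y)).card with hr
  have hn1 : 1 ≤ n := le_trans hT1 hT
  have hmain : 2 * (e0 + 1) * (n - (e0 + 1)) ≤ p * (n - 1) + r * (T - 1) := by
    calc 2 * (e0 + 1) * (n - (e0 + 1)) ≤ ∑ y ∈ univ.erase w, DJ c w y := hw
      _ = ∑ y ∈ F, DJ c w y + ∑ y ∈ (univ.erase w).filter (fun y => ¬ T ≤ DJ c w y), DJ c w y :=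
          hsplit.symm
      _ ≤ p * (n - 1) + r * (T - 1) := add_le_add hb1 hb2
  have hmainZ : 2 * ((e0 : ℤ) + 1) * ((n : ℤ) - (e0 + 1)) ≤
      (p : ℤ) * ((n : ℤ) - 1) + (r : ℤ) * ((T : ℤ) - 1) := by
    have h1 : ((2 * (e0 + 1) * (n - (e0 + 1)) : ℕ) : ℤ) ≤
        ((p * (n - 1) + r * (T - 1) : ℕ) : ℤ) := by exact_mod_cast hmain
    have he1 : e0 + 1 ≤ n := by omega
    push_cast [Nat.cast_sub he1, Nat.cast_sub hn1, Nat.cast_sub hT1] at h1
    exact h1
  have hrZ : (r : ℤ) = (n : ℤ) - p := by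
    have : p + r = n := hcard
    omega
  have hpq : (p : ℤ) + 1 ≤ q := by
    have : p < q := hlt
    omega
  have hTn : (T : ℤ) ≤ n := by exact_mod_cast hT
  rw [hrZ] at hmainZ
  nlinarith [mul_nonneg (sub_nonneg.2 hpq) (sub_nonneg.2 hTn)]

end ZS44129
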