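import Pool.Agent.Work.MP_44129c_co.P1.Defs

/-!
# MP_44129c_co/P1, Fill (size M): the double stars used

`fill`: PROOF.  `g = ∑ x ∈ S, dd c w y x` with `S ⊆ Q`, `g' = ∑ e ∈ S', de (c w) e` with `S' ⊆ E`.
Leaves at `w`: `X = (Q \ S) ∪ Z ∪ (E \ S').image Prod.fst ∪ S'.image Prod.snd`; leaves at `y`:
`Y = S`.  All these sets are pairwise disjoint (`Prs E`: `Prod.fst`, `Prod.snd` are injective on `E`
with disjoint images), so `X.card = Q.card - S.card + Z.card + E.card`, the number of edges is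
`Q.card + Z.card + E.card + 1 = m`, and the total is
`c w y + ∑_{Q \ S} c w x + ∑_Z c w x + ∑_{E \ S'} c w e.1 + ∑_{S'} c w e.2 + ∑_S c y x`, which is the
expression of the statement.  Apply `hz w y hwy X Y`.

`fill_gen`: PROOF.  Suppose `c w y - β ∈ G0`.  The set `XX w y \ Q \ pos E \ Exc` has at least
`(m + s - 2) - Q.card - 2 * E.card - Exc.card ≥ m - 1 - Q.card - E.card` elements (`h1`;
`(pos E).card ≤ 2 * E.card`), so it contains `Z` with `Z.card + Q.card + E.card + 1 = m` (`h2`).  All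
`c w x - β` with `x ∈ Q ∪ Z ∪ E.image Prod.fst` are in `G0` (these `x` are not in `Exc`), so
`S0 := c w y + ∑_Q c w x + ∑_Z c w x + ∑_E c w e.1 = (sum of m elements of G0) + m • β ∈ G0`
(`m • β = 0` in `ZMod m`).  By `hgen` `-S0 = g + g'`; this contradicts `fill`.
-/

set_option autoImplicit false

namespace ZS44129

open Finset

theorem fill {V : Type} [DecidableEq V] {m : ℕ} (c : V → V → ZMod m) (hz : ZSF m c)
    {w y : V} (hwy : w ≠ y) (Q Z : Finset V) (E : Finset (V × V)) (hE : Prs E)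
    (hQZ : Disjoint Q Z) (hQE : Disjoint Q (pos E)) (hZE : Disjoint Z (pos E))
    (hw : w ∉ Q ∧ w ∉ Z ∧ w ∉ pos E) (hy : y ∉ Q ∧ y ∉ Z ∧ y ∉ pos E)
    (hc : Q.card + Z.card + E.card + 1 = m) {g g' : ZMod m} (hg : g ∈ cube (dd c w y) Q)
    (hg' : g' ∈ cube (de (c w)) E) :
    c w y + ∑ x ∈ Q, c w x + ∑ x ∈ Z, c w x + ∑ e ∈ E, c w e.1 + g + g' ≠ 0 := by
  obtain ⟨S, hS, hSg⟩ := mem_cube.1 hg
  obtain ⟨S', hS', hSg'⟩ := mem_cube.1 hg'
  have hfst : ∀ e ∈ E, e.1 ∈ pos E := fun e he => mem_union_left _ (mem_image_of_mem _ he)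
  have hsnd : ∀ e ∈ E, e.2 ∈ pos E := fun e he => mem_union_right _ (mem_image_of_mem _ he)
  have hAp : (E \ S').image Prod.fst ⊆ pos E := by
    intro x hx
    obtain ⟨e, he, rfl⟩ := mem_image.1 hx
    exact hfst e (mem_sdiff.1 he).1
  have hBp : S'.image Prod.snd ⊆ pos E := by
    intro x hx
    obtain ⟨e, he, rfl⟩ := mem_image.1 hx
    exact hsnd e (hS' he)
  have hAB : Disjoint ((E \ S').image Prod.fst) (S'.image Prod.snd) := by
    rw [disjoint_left]
    intro x hx hx'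
    obtain ⟨e, he, rfl⟩ := mem_image.1 hx
    obtain ⟨f, hf, hfe⟩ := mem_image.1 hx'
    obtain ⟨he1, he2⟩ := mem_sdiff.1 he
    have hne : e ≠ f := by
      rintro rfl
      exact he2 hf
    exact (hE.dis e he1 f (hS' hf) hne).2.1 hfe.symm
  have hi1 : Set.InjOn Prod.fst ((E \ S' : Finset (V × V)) : Set (V × V)) := by
    intro e he f hf hef
    by_contra hne
    exact (hE.dis e (mem_sdiff.1 (mem_coe.1 he)).1 f (mem_sdiff.1 (mem_coe.1 hf)).1 hne).1 hef
  have hi2 : Set.InjOn Prod.snd ((S' : Finset (V × V)) : Set (V × V)) := by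
    intro e he f hf hef
    by_contra hne
    exact (hE.dis e (hS' (mem_coe.1 he)) f (hS' (mem_coe.1 hf)) hne).2.2.2 hef
  have d1 : Disjoint (Q \ S) Z := hQZ.mono_left sdiff_subset
  have d2 : Disjoint ((Q \ S) ∪ Z) ((E \ S').image Prod.fst) := by
    rw [disjoint_union_left]
    exact ⟨hQE.mono sdiff_subset hAp, hZE.mono_right hAp⟩
  have d3 : Disjoint ((Q \ S) ∪ Z ∪ (E \ S').image Prod.fst) (S'.image Prod.snd) := by
    rw [disjoint_union_left, disjoint_union_left]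
    exact ⟨⟨hQE.mono sdiff_subset hBp, hZE.mono_right hBp⟩, hAB⟩
  have hcardX : ((Q \ S) ∪ Z ∪ (E \ S').image Prod.fst ∪ S'.image Prod.snd).card + S.card + 1 =
      m := by
    rw [card_union_of_disjoint d3, card_union_of_disjoint d2, card_union_of_disjoint d1,
      card_image_of_injOn hi1, card_image_of_injOn hi2]
    have e1 := card_sdiff_add_card_eq_card hS
    have e2 := card_sdiff_add_card_eq_card hS'
    omega
  have hmem : ∀ v : V, v ∉ Q → v ∉ Z → v ∉ pos E →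
      v ∉ (Q \ S) ∪ Z ∪ (E \ S').image Prod.fst ∪ S'.image Prod.snd := by
    intro v h1 h2 h3 h
    rcases mem_union.1 h with h | h
    · rcases mem_union.1 h with h | h
      · rcases mem_union.1 h with h | h
        · exact h1 (mem_sdiff.1 h).1
        · exact h2 h
      · exact h3 (hAp h)
    · exact h3 (hBp h)
  have hdis : Disjoint ((Q \ S) ∪ Z ∪ (E \ S').image Prod.fst ∪ S'.image Prod.snd) S := by
    rw [disjoint_union_left, disjoint_union_left, disjoint_union_left]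
    exact ⟨⟨⟨disjoint_sdiff_self_left, (hQZ.mono_left hS).symm⟩, (hQE.mono hS hAp).symm⟩,
      (hQE.mono hS hBp).symm⟩
  have hfin := hz w y hwy ((Q \ S) ∪ Z ∪ (E \ S').image Prod.fst ∪ S'.image Prod.snd) S hdis
    (hmem w hw.1 hw.2.1 hw.2.2) (hmem y hy.1 hy.2.1 hy.2.2) (fun h => hw.1 (hS h))
    (fun h => hy.1 (hS h)) hcardX
  rw [sum_union d3, sum_union d2, sum_union d1, sum_image hi1, sum_image hi2] at hfin
  intro h0
  apply hfin
  rw [← h0, ← hSg, ← hSg']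
  have e1 : ∑ x ∈ Q \ S, c w x + ∑ x ∈ S, c w x = ∑ x ∈ Q, c w x := sum_sdiff hS
  have e2 : ∑ e ∈ E \ S', c w e.1 + ∑ e ∈ S', c w e.1 = ∑ e ∈ E, c w e.1 := sum_sdiff hS'
  have e3 : ∑ x ∈ S, dd c w y x = ∑ x ∈ S, c y x - ∑ x ∈ S, c w x := by
    unfold dd
    rw [sum_sub_distrib]
  have e4 : ∑ e ∈ S', de (c w) e = ∑ e ∈ S', c w e.2 - ∑ e ∈ S', c w e.1 := by
    unfold de
    rw [sum_sub_distrib]
  rw [e3, e4]
  linear_combination e1 + e2

theorem fill_gen {V : Type} [Fintype V] [DecidableEq V] {m s : ℕ} [NeZero m]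
    (hV : Fintype.card V = m + s) (c : V → V → ZMod m) (hz : ZSF m c)
    {w y : V} (hwy : w ≠ y) (G0 : AddSubgroup (ZMod m)) (β : ZMod m) (Q Exc : Finset V)
    (E : Finset (V × V)) (hE : Prs E) (hQE : Disjoint Q (pos E)) (hQX : Disjoint Q Exc)
    (hEX : Disjoint (pos E) Exc) (hw : w ∉ Q ∧ w ∉ pos E) (hy : y ∉ Q ∧ y ∉ pos E)
    (hG : ∀ x, x ≠ w → x ≠ y → x ∉ Exc → c w x - β ∈ G0)
    (hgen : ∀ x ∈ G0, ∃ g ∈ cube (dd c w y) Q, ∃ g' ∈ cube (de (c w)) E, x = g + g')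
    (h1 : E.card + Exc.card + 1 ≤ s) (h2 : Q.card + E.card + 1 ≤ m) :
    c w y - β ∉ G0 := by
  intro hcon
  have hposc : (pos E).card ≤ 2 * E.card := by
    unfold pos
    have e1 := card_union_le (E.image Prod.fst) (E.image Prod.snd)
    have e2 : (E.image Prod.fst).card ≤ E.card := card_image_le
    have e3 : (E.image Prod.snd).card ≤ E.card := card_image_le
    omega
  have hXc := card_XX hwy
  rw [hV] at hXc
  have hR : m - 1 - Q.card - E.card ≤ (((XX w y \ Q) \ pos E) \ Exc).card := by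
    have e1 := le_card_sdiff Q (XX w y)
    have e2 := le_card_sdiff (pos E) (XX w y \ Q)
    have e3 := le_card_sdiff Exc ((XX w y \ Q) \ pos E)
    omega
  obtain ⟨Z, hZR, hZc⟩ := exists_subset_card_eq hR
  have hZm : ∀ x ∈ Z, x ≠ w ∧ x ≠ y ∧ x ∉ Q ∧ x ∉ pos E ∧ x ∉ Exc := by
    intro x hx
    obtain ⟨h3, h4⟩ := mem_sdiff.1 (hZR hx)
    obtain ⟨h5, h6⟩ := mem_sdiff.1 h3
    obtain ⟨h7, h8⟩ := mem_sdiff.1 h5
    obtain ⟨h9, h10⟩ := mem_XX.1 h7
    exact ⟨h9, h10, h8, h6, h4⟩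
  have hfst : ∀ e ∈ E, e.1 ∈ pos E := fun e he => mem_union_left _ (mem_image_of_mem _ he)
  have hQG : ∀ x ∈ Q, c w x - β ∈ G0 := by
    intro x hx
    refine hG x ?_ ?_ (disjoint_left.1 hQX hx)
    · rintro rfl
      exact hw.1 hx
    · rintro rfl
      exact hy.1 hx
  have hZG : ∀ x ∈ Z, c w x - β ∈ G0 := by
    intro x hx
    obtain ⟨h3, h4, -, -, h5⟩ := hZm x hx
    exact hG x h3 h4 h5
  have hEG : ∀ e ∈ E, c w e.1 - β ∈ G0 := by
    intro e he
    refine hG _ ?_ ?_ (disjoint_left.1 hEX (hfst e he))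
    · intro h
      exact hw.2 (h ▸ hfst e he)
    · intro h
      exact hy.2 (h ▸ hfst e he)
  have hS0 : c w y + ∑ x ∈ Q, c w x + ∑ x ∈ Z, c w x + ∑ e ∈ E, c w e.1 ∈ G0 := by
    have hcount : ((Q.card + Z.card + E.card + 1 : ℕ) : ZMod m) = 0 := by
      have : Q.card + Z.card + E.card + 1 = m := by omega
      rw [this, ZMod.natCast_self]
    have e1 : c w y + ∑ x ∈ Q, c w x + ∑ x ∈ Z, c w x + ∑ e ∈ E, c w e.1 =
        (c w y - β) + ∑ x ∈ Q, (c w x - β) + ∑ x ∈ Z, (c w x - β) + ∑ e ∈ E, (c w e.1 - β) := by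
      rw [sum_sub_distrib, sum_sub_distrib, sum_sub_distrib, sum_const, sum_const, sum_const,
        nsmul_eq_mul, nsmul_eq_mul, nsmul_eq_mul]
      push_cast at hcount
      linear_combination β * hcount
    rw [e1]
    exact add_mem (add_mem (add_mem hcon (sum_mem hQG)) (sum_mem hZG)) (sum_mem hEG)
  obtain ⟨g, hg, g', hg', hgg⟩ := hgen _ (neg_mem hS0)
  refine fill c hz hwy Q Z E hE ?_ hQE ?_ ⟨hw.1, ?_, hw.2⟩ ⟨hy.1, ?_, hy.2⟩ ?_ hg hg' ?_
  · rw [disjoint_left]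
    intro x hx hx'
    exact (hZm x hx').2.2.1 hx
  · rw [disjoint_left]
    intro x hx
    exact (hZm x hx).2.2.2.1
  · intro h
    exact (hZm w h).1 rfl
  · intro h
    exact (hZm y h).2.1 rfl
  · omega
  · rw [add_assoc, ← hgg]
    exact add_neg_cancel _

end ZS44129
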