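import Pool.Agent.Work.MP_44129c_co.P1.SubU
import Pool.Agent.Work.MP_44129c_co.P1.Coset

/-!
# MP_44129c_co/P1, Flat (size M): flat subgroups have index 2 or 3

Write `a' x = c w x - β`, `X = XX w y`, `out K' = (outK a' X K').card`.
PROOF.  A subgroup `K'` is FLAT if `K ≤ K' < ⊤` and `out K' + 2 ≤ K'.index`.
(1) A flat `K'` has index 2 or 3: `coset_card` (`P = K'`) and `(univ.erase w).card = m + s - 1` give
`(outK a' (univ.erase w) K').card ≥ s + 1 - Nat.card K'`, so `out K' + Nat.card K' ≥ s` (drop `y`), and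
with `i = K'.index`, `Nat.card K' = m / i`: `m / i + i ≥ s + 2`.  If `i ≥ 4`: `i ∣ m` and
`Nat.card K' ≥ Nat.card K ≥ 4` gives `4 * i ≤ m`, contradiction to `hC i`.  `i ≠ 1` as `K' < ⊤`; so
`i ∈ {2, 3}`.  `out K' = 0` if `i = 2`, `out K' ≤ 1` if `i = 3`.
(2) By `sub_index_unique` there is at most one flat subgroup of index 2 (`P₂`) and at most one of index
3 (`P₃`).  `G0` := the intersection of the flat subgroups (`⊤` if there is none).  `K ≤ G0`.  Its index
is 1, 2, 3 or 6 (`P₂ ⊓ P₃` has index `6`: the index is divisible by 2 and by 3 and is at most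
`2 * 3`; we only need `3 ≤ index`, from `G0 ≤ P₃`).  `x ∈ outK a' X G0` is in `outK a' X P₃`
(`outK a' X P₂ = ∅`), so `(outK a' X G0).card ≤ 1`, and it is `0` unless `P₃` exists, in which case
`3 ≤ G0.index`.
(3) Let `K ≤ K' < G0`.  `K'` is not flat (otherwise `G0 ≤ K'`), so `out K' ≥ K'.index - 1`.
`(outK a' (inK a' X G0) K').card = out K' - out G0` (`K' ≤ G0`) `≥ K'.index - 1 - out G0`, and
`K'.index = [G0 : K'] * G0.index`, `Nat.card G0 = Nat.card K' * [G0 : K']`; we need
`[G0 : K'] ≤ K'.index - out G0`: clear if `out G0 = 0`; if `out G0 = 1` then `G0.index ≥ 3` and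
`[G0 : K'] + 1 ≤ 3 [G0 : K']`.
(4) If `c w y - β ∉ G0` then `c w y - β` is outside some flat subgroup `P₂` or `P₃`: this is
`BadH 2 0 c w y` or `BadH 3 1 c w y` (with this `H` and `β`).
-/

set_option autoImplicit false

namespace ZS44129

open Finset

private theorem flat_idx {V : Type} [Fintype V] [DecidableEq V] {m s : ℕ} [NeZero m]
    (hV : Fintype.card V = m + s)
    (hC : ∀ i, i ∣ m → 4 ≤ i → 4 * i ≤ m → m / i + i ≤ s + 1)
    (c : V → V → ZMod m) (hz : ZSF m c) {w y : V} (K : AddSubgroup (ZMod m))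
    (hK : 4 ≤ Nat.card K) (β : ZMod m) (K' : AddSubgroup (ZMod m)) (hKK : K ≤ K') (ht : K' < ⊤)
    (hf : (outK (fun x => c w x - β) (XX w y) K').card + 2 ≤ K'.index) :
    (K'.index = 2 ∧ (outK (fun x => c w x - β) (XX w y) K').card ≤ 0) ∨
      (K'.index = 3 ∧ (outK (fun x => c w x - β) (XX w y) K').card ≤ 1) := by
  have h1 := coset_card c hz w K' β
  have h2 := inK_add_outK (fun x => c w x - β) (univ.erase w) K'
  have h3 : (univ.erase w).card = m + s - 1 := by
    rw [card_erase_of_mem (mem_univ w), card_univ, hV]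
  have h4 : (outK (fun x => c w x - β) (univ.erase w) K').card ≤
      (outK (fun x => c w x - β) (XX w y) K').card + 1 := by
    have h5 : outK (fun x => c w x - β) (univ.erase w) K' ⊆
        insert y (outK (fun x => c w x - β) (XX w y) K') := by
      intro x hx
      rw [mem_outK] at hx
      rw [mem_insert]
      by_cases hxy : x = y
      · exact Or.inl hxy
      · right
        rw [mem_outK, mem_XX]
        exact ⟨⟨(mem_erase.1 hx.1).1, hxy⟩, hx.2⟩
    exact (card_le_card h5).trans (card_insert_le _ _)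
  have h6 := card_mul_index' K'
  have h7 : Nat.card K ≤ Nat.card K' := AddSubgroup.card_le_of_le hKK
  have h8 : K'.index ≠ 0 := AddSubgroup.index_ne_zero_of_finite
  have h9 : K'.index ≠ 1 := by
    intro h
    exact ht.ne (AddSubgroup.index_eq_one.1 h)
  have h10 : ¬ 4 ≤ K'.index := by
    intro h
    have h11 : K'.index ∣ m := ⟨Nat.card K', by rw [mul_comm]; exact h6.symm⟩
    have h12 : 4 * K'.index ≤ m := by
      calc 4 * K'.index ≤ Nat.card K' * K'.index := Nat.mul_le_mul_right _ (hK.trans h7)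
        _ = m := h6
    have h13 := hC _ h11 h h12
    have h14 : m / K'.index = Nat.card K' :=
      Nat.div_eq_of_eq_mul_left (Nat.pos_of_ne_zero h8) h6.symm
    rw [h14] at h13
    have hVpos : 0 < m := Nat.pos_of_ne_zero (NeZero.ne m)
    omega
  omega

theorem flats {V : Type} [Fintype V] [DecidableEq V] {m s : ℕ} [NeZero m]
    (hV : Fintype.card V = m + s)
    (hC : ∀ i, i ∣ m → 4 ≤ i → 4 * i ≤ m → m / i + i ≤ s + 1)
    (c : V → V → ZMod m) (hz : ZSF m c) {w y : V} (hwy : w ≠ y) (K : AddSubgroup (ZMod m))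
    (hK : 4 ≤ Nat.card K) (β : ZMod m) :
    ∃ G0 : AddSubgroup (ZMod m), K ≤ G0 ∧
      (outK (fun x => c w x - β) (XX w y) G0).card ≤ 1 ∧
      3 * (outK (fun x => c w x - β) (XX w y) G0).card ≤ G0.index ∧
      (∀ K' : AddSubgroup (ZMod m), K ≤ K' → K' < G0 → Nat.card G0 ≤ Nat.card K' *
        ((outK (fun x => c w x - β) (inK (fun x => c w x - β) (XX w y) G0) K').card + 1)) ∧
      (c w y - β ∉ G0 → BadH 2 0 c w y ∨ BadH 3 1 c w y) := by
  classical
  have _ := hwy
  set a : V → ZMod m := fun x => c w x - β with ha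
  let Fl : Set (AddSubgroup (ZMod m)) :=
    {K' | K ≤ K' ∧ K' < ⊤ ∧ (outK a (XX w y) K').card + 2 ≤ K'.index}
  have hFl : ∀ K' ∈ Fl, (K'.index = 2 ∧ (outK a (XX w y) K').card ≤ 0) ∨
      (K'.index = 3 ∧ (outK a (XX w y) K').card ≤ 1) := fun K' h =>
    flat_idx hV hC c hz K hK β K' h.1 h.2.1 h.2.2
  set G0 : AddSubgroup (ZMod m) := sInf Fl with hG0
  have hmem : ∀ g : ZMod m, g ∉ G0 → ∃ K' ∈ Fl, g ∉ K' := by
    intro g hg
    by_contra hcon
    push Not at hcon
    exact hg (AddSubgroup.mem_sInf.2 hcon)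
  have hKG : K ≤ G0 := le_sInf fun K' h => h.1
  have hle : ∀ K' ∈ Fl, G0 ≤ K' := fun K' h => sInf_le h
  have hout : (outK a (XX w y) G0).card ≤ 1 ∧ 3 * (outK a (XX w y) G0).card ≤ G0.index := by
    by_cases h3 : ∃ P ∈ Fl, P.index = 3
    · obtain ⟨P, hP, hP3⟩ := h3
      have h1 : (outK a (XX w y) P).card ≤ 1 := by
        rcases hFl P hP with h | h
        · omega
        · exact h.2
      have h2 : outK a (XX w y) G0 ⊆ outK a (XX w y) P := by
        intro x hx
        rw [mem_outK] at hx ⊢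
        refine ⟨hx.1, ?_⟩
        obtain ⟨K', hK', hxK⟩ := hmem _ hx.2
        rcases hFl K' hK' with h | h
        · exfalso
          have h4 : x ∈ outK a (XX w y) K' := mem_outK.2 ⟨hx.1, hxK⟩
          have h5 := card_pos.2 ⟨x, h4⟩
          omega
        · rw [sub_index_unique P K' (by rw [hP3, h.1])]
          exact hxK
      have h3 := card_le_card h2
      have h4 : P.index ≤ G0.index :=
        Nat.le_of_dvd (Nat.pos_of_ne_zero AddSubgroup.index_ne_zero_of_finite)
          (AddSubgroup.index_dvd_of_le (hle P hP))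
      constructor
      · omega
      · omega
    · push Not at h3
      have h1 : outK a (XX w y) G0 = ∅ := by
        rw [eq_empty_iff_forall_notMem]
        intro x hx
        rw [mem_outK] at hx
        obtain ⟨K', hK', hxK⟩ := hmem _ hx.2
        rcases hFl K' hK' with h | h
        · have h4 : x ∈ outK a (XX w y) K' := mem_outK.2 ⟨hx.1, hxK⟩
          have h5 := card_pos.2 ⟨x, h4⟩
          omega
        · exact h3 K' hK' h.1
      rw [h1, card_empty]
      omega
  refine ⟨G0, hKG, hout.1, hout.2, ?_, ?_⟩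
  · intro K' hKK' hlt
    have hnf : K'.index ≤ (outK a (XX w y) K').card + 1 := by
      by_contra hcon
      have h1 : K' ∈ Fl := ⟨hKK', hlt.trans_le le_top, by omega⟩
      exact absurd (hle K' h1) (not_le_of_gt hlt)
    set e := (outK a (inK a (XX w y) G0) K').card with he
    have h1 : (outK a (XX w y) K').card ≤ e + (outK a (XX w y) G0).card := by
      rw [he]
      refine le_trans (card_le_card ?_) (card_union_le _ _)
      intro x hx
      rw [mem_outK] at hx
      rw [mem_union, mem_outK, mem_outK, mem_inK]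
      by_cases hxG : a x ∈ G0
      · exact Or.inl ⟨⟨hx.1, hxG⟩, hx.2⟩
      · exact Or.inr ⟨hx.1, hxG⟩
    have h2 : K'.relIndex G0 * G0.index = K'.index := AddSubgroup.relIndex_mul_index hlt.le
    have h3 := card_mul_index' K'
    have h4 := card_mul_index' G0
    have hgpos : 0 < G0.index := Nat.pos_of_ne_zero AddSubgroup.index_ne_zero_of_finite
    have h5 : Nat.card G0 = Nat.card K' * K'.relIndex G0 := by
      have h6 : Nat.card G0 * G0.index = (Nat.card K' * K'.relIndex G0) * G0.index := by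
        rw [h4, mul_assoc, h2, h3]
      exact Nat.eq_of_mul_eq_mul_right hgpos h6
    rw [h5]
    apply Nat.mul_le_mul_left
    have h7 := hout.1
    have h8 := hout.2
    rcases Nat.eq_zero_or_pos (outK a (XX w y) G0).card with h0 | h0
    · have h9 : K'.relIndex G0 ≤ K'.relIndex G0 * G0.index := Nat.le_mul_of_pos_right _ hgpos
      omega
    · have h9 : K'.relIndex G0 * 3 ≤ K'.relIndex G0 * G0.index :=
        Nat.mul_le_mul_left _ (by omega)
      omega
  · intro h
    obtain ⟨K', hK', hxK⟩ := hmem _ h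
    rcases hFl K' hK' with h1 | h1
    · exact Or.inl ⟨K', β, h1.1, h1.2, hxK⟩
    · exact Or.inr ⟨K', β, h1.1, h1.2, hxK⟩

end ZS44129
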