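import Pool.Agent.Work.MP_44129c_co.P1.Defs

/-!
# MP_44129c_co/P1, NumC (size S): condition (C)

PROOF.  `i ∣ m`, `k = m / i`, `i * k = m`, `4 ≤ i`, `4 ≤ k`: `(i - 4)(k - 4) ≥ 0` gives
`4 (i + k) ≤ m + 16`.  If `m ≤ 4 s - 12` we are done.  Otherwise `m ≥ 4 s - 11`, and
`m ≤ 3 s + 2` gives `s ≤ 13`; (`38 ≤ s`, `10 m ≤ 31 s + 10` gives `40 s - 110 ≤ 31 s + 10`, `s ≤ 13`,
impossible).  So `s ≤ 13`, `m ≤ 41`: finite check (`interval_cases`/`decide`, the failing pairs are in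
`exc`: `(5,16) (6,16) (6,20) (7,20) (8,24) (8,25) (9,28) (10,32)`).
-/

set_option autoImplicit false

namespace ZS44129

private theorem numC_key : ∀ s : Fin 14, ∀ i : Fin 11, ∀ k : Fin 11, (4 ≤ i.1 ∧ 4 ≤ k.1 ∧
    3 * s.1 ≤ i.1 * k.1 + 2 ∧ i.1 * k.1 ≤ 3 * s.1 + 2 ∧ s.1 + 2 ≤ k.1 + i.1) →
    (s.1, i.1 * k.1) ∈ exc := by
  decide +kernel

theorem numC {m s : ℕ} (h : Rg m s) : ∀ i, i ∣ m → 4 ≤ i → 4 * i ≤ m → m / i + i ≤ s + 1 := by
  obtain ⟨h1, h2, h3, h4⟩ := h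
  intro i hi hi4 him
  obtain ⟨k, rfl⟩ := hi
  have hi0 : 0 < i := by omega
  rw [Nat.mul_div_cancel_left _ hi0]
  have hk4 : 4 ≤ k := by
    have : i * 4 ≤ i * k := by omega
    exact Nat.le_of_mul_le_mul_left this hi0
  by_contra hcon
  have hnl : 4 * (i + k) ≤ i * k + 16 := by
    obtain ⟨a, rfl⟩ := Nat.exists_eq_add_of_le hi4
    obtain ⟨b, rfl⟩ := Nat.exists_eq_add_of_le hk4
    have : (4 + a) * (4 + b) = 16 + 4 * a + 4 * b + a * b := by ring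
    rw [this]
    have := Nat.zero_le (a * b)
    omega
  have hs : s < 14 := by omega
  have hm : i * k ≤ 41 := by omega
  have hi11 : i < 11 := by
    by_contra hc
    have : 11 * 4 ≤ i * k := Nat.mul_le_mul (by omega) hk4
    omega
  have hk11 : k < 11 := by
    by_contra hc
    have : 4 * 11 ≤ i * k := Nat.mul_le_mul hi4 (by omega)
    omega
  have e1 : i * k ≤ 3 * s + 2 := by omega
  have e2 : s + 2 ≤ k + i := by omega
  exact h4 (numC_key ⟨s, hs⟩ ⟨i, hi11⟩ ⟨k, hk11⟩ ⟨hi4, hk4, h2, e1, e2⟩)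

end ZS44129
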