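import Pool.Agent.Work.MP_44129c_co.P1.Defs

/-!
# MP_44129c_co/P1, NumE (size M): the numerical conditions of Lemma 4

`j = gcd 6 m`, `q = q0 m`, `T = (m + 2) / 2`, `n + 1 = m + s`.

PROOF.  `s ≤ 28`: finite check (`m ≤ 3 s + 2`; existence of `e0` by `decide`-type search; e.g.
`e0 = 6 * s / 5` works for all but 2 of the pairs).  `s ≥ 29`: `e0 = 13 * s / 10` (floor) works
(checked by machine for `s < 600`; in general: `10 e0 ≤ 13 s < 10 e0 + 10`, `2 T ≤ m + 2`,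
`m ≤ 3 s + 2` or `10 m ≤ 31 s + 10`; cases `(j, q) ∈ {(1,1), (2,2), (3,3), (6,4)}`, worst case
`(6,4)`: first inequality, up to lower order terms, `(4 - 1.3) s² = 2.7 s² > 1.3 * 1.5 s²`
(`1.3 * 1.55 s²` in the second range); second one `2 * 1.3 * 2.7 s² = 7.02 s² > 4 * 1.5 s²`
(`2 * 1.3 * 2.8 > 4.1 * 1.55`); the machine check says that `s ≥ 29` is enough for the lower order
terms; `nlinarith` after clearing denominators; if the `nlinarith` needs a bigger `s`, do more `s` by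
the finite check).
-/

set_option autoImplicit false

namespace ZS44129

private theorem gq (m : ℕ) : (Nat.gcd 6 m = 1 ∧ q0 m = 1) ∨ (Nat.gcd 6 m = 2 ∧ q0 m = 2) ∨
    (Nat.gcd 6 m = 3 ∧ q0 m = 3) ∨ (Nat.gcd 6 m = 6 ∧ q0 m = 4) := by
  have h1 : Nat.gcd 6 m = Nat.gcd (m % 6) 6 := Nat.gcd_rec 6 m
  have h2 : q0 m = q0 (m % 6) := by
    unfold q0
    have e2 : (2 ∣ m) ↔ (2 ∣ m % 6) := by omega
    have e3 : (3 ∣ m) ↔ (3 ∣ m % 6) := by omega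
    simp only [e2, e3]
  rw [h1, h2]
  have h3 : m % 6 < 6 := Nat.mod_lt _ (by norm_num)
  generalize m % 6 = r at h3
  revert r
  decide

private theorem fin1 : ∀ s < 38, ∀ d < 5, (s < 3 ∨ (s, 3 * s + d - 2) ∈ exc) ∨
    (2 * ((if s = 5 ∧ d = 1 then 5 else if s = 20 ∧ d = 2 then 22 else 6 * s / 5) + 1)
        ≤ 4 * s + d - 3 ∧
      ((q0 (3 * s + d - 2) : ℤ) - 1) * (((4 * s + d - 3 : ℕ) : ℤ) -
        ((if s = 5 ∧ d = 1 then 5 else if s = 20 ∧ d = 2 then 22 else 6 * s / 5 : ℕ) : ℤ)) +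
        (((if s = 5 ∧ d = 1 then 5 else if s = 20 ∧ d = 2 then 22 else 6 * s / 5 : ℕ) : ℤ)
          - q0 (3 * s + d - 2) + 1) * ((((3 * s + d - 2) + 2) / 2 : ℕ) - 1 : ℤ) <
        (((4 * s + d - 3 : ℕ) : ℤ) -
          ((if s = 5 ∧ d = 1 then 5 else if s = 20 ∧ d = 2 then 22 else 6 * s / 5 : ℕ) : ℤ)
          - Nat.gcd 6 (3 * s + d - 2) + 1) * ((s : ℤ) - Nat.gcd 6 (3 * s + d - 2) + 1) ∧
      ((q0 (3 * s + d - 2) : ℤ) - 1) * (((4 * s + d - 3 : ℕ) : ℤ) - 1) +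
        (((4 * s + d - 3 : ℕ) : ℤ) - q0 (3 * s + d - 2) + 1) *
          ((((3 * s + d - 2) + 2) / 2 : ℕ) - 1 : ℤ) <
        2 * (((if s = 5 ∧ d = 1 then 5 else if s = 20 ∧ d = 2 then 22 else 6 * s / 5 : ℕ) : ℤ) + 1)
          * (((4 * s + d - 3 : ℕ) : ℤ) -
          ((if s = 5 ∧ d = 1 then 5 else if s = 20 ∧ d = 2 then 22 else 6 * s / 5 : ℕ) : ℤ) - 1)) := by
  decide +kernel

private theorem fin2 : ∀ s < 38, ∀ d < 5, (s < 3 ∨ (s, 3 * s + d - 2) ∈ exc) ∨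
    (3 * s + d - 2 ≤ 4 * s ∧ 7 ≤ 3 * s + d - 2 ∧ (6 ∣ 3 * s + d - 2 → 24 ≤ 3 * s + d - 2) ∧
    4 * Nat.gcd 6 (3 * s + d - 2) ≤ 3 * s + d - 2 + s + 4 ∧
    (Nat.gcd 6 (3 * s + d - 2) : ℤ) + q0 (3 * s + d - 2) ≤
      s + 1 + ((3 * s + d - 2 + 2) / 2 : ℕ)) := by
  decide +kernel

/-- the large part, over the integers. -/
private theorem big {M S E T j q : ℤ} (hS : 38 ≤ S) (h1 : 3 * S - 2 ≤ M)
    (h2 : 10 * M ≤ 31 * S + 10) (hE1 : 10 * E ≤ 13 * S) (hE2 : 13 * S ≤ 10 * E + 9)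
    (hT : 2 * T ≤ M + 2)
    (hjq : (j = 1 ∧ q = 1) ∨ (j = 2 ∧ q = 2) ∨ (j = 3 ∧ q = 3) ∨ (j = 6 ∧ q = 4)) :
    (q - 1) * ((M + S - 1) - E) + (E - q + 1) * (T - 1) <
        ((M + S - 1) - E - j + 1) * (S - j + 1) ∧
      (q - 1) * ((M + S - 1) - 1) + ((M + S - 1) - q + 1) * (T - 1) <
        2 * (E + 1) * ((M + S - 1) - E - 1) := by
  have hq : q ≤ 4 := by rcases hjq with h | h | h | h <;> omega
  have hT1 : (E - q + 1) * (2 * (T - 1)) ≤ (E - q + 1) * M :=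
    mul_le_mul_of_nonneg_left (by omega) (by omega)
  have hT2 : ((M + S - 1) - q + 1) * (2 * (T - 1)) ≤ ((M + S - 1) - q + 1) * M :=
    mul_le_mul_of_nonneg_left (by omega) (by omega)
  have p1 : 0 ≤ (S - 38) * (M - (3 * S - 2)) := mul_nonneg (by omega) (by omega)
  have p2 : 0 ≤ (S - 38) * (31 * S + 10 - 10 * M) := mul_nonneg (by omega) (by omega)
  have p3 : 0 ≤ (S - 38) * (S - 38) := mul_nonneg (by omega) (by omega)
  have p4 : 0 ≤ (M - (3 * S - 2)) * (31 * S + 10 - 10 * M) := mul_nonneg (by omega) (by omega)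
  have p5 : 0 ≤ (10 * E + 9 - 13 * S) * (10 * M - 3 * S - 10 * E - 21) :=
    mul_nonneg (by omega) (by omega)
  rcases hjq with ⟨rfl, rfl⟩ | ⟨rfl, rfl⟩ | ⟨rfl, rfl⟩ | ⟨rfl, rfl⟩
  · have p6 : 0 ≤ (13 * S - 10 * E) * (2 * S + M) := mul_nonneg (by omega) (by omega)
    exact ⟨by nlinarith, by nlinarith⟩
  · have p6 : 0 ≤ (13 * S - 10 * E) * (2 * S - 2 - 2 + M) := mul_nonneg (by omega) (by omega)
    exact ⟨by nlinarith, by nlinarith⟩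
  · have p6 : 0 ≤ (13 * S - 10 * E) * (2 * S - 4 - 4 + M) := mul_nonneg (by omega) (by omega)
    exact ⟨by nlinarith, by nlinarith⟩
  · have p6 : 0 ≤ (13 * S - 10 * E) * (2 * S - 10 - 6 + M) := mul_nonneg (by omega) (by omega)
    exact ⟨by nlinarith, by nlinarith⟩

theorem numE {m s n : ℕ} (h : Rg m s) (hn : n + 1 = m + s) :
    ∃ e0 : ℕ, 2 * (e0 + 1) ≤ n ∧
      ((q0 m : ℤ) - 1) * ((n : ℤ) - e0) + ((e0 : ℤ) - q0 m + 1) * (((m + 2) / 2 : ℕ) - 1 : ℤ) <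
        ((n : ℤ) - e0 - Nat.gcd 6 m + 1) * ((s : ℤ) - Nat.gcd 6 m + 1) ∧
      ((q0 m : ℤ) - 1) * ((n : ℤ) - 1) + ((n : ℤ) - q0 m + 1) * (((m + 2) / 2 : ℕ) - 1 : ℤ) <
        2 * ((e0 : ℤ) + 1) * ((n : ℤ) - e0 - 1) := by
  obtain ⟨h3, h1, h2, hx⟩ := h
  by_cases hs : s < 38
  · have hm2 : m ≤ 3 * s + 2 := by
      rcases h2 with h2 | h2
      · exact h2
      · omega
    obtain ⟨d, hd⟩ : ∃ d, m + 2 = 3 * s + d := ⟨m + 2 - 3 * s, by omega⟩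
    have hm : m = 3 * s + d - 2 := by omega
    have hn' : n = 4 * s + d - 3 := by omega
    subst hm
    subst hn'
    rcases fin1 s hs d (by omega) with (h | h) | h
    · omega
    · exact absurd h hx
    · exact ⟨_, h⟩
  · have hs' : 38 ≤ s := by omega
    have h2' : 10 * m ≤ 31 * s + 10 := by omega
    refine ⟨13 * s / 10, by omega, ?_⟩
    have hnz : (n : ℤ) = (m : ℤ) + s - 1 := by omega
    rw [hnz]
    have hT : 2 * (((m + 2) / 2 : ℕ) : ℤ) ≤ (m : ℤ) + 2 := by omega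
    have hE1 : 10 * ((13 * s / 10 : ℕ) : ℤ) ≤ 13 * (s : ℤ) := by omega
    have hE2 : 13 * (s : ℤ) ≤ 10 * ((13 * s / 10 : ℕ) : ℤ) + 9 := by omega
    refine big (by omega) (by omega) (by omega) hE1 hE2 hT ?_
    rcases gq m with ⟨a, b⟩ | ⟨a, b⟩ | ⟨a, b⟩ | ⟨a, b⟩ <;> rw [a, b] <;> norm_num

/-- the other numerical facts. -/
theorem numM {m s : ℕ} (h : Rg m s) : 3 ≤ s ∧ m ≤ 4 * s ∧ 7 ≤ m ∧ (6 ∣ m → 24 ≤ m) ∧
    4 * Nat.gcd 6 m ≤ m + s + 4 ∧ (Nat.gcd 6 m : ℤ) + q0 m ≤ s + 1 + ((m + 2) / 2 : ℕ) := by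
  obtain ⟨h3, h1, h2, hx⟩ := h
  refine ⟨h3, ?_⟩
  by_cases hs : s < 38
  · have hm2 : m ≤ 3 * s + 2 := by
      rcases h2 with h2 | h2
      · exact h2
      · omega
    obtain ⟨d, hd⟩ : ∃ d, m + 2 = 3 * s + d := ⟨m + 2 - 3 * s, by omega⟩
    have hm : m = 3 * s + d - 2 := by omega
    subst hm
    rcases fin2 s hs d (by omega) with (h | h) | h
    · omega
    · exact absurd h hx
    · exact h
  · have hs' : 38 ≤ s := by omega
    have h2' : 10 * m ≤ 31 * s + 10 := by omega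
    rcases gq m with ⟨a, b⟩ | ⟨a, b⟩ | ⟨a, b⟩ | ⟨a, b⟩ <;> rw [a, b] <;>
      refine ⟨by omega, by omega, by omega, by omega, by push_cast; omega⟩

end ZS44129
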