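import Pool.Agent.Work.MP_44129c_co.P1.Defs

/-!
# MP_44129c_co/P1, Partner (size S): pairs with partners; unions of pairs

`partner`: PROOF.  Choose an injection `p : W → P` (`W.card ≤ P.card`), `E = {(p x, x) | x ∈ W}`.  For
`T ⊆ W` the sum of `de a (p x, x) = (a x - β) - (a (p x) - β)` over `T` differs from
`∑ x ∈ T, (a x - β)` by an element of `K`.
`prs_union`, `pos_union`, `card_pos`: routine.
-/

set_option autoImplicit false

namespace ZS44129

open Finset

theorem partner {V : Type} [DecidableEq V] {m : ℕ} [NeZero m] (a : V → ZMod m) (β : ZMod m)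
    (K G0 : AddSubgroup (ZMod m)) (W P : Finset V) (hWP : Disjoint W P) (hc : W.card ≤ P.card)
    (hP : ∀ x ∈ P, a x - β ∈ K) (hg : Gen (fun x => a x - β) W K G0) :
    ∃ E : Finset (V × V), Prs E ∧ E.card = W.card ∧ (∀ e ∈ E, e.1 ∈ P ∧ e.2 ∈ W) ∧
      Gen (de a) E K G0 := by
  obtain ⟨P', hP's, hP'c⟩ := Finset.exists_subset_card_eq hc
  let φ : W ≃ P' := Finset.equivOfCardEq hP'c.symm
  set p : V → V := fun x => if h : x ∈ W then (φ ⟨x, h⟩ : V) else x with hp
  have hpe : ∀ x (h : x ∈ W), p x = (φ ⟨x, h⟩ : V) := fun x h => by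
    rw [hp]
    simp only [h, dif_pos]
  have hpP : ∀ x ∈ W, p x ∈ P := fun x h => by
    rw [hpe x h]
    exact hP's (φ ⟨x, h⟩).2
  have hpi : ∀ x ∈ W, ∀ y ∈ W, p x = p y → x = y := fun x hx y hy h => by
    rw [hpe x hx, hpe y hy] at h
    have h2 := φ.injective (Subtype.ext h)
    exact congrArg Subtype.val h2
  have hne : ∀ x ∈ P, ∀ y ∈ W, x ≠ y := fun x hx y hy h =>
    Finset.disjoint_left.1 hWP hy (h ▸ hx)
  have hinj : Function.Injective (fun x : V => (p x, x)) := fun x y h => congrArg Prod.snd h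
  have hmem : ∀ e : V × V, e ∈ W.image (fun x => (p x, x)) ↔ ∃ x ∈ W, e = (p x, x) := fun e => by
    rw [Finset.mem_image]
    exact ⟨fun ⟨x, hx, h⟩ => ⟨x, hx, h.symm⟩, fun ⟨x, hx, h⟩ => ⟨x, hx, h.symm⟩⟩
  refine ⟨W.image (fun x => (p x, x)), ⟨?_, ?_⟩, Finset.card_image_of_injective _ hinj, ?_, ?_⟩
  · intro e he
    obtain ⟨x, hx, rfl⟩ := (hmem e).1 he
    exact hne _ (hpP x hx) _ hx
  · intro e he f hf hef
    obtain ⟨x, hx, rfl⟩ := (hmem e).1 he
    obtain ⟨y, hy, rfl⟩ := (hmem f).1 hf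
    have hxy : x ≠ y := fun h => hef (by rw [h])
    exact ⟨fun h => hxy (hpi x hx y hy h), hne _ (hpP x hx) _ hy,
      (hne _ (hpP y hy) _ hx).symm, hxy⟩
  · intro e he
    obtain ⟨x, hx, rfl⟩ := (hmem e).1 he
    exact ⟨hpP x hx, hx⟩
  · intro z hz
    obtain ⟨g, hg1, hg2⟩ := hg z hz
    obtain ⟨T, hT, rfl⟩ := mem_cube.1 hg1
    refine ⟨∑ x ∈ T, (a x - a (p x)), mem_cube.2 ⟨T.image (fun x => (p x, x)),
      Finset.image_subset_image hT, ?_⟩, ?_⟩
    · rw [Finset.sum_image fun x _ y _ h => hinj h]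
      rfl
    · have h1 : ∑ x ∈ T, (a (p x) - β) ∈ K := K.sum_mem fun x hx => hP _ (hpP x (hT hx))
      have h2 := K.add_mem hg2 h1
      have h3 : z - ∑ x ∈ T, (a x - β) + ∑ x ∈ T, (a (p x) - β) =
          z - ∑ x ∈ T, (a x - a (p x)) := by
        rw [sub_add, ← Finset.sum_sub_distrib]
        congr 1
        exact Finset.sum_congr rfl fun x _ => by ring
      rwa [h3] at h2

theorem pos_union {V : Type} [DecidableEq V] (E E' : Finset (V × V)) :
    pos (E ∪ E') = pos E ∪ pos E' := by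
  unfold pos
  rw [Finset.image_union, Finset.image_union]
  exact Finset.union_union_union_comm _ _ _ _

theorem card_pos {V : Type} [DecidableEq V] (E : Finset (V × V)) :
    (pos E).card ≤ 2 * E.card := by
  unfold pos
  have h1 := Finset.card_union_le (E.image Prod.fst) (E.image Prod.snd)
  have h2 : (E.image Prod.fst).card ≤ E.card := Finset.card_image_le
  have h3 : (E.image Prod.snd).card ≤ E.card := Finset.card_image_le
  omega

theorem mem_pos {V : Type} [DecidableEq V] {E : Finset (V × V)} {x : V} :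
    x ∈ pos E ↔ ∃ e ∈ E, x = e.1 ∨ x = e.2 := by
  unfold pos
  rw [Finset.mem_union, Finset.mem_image, Finset.mem_image]
  constructor
  · rintro (⟨e, he, h⟩ | ⟨e, he, h⟩)
    · exact ⟨e, he, Or.inl h.symm⟩
    · exact ⟨e, he, Or.inr h.symm⟩
  · rintro ⟨e, he, h | h⟩
    · exact Or.inl ⟨e, he, h.symm⟩
    · exact Or.inr ⟨e, he, h.symm⟩

theorem prs_union {V : Type} [DecidableEq V] {E E' : Finset (V × V)} (h : Prs E) (h' : Prs E')
    (hd : Disjoint (pos E) (pos E')) : Prs (E ∪ E') ∧ Disjoint E E' := by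
  have key : ∀ x ∈ pos E, ∀ y ∈ pos E', x ≠ y := fun x hx y hy hxy =>
    Finset.disjoint_left.1 hd hx (hxy ▸ hy)
  have l1 : ∀ e ∈ E, e.1 ∈ pos E := fun e he => mem_pos.2 ⟨e, he, Or.inl rfl⟩
  have l2 : ∀ e ∈ E, e.2 ∈ pos E := fun e he => mem_pos.2 ⟨e, he, Or.inr rfl⟩
  have r1 : ∀ e ∈ E', e.1 ∈ pos E' := fun e he => mem_pos.2 ⟨e, he, Or.inl rfl⟩
  have r2 : ∀ e ∈ E', e.2 ∈ pos E' := fun e he => mem_pos.2 ⟨e, he, Or.inr rfl⟩
  refine ⟨⟨?_, ?_⟩, ?_⟩
  · intro e he
    rcases Finset.mem_union.1 he with he | he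
    · exact h.ne e he
    · exact h'.ne e he
  · intro e he f hf hef
    rcases Finset.mem_union.1 he with he | he
    · rcases Finset.mem_union.1 hf with hf | hf
      · exact h.dis e he f hf hef
      · exact ⟨key _ (l1 e he) _ (r1 f hf), key _ (l1 e he) _ (r2 f hf),
          key _ (l2 e he) _ (r1 f hf), key _ (l2 e he) _ (r2 f hf)⟩
    · rcases Finset.mem_union.1 hf with hf | hf
      · exact ⟨(key _ (l1 f hf) _ (r1 e he)).symm, (key _ (l2 f hf) _ (r1 e he)).symm,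
          (key _ (l1 f hf) _ (r2 e he)).symm, (key _ (l2 f hf) _ (r2 e he)).symm⟩
      · exact h'.dis e he f hf hef
  · rw [Finset.disjoint_left]
    intro e he he'
    exact key _ (l1 e he) _ (r1 e he') rfl

end ZS44129
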