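import Pool.Agent.Work.MP_44129c_co.P1.Desc
import Pool.Agent.Work.MP_44129c_co.P1.ChooseR
import Pool.Agent.Work.MP_44129c_co.P1.Partner
import Pool.Agent.Work.MP_44129c_co.P1.Flat
import Pool.Agent.Work.MP_44129c_co.P1.Fill

/-!
# MP_44129c_co/P1, Per (size M-L): the periodic case

PROOF.  `d = dd c w y`, `a = c w`, `X = XX w y` (`X.card = m + s - 2`), `F ⊆ X`.
Step 0: `cube d F ≠ univ`.  Otherwise `Gen d F ⊥ ⊤`; `gen_small` gives `Q ⊆ F`, `Gen d Q ⊥ ⊤`,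
`Q.card + 1 ≤ m`; `fill_gen` with `G0 = ⊤`, `β = 0`, `E = ∅`, `Exc = ∅` says `c w y - 0 ∉ ⊤`,
contradiction (`1 ≤ s`).
Step 1: `exists_R`: `R`, `r = Nat.card R ≥ 4`, `k = R.index`, `r * k = m`, `k ≥ 2` (because
`2 * r ≤ m`), `(outK d F R).card ≤ k - 2`, so `(inK d F R).card ≥ F.card - k + 2`.
`robust` with `B = ∅` gives `Q ⊆ inK d F R`, `Gen d Q ⊥ R`, `Q.card + 1 ≤ r`; condition
`r ≤ F.card - k + 3`: `2 F.card ≥ r k + 1` and `r k + 7 - 2 k - 2 r = (r - 2)(k - 2) + 3 ≥ 0`.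
Step 2: `descent` for `a`, `X' = X \ Q`, `R`; condition `2 k ≤ m + s - 2 - (r - 1)`:
`r k + s - 1 - r - 2 k = (r - 2)(k - 1) + s - 3 ≥ 0`.  Result: `K ≥ R`, `β`, `E` (inside `X'`),
`v = [K : R]`, `u = K.index`, `u v = k`, `Nat.card K = r v`, `E.card ≤ v - 1`,
`#{x ∈ X' | a x - β ∉ K} ≤ 2 (k - v)`.  Note `k ≤ s` (`4 k ≤ r k = m ≤ 4 s`).
Case `K = ⊤` (`v = k`): `fill_gen` with `G0 = ⊤`, `β`, `Q`, `E`, `Exc = ∅`: `E.card + 1 ≤ k ≤ s`,
`Q.card + E.card + 1 ≤ (r - 1) + (k - 1) + 1 ≤ m`; `hgen`: `x ∈ ⊤ = K`: `g' ∈ cube (de a) E` with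
`x - g' ∈ R`, `g ∈ cube d Q` with `x - g' - g ∈ ⊥`.  It says `c w y - β ∉ ⊤`: contradiction.
Case `K < ⊤`: `u ≥ 2`.  `flats` for `K`, `β` (`Nat.card K ≥ r ≥ 4`): `G0`,
`Exc = outK a' X G0` (`a' x = a x - β`), `e = Exc.card ≤ 1`, `3 e ≤ g0 := G0.index`.  `gen_of_count`
(`A = K`, `B = G0`, family `a'` on `inK a' X G0`) and `gen_small`: `W ⊆ inK a' X G0` with
`Gen a' W K G0` and `(W.card + 1) * Nat.card K ≤ Nat.card G0`, i.e. `(W.card + 1) * g0 ≤ u`.  Hence
`W.card + e ≤ u - 1` (if `e = 1` then `3 (W.card + 1) ≤ u`).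
We may also assume that `W` is disjoint from `inK a' X K`: replace `X` by `outK a' X K ∩ inK a' X G0`
in `gen_of_count` (for `K ≤ K'` the elements outside `K'` are outside `K`, so the counts are the same).
`B = W ∪ pos E ∪ Exc`: `B.card ≤ (u - 1) + 2 (v - 1) ≤ k` since
`u v - u + 1 - 2 v + 2 = (u - 2)(v - 1) + 1 ≥ 0`.  `robust` with this `B` gives `Q' ⊆ inK d F R \ B`,
`Gen d Q' ⊥ R`, `Q'.card + 1 ≤ r`; condition: `F.card - k + 2 - (u - 1) - 2 (v - 1) ≥ r - 1`, i.e.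
`2 F.card ≥ 2 (u v + r + u + 2 v - 6)`, which follows from `2 F.card ≥ u v r + 1` and
`u v r + 13 - 2 u v - 2 r - 2 u - 4 v = 2 (v - 1)(r - 4) + 1 + (u - 2)(v (r - 2) - 2) ≥ 0`.
Partners: `P = inK a' X K \ Q' \ pos E`, disjoint from `W`.  `(inK a' X K).card ≥
(X \ Q).card - 2 (k - v) ≥ m + s - 2 - (r - 1) - 2 (k - v)`, so
`P.card ≥ m + s - 1 - r - 2 k + 2 v - (r - 1) - 2 (v - 1) = m + s - 2 r - 2 k + 2 ≥ k - 1 ≥ W.card`, as
`r k - 2 r - 3 k + s + 3 = (r - 3)(k - 2) + (s - 3) ≥ 0` (`s ≥ 3`, `r ≥ 4`, `k ≥ 2`).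
`partner` gives `E'` (pairs with `e.1 ∈ P`, `e.2 ∈ W`, `E'.card = W.card`) with
`Gen (de a) E' K G0`.  `E'' = E ∪ E'` (`prs_union`: `pos E` is disjoint from `P` and from `W`:
`pos E ⊆ inK a' X K`).  `gen_trans`: `Gen (de a) E'' R G0`.
`fill_gen` with `G0`, `β`, `Q'`, `Exc`, `E''`: `pos E'' ∩ Exc = ∅` (all of `pos E''` has `a' ∈ G0`),
`Q' ∩ Exc = ∅`, `Q' ∩ pos E'' = ∅` (`Q'` avoids `W`, `pos E`, and `P` avoids `Q'`),
`E''.card + e + 1 ≤ (v - 1) + (u - 1) + 1 ≤ u v = k ≤ s`, `Q'.card + E''.card + 1 ≤ (r - 1) + (k - 1) + 1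
≤ m`.  So `c w y - β ∉ G0`, and `flats` gives the claim.
-/

set_option autoImplicit false

namespace ZS44129

open Finset

private theorem pr_ar1 {r k F : ℕ} (hr : 4 ≤ r) (hk : 2 ≤ k) (hF : r * k + 1 ≤ 2 * F) :
    r + k ≤ F + 3 := by
  obtain ⟨r', rfl⟩ : ∃ r', r = r' + 2 := ⟨r - 2, by omega⟩
  obtain ⟨k', rfl⟩ : ∃ k', k = k' + 2 := ⟨k - 2, by omega⟩
  nlinarith [Nat.zero_le (r' * k')]

private theorem pr_ar2 {r k s : ℕ} (hr : 4 ≤ r) (hk : 2 ≤ k) (hs : 3 ≤ s) :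
    2 * k + r + 1 ≤ r * k + s := by
  obtain ⟨r', rfl⟩ : ∃ r', r = r' + 2 := ⟨r - 2, by omega⟩
  obtain ⟨k', rfl⟩ : ∃ k', k = k' + 1 := ⟨k - 1, by omega⟩
  nlinarith [Nat.zero_le (r' * k')]

private theorem pr_ar3 {u v : ℕ} (hu : 2 ≤ u) (hv : 1 ≤ v) : u + 2 * v ≤ u * v + 2 := by
  obtain ⟨u', rfl⟩ : ∃ u', u = u' + 2 := ⟨u - 2, by omega⟩
  obtain ⟨v', rfl⟩ : ∃ v', v = v' + 1 := ⟨v - 1, by omega⟩
  nlinarith [Nat.zero_le (u' * v')]

private theorem pr_ar4 {u v r F : ℕ} (hu : 2 ≤ u) (hv : 1 ≤ v) (hr : 4 ≤ r)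
    (hF : r * (u * v) + 1 ≤ 2 * F) : r + u * v + u + 2 * v ≤ F + 6 := by
  obtain ⟨u', rfl⟩ : ∃ u', u = u' + 2 := ⟨u - 2, by omega⟩
  obtain ⟨v', rfl⟩ : ∃ v', v = v' + 1 := ⟨v - 1, by omega⟩
  obtain ⟨r', rfl⟩ : ∃ r', r = r' + 4 := ⟨r - 4, by omega⟩
  nlinarith [Nat.zero_le (v' * r'), Nat.zero_le (u' * v' * r'), Nat.zero_le (u' * v'),
    Nat.zero_le (u' * r')]

private theorem pr_ar5 {r k s : ℕ} (hr : 4 ≤ r) (hk : 2 ≤ k) (hs : 3 ≤ s) :
    2 * r + 3 * k ≤ r * k + s + 3 := by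
  obtain ⟨r', rfl⟩ : ∃ r', r = r' + 3 := ⟨r - 3, by omega⟩
  obtain ⟨k', rfl⟩ : ∃ k', k = k' + 2 := ⟨k - 2, by omega⟩
  nlinarith [Nat.zero_le (r' * k')]

private theorem pr_ar6 {u v : ℕ} (hu : 1 ≤ u) (hv : 1 ≤ v) : u + v ≤ u * v + 1 := by
  obtain ⟨u', rfl⟩ : ∃ u', u = u' + 1 := ⟨u - 1, by omega⟩
  obtain ⟨v', rfl⟩ : ∃ v', v = v' + 1 := ⟨v - 1, by omega⟩
  nlinarith [Nat.zero_le (u' * v')]

private theorem pr_gen {V : Type} [DecidableEq V] {m : ℕ} {d : V → ZMod m} {a : V → ZMod m}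
    {Q : Finset V} {E : Finset (V × V)} {R B : AddSubgroup (ZMod m)} (h1 : Gen d Q ⊥ R)
    (h2 : Gen (de a) E R B) (x : ZMod m) (hx : x ∈ B) :
    ∃ g ∈ cube d Q, ∃ g' ∈ cube (de a) E, x = g + g' := by
  obtain ⟨g', hg', h3⟩ := h2 x hx
  obtain ⟨g, hg, h4⟩ := h1 _ h3
  refine ⟨g, hg, g', hg', ?_⟩
  have h5 : x - g' - g = 0 := (AddSubgroup.mem_bot).1 h4
  have : x = x - g' - g + (g + g') := by ring
  rw [this, h5, zero_add]

theorem periodic_bad {V : Type} [Fintype V] [DecidableEq V] {m s : ℕ} [NeZero m]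
    (hs : 3 ≤ s) (hV : Fintype.card V = m + s) (hm : m ≤ 4 * s)
    (hC : ∀ i, i ∣ m → 4 ≤ i → 4 * i ≤ m → m / i + i ≤ s + 1)
    (c : V → V → ZMod m) (hz : ZSF m c) {w y : V} (hwy : w ≠ y) (F : Finset V)
    (hFX : F ⊆ XX w y) (hF : m + 1 ≤ 2 * F.card) (hJ : ∀ x ∈ F, dd c w y x ∉ Jm m)
    (hper : ¬ Aper (cube (dd c w y) F)) : BadH 2 0 c w y ∨ BadH 3 1 c w y := by
  classical
  have hXc := card_XX hwy
  rw [hV] at hXc
  have hd0 : ∀ x ∈ F, dd c w y x ≠ 0 := by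
    intro x hx h0
    refine hJ x hx ?_
    rw [mem_Jm, h0, nsmul_zero]
  have hwX : w ∉ XX w y := fun h => (mem_XX.1 h).1 rfl
  have hyX : y ∉ XX w y := fun h => (mem_XX.1 h).2 rfl
  have hprs0 : Prs (∅ : Finset (V × V)) := ⟨fun e he => by simp at he, fun e he => by simp at he⟩
  have hpos0 : pos (∅ : Finset (V × V)) = ∅ := by simp [pos]
  have hcm : Nat.card (ZMod m) = m := Nat.card_zmod m
  -- Step 0
  have hne : cube (dd c w y) F ≠ univ := by
    intro hu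
    have hg : Gen (dd c w y) F ⊥ ⊤ := by
      intro x _
      refine ⟨x, by rw [hu]; exact mem_univ x, ?_⟩
      rw [sub_self]
      exact zero_mem _
    obtain ⟨Q, hQF, hQg, hQc⟩ := gen_small (dd c w y) F ⊥ ⊤ bot_le
      (fun i _ => AddSubgroup.mem_top _) hg
    rw [AddSubgroup.card_bot, mul_one, AddSubgroup.card_top, hcm] at hQc
    have hQw : w ∉ Q := fun h => hwX (hFX (hQF h))
    have hQy : y ∉ Q := fun h => hyX (hFX (hQF h))
    have := fill_gen hV c hz hwy ⊤ 0 Q ∅ ∅ hprs0 (by rw [hpos0]; exact disjoint_empty_right _)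
      (disjoint_empty_right _) (disjoint_empty_right _) ⟨hQw, by rw [hpos0]; exact notMem_empty _⟩
      ⟨hQy, by rw [hpos0]; exact notMem_empty _⟩ (fun x _ _ _ => AddSubgroup.mem_top _)
      (by
        intro x hx
        obtain ⟨g, hg', h4⟩ := hQg x hx
        refine ⟨g, hg', 0, zero_mem_cube _ _, ?_⟩
        rw [add_zero]
        exact sub_eq_zero.1 ((AddSubgroup.mem_bot).1 h4))
      (by simp only [card_empty]; omega) (by simp only [card_empty]; omega)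
    exact this (AddSubgroup.mem_top _)
  -- Step 1
  obtain ⟨R, hr4, -, hRc, hmin⟩ := exists_R (dd c w y) F hF hJ hne hper
  set r := Nat.card R with hr
  set k := R.index with hk
  have hrk : r * k = m := by
    rw [hr, hk, AddSubgroup.card_mul_index, hcm]
  have hr0 : 0 < r := by omega
  have hk_out : (outK (dd c w y) F R).card + 2 ≤ k := by
    have : r * ((outK (dd c w y) F R).card + 2) ≤ r * k := by
      rw [hrk, mul_comm]
      exact hRc
    exact Nat.le_of_mul_le_mul_left this hr0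
  have hk2 : 2 ≤ k := by omega
  have hio := inK_add_outK (dd c w y) F R
  have hF' : r * k + 1 ≤ 2 * F.card := by rw [hrk]; exact hF
  obtain ⟨Q, hQ, hQg, hQc⟩ := robust (dd c w y) F hd0 R hRc hmin ∅ (by simp) (by
    rw [sdiff_empty]
    have := pr_ar1 hr4 hk2 hF'
    omega)
  rw [sdiff_empty] at hQ
  have hQF : Q ⊆ F := hQ.trans (inK_sub _ _ _)
  have hQX : Q ⊆ XX w y := hQF.trans hFX
  have hXQ : (XX w y \ Q).card + Q.card = (XX w y).card := card_sdiff_add_card_eq_card hQX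
  -- Step 2
  have ar2 := pr_ar2 hr4 hk2 hs
  rw [hrk] at ar2
  obtain ⟨K, β, E, hRK, hE, hEm, hgE, hEc, hout⟩ := descent (c w) (XX w y \ Q) R (by omega)
  obtain ⟨v, hv⟩ : r ∣ Nat.card K := AddSubgroup.card_dvd_of_le hRK
  set u := K.index with hu
  have hKu : Nat.card K * u = m := by rw [hu, AddSubgroup.card_mul_index, hcm]
  have hm0 : 0 < m := Nat.pos_of_ne_zero (NeZero.ne m)
  have huv : u * v = k := by
    have h1 : r * (u * v) = r * k := by
      rw [hrk, ← hKu, hv]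
      ring
    exact Nat.eq_of_mul_eq_mul_left hr0 h1
  have hv1 : 1 ≤ v := by
    rcases Nat.eq_zero_or_pos v with h0 | h0
    · rw [h0, mul_zero] at huv
      omega
    · exact h0
  have hu1 : 1 ≤ u := by
    rcases Nat.eq_zero_or_pos u with h0 | h0
    · rw [h0, zero_mul] at huv
      omega
    · exact h0
  have hEv : E.card + 1 ≤ v := by
    have h1 : r * (E.card + 1) ≤ r * v := by
      rw [← hv, mul_comm]
      exact hEc
    exact Nat.le_of_mul_le_mul_left h1 hr0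
  have hout' : (outK (fun x => c w x - β) (XX w y \ Q) K).card + 2 * v ≤ 2 * k := by
    have h1 : r * ((outK (fun x => c w x - β) (XX w y \ Q) K).card + 2 * v) ≤ r * (2 * k) := by
      calc r * ((outK (fun x => c w x - β) (XX w y \ Q) K).card + 2 * v)
          = (outK (fun x => c w x - β) (XX w y \ Q) K).card * r + 2 * (r * v) := by ring
        _ ≤ 2 * m := by rw [← hv]; exact hout
        _ = r * (2 * k) := by rw [← hrk]; ring
    exact Nat.le_of_mul_le_mul_left h1 hr0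
  have hks : k ≤ s := by
    have h1 : 4 * k ≤ r * k := Nat.mul_le_mul_right k hr4
    omega
  have hrk' : r + k ≤ m + 1 := by
    have := pr_ar6 (u := r) (v := k) (by omega) (by omega)
    omega
  have hEpos : ∀ x ∈ pos E, x ∈ XX w y ∧ x ∉ Q ∧ c w x - β ∈ K := by
    intro x hx
    obtain ⟨e, he, h1⟩ := mem_pos.1 hx
    obtain ⟨h2, h3, h4, h5⟩ := hEm e he
    rw [mem_sdiff] at h2 h3
    rcases h1 with rfl | rfl
    · exact ⟨h2.1, h2.2, h4⟩
    · exact ⟨h3.1, h3.2, h5⟩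
  by_cases hKT : K = ⊤
  · -- the case `K = ⊤`
    exfalso
    have huu : u = 1 := by rw [hu, hKT, AddSubgroup.index_top]
    have hvk : v = k := by rw [huu, one_mul] at huv; exact huv
    have := fill_gen hV c hz hwy ⊤ β Q ∅ E hE
      (disjoint_left.2 fun x hx hx' => (hEpos x hx').2.1 hx)
      (disjoint_empty_right _) (disjoint_empty_right _)
      ⟨fun h => hwX (hQX h), fun h => hwX (hEpos w h).1⟩
      ⟨fun h => hyX (hQX h), fun h => hyX (hEpos y h).1⟩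
      (fun x _ _ _ => AddSubgroup.mem_top _)
      (by
        intro x hx
        exact pr_gen hQg hgE x (by rw [hKT]; exact hx))
      (by simp only [card_empty]; omega) (by omega)
    exact this (AddSubgroup.mem_top _)
  · have hu2 : 2 ≤ u := by
      have : u ≠ 1 := fun h => hKT (AddSubgroup.index_eq_one.1 h)
      omega
    have hK4 : 4 ≤ Nat.card K := by
      rw [hv]
      calc 4 ≤ r * 1 := by omega
        _ ≤ r * v := Nat.mul_le_mul_left r hv1
    obtain ⟨G0, hKG, hex1, h3ex, hcount, hfin⟩ := flats hV hC c hz hwy K hK4 β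
    apply hfin
    set a' : V → ZMod m := fun x => c w x - β with ha'
    set Exc := outK a' (XX w y) G0 with hExc
    -- `W`
    have hIeq : ∀ K' : AddSubgroup (ZMod m), K ≤ K' →
        outK a' (outK a' (XX w y) K ∩ inK a' (XX w y) G0) K' = outK a' (inK a' (XX w y) G0) K' := by
      intro K' hK'
      ext i
      simp only [mem_outK, mem_inK, mem_inter]
      constructor
      · rintro ⟨⟨-, h2⟩, h3⟩
        exact ⟨h2, h3⟩
      · rintro ⟨h2, h3⟩
        exact ⟨⟨⟨h2.1, fun h4 => h3 (hK' h4)⟩, h2⟩, h3⟩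
    have hgI : Gen a' (outK a' (XX w y) K ∩ inK a' (XX w y) G0) K G0 := by
      refine gen_of_count a' _ K G0 hKG (fun i hi => (mem_inK.1 (mem_inter.1 hi).2).2) ?_
      intro K' h1 h2
      rw [hIeq K' h1]
      exact hcount K' h1 h2
    obtain ⟨W, hWI, hWg, hWc⟩ := gen_small a' _ K G0 hKG
      (fun i hi => (mem_inK.1 (mem_inter.1 hi).2).2) hgI
    have hW : ∀ x ∈ W, x ∈ XX w y ∧ a' x ∉ K ∧ a' x ∈ G0 := by
      intro x hx
      have h1 := mem_inter.1 (hWI hx)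
      exact ⟨(mem_outK.1 h1.1).1, (mem_outK.1 h1.1).2, (mem_inK.1 h1.2).2⟩
    set g0 := G0.index with hg0
    have hGg : Nat.card G0 * g0 = m := by rw [hg0, AddSubgroup.card_mul_index, hcm]
    have hWg0 : (W.card + 1) * g0 ≤ u := by
      have hK0 : 0 < Nat.card K := by omega
      have h1 : Nat.card K * ((W.card + 1) * g0) ≤ Nat.card K * u := by
        calc Nat.card K * ((W.card + 1) * g0) = (W.card + 1) * Nat.card K * g0 := by ring
          _ ≤ Nat.card G0 * g0 := Nat.mul_le_mul_right _ hWc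
          _ = Nat.card K * u := by rw [hGg, hKu]
      exact Nat.le_of_mul_le_mul_left h1 hK0
    have hg01 : 1 ≤ g0 := by
      rcases Nat.eq_zero_or_pos g0 with h0 | h0
      · rw [h0, mul_zero] at hGg
        omega
      · exact h0
    have hWe : W.card + Exc.card + 1 ≤ u := by
      rcases Nat.eq_zero_or_pos Exc.card with h0 | h0
      · have h1 : (W.card + 1) * 1 ≤ (W.card + 1) * g0 := Nat.mul_le_mul_left _ hg01
        omega
      · have h2 : 3 ≤ g0 := by omega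
        have h1 : (W.card + 1) * 3 ≤ (W.card + 1) * g0 := Nat.mul_le_mul_left _ h2
        omega
    -- `B`
    have hpc := card_pos E
    have hBc : (W ∪ pos E ∪ Exc).card ≤ W.card + 2 * E.card + Exc.card := by
      have h1 := card_union_le (W ∪ pos E) Exc
      have h2 := card_union_le W (pos E)
      omega
    have ar3 := pr_ar3 hu2 hv1
    rw [huv] at ar3
    have hF'' : r * (u * v) + 1 ≤ 2 * F.card := by rw [huv]; exact hF'
    have ar4 := pr_ar4 hu2 hv1 hr4 hF''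
    rw [huv] at ar4
    obtain ⟨Q', hQ', hQ'g, hQ'c⟩ := robust (dd c w y) F hd0 R hRc hmin (W ∪ pos E ∪ Exc)
      (by omega) (by
        have h1 := le_card_sdiff (W ∪ pos E ∪ Exc) (inK (dd c w y) F R)
        omega)
    have hQ'F : Q' ⊆ F := fun x hx => (mem_inK.1 (mem_sdiff.1 (hQ' hx)).1).1
    have hQ'X : Q' ⊆ XX w y := hQ'F.trans hFX
    have hQ'B : ∀ x ∈ Q', x ∉ W ∧ x ∉ pos E ∧ x ∉ Exc := by
      intro x hx
      have h1 := (mem_sdiff.1 (hQ' hx)).2
      simp only [mem_union, not_or] at h1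
      exact ⟨h1.1.1, h1.1.2, h1.2⟩
    -- `P`
    set P := (inK a' (XX w y) K \ Q') \ pos E with hP
    have hPm : ∀ x ∈ P, x ∈ XX w y ∧ a' x ∈ K ∧ x ∉ Q' ∧ x ∉ pos E := by
      intro x hx
      rw [hP, mem_sdiff, mem_sdiff] at hx
      exact ⟨(mem_inK.1 hx.1.1).1, (mem_inK.1 hx.1.1).2, hx.1.2, hx.2⟩
    have hWP : Disjoint W P := disjoint_left.2 fun x hx hx' => (hW x hx).2.1 (hPm x hx').2.1
    have hPc : W.card ≤ P.card := by
      have h1 : (inK a' (XX w y \ Q) K).card ≤ (inK a' (XX w y) K).card := by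
        apply card_le_card
        intro x hx
        rw [mem_inK] at hx ⊢
        exact ⟨(mem_sdiff.1 hx.1).1, hx.2⟩
      have h2 := inK_add_outK a' (XX w y \ Q) K
      have h3 := le_card_sdiff Q' (inK a' (XX w y) K)
      have h4 := le_card_sdiff (pos E) (inK a' (XX w y) K \ Q')
      rw [← hP] at h4
      have ar5 := pr_ar5 hr4 hk2 hs
      rw [hrk] at ar5
      have huk : u ≤ k := by
        rw [← huv]
        calc u = u * 1 := (mul_one u).symm
          _ ≤ u * v := Nat.mul_le_mul_left u hv1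
      omega
    obtain ⟨E', hE', hE'c, hE'm, hE'g⟩ := partner (c w) β K G0 W P hWP hPc
      (fun x hx => (hPm x hx).2.1) hWg
    have hE'pos : ∀ x ∈ pos E', x ∈ P ∨ x ∈ W := by
      intro x hx
      obtain ⟨e, he, h1⟩ := mem_pos.1 hx
      obtain ⟨h2, h3⟩ := hE'm e he
      rcases h1 with rfl | rfl
      · exact Or.inl h2
      · exact Or.inr h3
    have hdis : Disjoint (pos E) (pos E') := by
      refine disjoint_left.2 fun x hx hx' => ?_
      rcases hE'pos x hx' with h1 | h1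
      · exact (hPm x h1).2.2.2 hx
      · exact (hW x h1).2.1 (hEpos x hx).2.2
    obtain ⟨hPrs, hEE⟩ := prs_union hE hE' hdis
    have hgEE : Gen (de (c w)) (E ∪ E') R G0 := gen_trans (de (c w)) E E' hEE R K G0 hgE hE'g
    have hposm : ∀ x ∈ pos (E ∪ E'), x ∈ XX w y ∧ x ∉ Q' ∧ a' x ∈ G0 := by
      intro x hx
      rw [pos_union, mem_union] at hx
      rcases hx with h1 | h1
      · refine ⟨(hEpos x h1).1, fun h2 => (hQ'B x h2).2.1 h1, hKG (hEpos x h1).2.2⟩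
      · rcases hE'pos x h1 with h2 | h2
        · exact ⟨(hPm x h2).1, (hPm x h2).2.2.1, hKG (hPm x h2).2.1⟩
        · exact ⟨(hW x h2).1, fun h3 => (hQ'B x h3).1 h2, (hW x h2).2.2⟩
    have hEEc : (E ∪ E').card ≤ E.card + W.card := by
      have := card_union_le E E'
      omega
    have ar6 := pr_ar6 hu1 hv1
    rw [huv] at ar6
    refine fill_gen hV c hz hwy G0 β Q' Exc (E ∪ E') hPrs
      (disjoint_left.2 fun x hx hx' => (hposm x hx').2.1 hx)
      (disjoint_left.2 fun x hx hx' => (hQ'B x hx).2.2 hx')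
      (disjoint_left.2 fun x hx hx' => (mem_outK.1 hx').2 (hposm x hx).2.2)
      ⟨fun h => hwX (hQ'X h), fun h => hwX (hposm w h).1⟩
      ⟨fun h => hyX (hQ'X h), fun h => hyX (hposm y h).1⟩ ?_ ?_ (by omega) (by omega)
    · intro x hxw hxy hxE
      by_contra hc
      exact hxE (mem_outK.2 ⟨mem_XX.2 ⟨hxw, hxy⟩, hc⟩)
    · intro x hx
      exact pr_gen hQ'g hgEE x hx

end ZS44129
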