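import Pool.Agent.Work.MP_44129c_co.P1.Per
import Pool.Agent.Work.MP_44129c_co.P1.BadC
import Pool.Agent.Work.MP_44129c_co.P1.ExA
import Pool.Agent.Work.MP_44129c_co.P1.ExB
import Pool.Agent.Work.MP_44129c_co.P1.NumC
import Pool.Agent.Work.MP_44129c_co.P1.NumE

/-!
# MP_44129c_co/P1, Thm1 (helper8): the first lifted pair
-/

set_option autoImplicit false

namespace ZS44129

open Finset

theorem first_pair {V : Type} [Fintype V] [DecidableEq V] {m s : ℕ} [NeZero m]
    (hR : Rg m s) (hV : Fintype.card V = m + s) (c : V → V → ZMod m)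
    (hsym : ∀ u v, c u v = c v u) (hz : ZSF m c) :
    ∃ (w y : V) (F : Finset V), w ≠ y ∧ F ⊆ XX w y ∧ m + 1 ≤ 2 * F.card ∧
      (∀ x ∈ F, dd c w y x ∉ Jm m) ∧ Aper (cube (dd c w y) F) := by
  classical
  obtain ⟨h3, h4s, h7, h24, hn4, hjq⟩ := numM hR
  have hC := numC hR
  obtain ⟨n, hn⟩ : ∃ n, n + 1 = m + s := ⟨m + s - 1, by omega⟩
  obtain ⟨e0, he0, hE1, hE2⟩ := numE hR hn
  have hq1 : 1 ≤ q0 m := by unfold q0; omega
  have hex : ∃ w : V, q0 m ≤
      ((univ.erase w).filter (fun y => (m + 2) / 2 ≤ DJ c w y)).card := by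
    by_cases hcase : ∃ (w : V) (β : ZMod m),
        n ≤ (inK (fun x => c w x - β) (univ.erase w) (Jm m)).card + e0
    · obtain ⟨w, β, hA⟩ := hcase
      refine ⟨w, ?_⟩
      have := exA (q := q0 m) (T := (m + 2) / 2) (e0 := e0) (n := n) hV hn (by omega) c hsym hz h24
        (by rw [card_Jm]; omega) he0 (by omega) (by omega) hq1
        (by rw [card_Jm]; exact hjq) (by rw [card_Jm]; exact hE1) w β hA
      convert this
    · push Not at hcase
      have := exB (q := q0 m) (T := (m + 2) / 2) (e0 := e0) (n := n) (by omega) c hsym he0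
        (by omega) (by omega) hq1 hE2 (fun w β => by have := hcase w β; omega)
      obtain ⟨w, hw⟩ := this
      refine ⟨w, ?_⟩
      convert hw
  obtain ⟨w, hw⟩ := hex
  set Y := (univ.erase w).filter (fun y => (m + 2) / 2 ≤ DJ c w y) with hY
  by_contra hcon
  push Not at hcon
  have hbad : ∀ y ∈ Y, BadH 2 0 c w y ∨ BadH 3 1 c w y := by
    intro y hy
    rw [hY, mem_filter] at hy
    have hwy : w ≠ y := (ne_of_mem_erase hy.1).symm
    have hJ : ∀ x ∈ outK (dd c w y) (XX w y) (Jm m), dd c w y x ∉ Jm m :=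
      fun x hx => (mem_outK.1 hx).2
    have hF : m + 1 ≤ 2 * (outK (dd c w y) (XX w y) (Jm m)).card := by
      have := hy.2
      unfold DJ at this
      omega
    exact periodic_bad h3 hV h4s hC c hz hwy _ (outK_sub _ _ _) hF hJ
      (hcon w y _ hwy (outK_sub _ _ _) hF hJ)
  have := bad_card (by omega) c w Y (by rw [hY]; simp) hbad
  omega

end ZS44129
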